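import Pool.Agent.Lib.MP_d283d5_gt.Defs

set_option linter.all false

/-!
# Reflections and right-angled Coxeter groups in Minkowski space
-/

noncomputable section

open MeasureTheory

namespace EqVol

/-! ### the Lorentz form -/

lemma lor_comm (x y : E4) : lor x y = lor y x := by simp only [lor]; ring

lemma lor_add_left (x y z : E4) : lor (x + y) z = lor x z + lor y z := by
  simp only [lor, Pi.add_apply]; ring

lemma lor_add_right (x y z : E4) : lor x (y + z) = lor x y + lor x z := by
  simp only [lor, Pi.add_apply]; ring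

lemma lor_sub_left (x y z : E4) : lor (x - y) z = lor x z - lor y z := by
  simp only [lor, Pi.sub_apply]; ring

lemma lor_sub_right (x y z : E4) : lor x (y - z) = lor x y - lor x z := by
  simp only [lor, Pi.sub_apply]; ring

lemma lor_smul_left (c : ℝ) (x y : E4) : lor (c • x) y = c * lor x y := by
  simp only [lor, Pi.smul_apply, smul_eq_mul]; ring

lemma lor_smul_right (c : ℝ) (x y : E4) : lor x (c • y) = c * lor x y := by
  simp only [lor, Pi.smul_apply, smul_eq_mul]; ring

@[simp] lemma lor_zero_left (y : E4) : lor 0 y = 0 := by simp [lor]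

@[simp] lemma lor_zero_right (x : E4) : lor x 0 = 0 := by simp [lor]

lemma lor_neg_left (x y : E4) : lor (-x) y = -lor x y := by
  simp only [lor, Pi.neg_apply]; ring

lemma lor_neg_right (x y : E4) : lor x (-y) = -lor x y := by
  simp only [lor, Pi.neg_apply]; ring

lemma lor_sum_left {ι : Type*} (s : Finset ι) (f : ι → E4) (y : E4) :
    lor (∑ i ∈ s, f i) y = ∑ i ∈ s, lor (f i) y := by
  classical
  induction s using Finset.induction_on with
  | empty => simp
  | insert a s ha ih => rw [Finset.sum_insert ha, Finset.sum_insert ha, lor_add_left, ih]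

lemma lor_sum_right {ι : Type*} (s : Finset ι) (f : ι → E4) (x : E4) :
    lor x (∑ i ∈ s, f i) = ∑ i ∈ s, lor x (f i) := by
  rw [lor_comm, lor_sum_left]
  exact Finset.sum_congr rfl fun i _ => lor_comm _ _

/-- the form is nondegenerate -/
lemma eq_zero_of_lor (x : E4) (h : ∀ y, lor x y = 0) : x = 0 := by
  have h0 := h (Pi.single 0 1)
  have h1 := h (Pi.single 1 1)
  have h2 := h (Pi.single 2 1)
  have h3 := h (Pi.single 3 1)
  simp [lor, Pi.single_apply] at h0 h1 h2 h3
  funext i
  fin_cases i <;> simp <;> assumption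

/-! ### reflections -/

/-- the linear map `x ↦ x - 2 ⟨x, v⟩ v` -/
def reflLin (v : E4) : E4 →ₗ[ℝ] E4 where
  toFun x := x - (2 * lor x v) • v
  map_add' x y := by rw [lor_add_left]; module
  map_smul' c x := by rw [lor_smul_left]; simp only [RingHom.id_apply]; module

lemma reflLin_apply (v x : E4) : reflLin v x = x - (2 * lor x v) • v := rfl

lemma reflLin_invol (v : E4) (hv : lor v v = 1) : Function.Involutive (reflLin v) := by
  intro x
  simp only [reflLin_apply, lor_sub_left, lor_smul_left, hv]
  module

/-- the reflection in the hyperplane orthogonal to the unit vector `v` -/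
def refl (v : E4) (hv : lor v v = 1) : Lin :=
  LinearEquiv.ofInvolutive (reflLin v) (reflLin_invol v hv)

lemma refl_apply (v : E4) (hv : lor v v = 1) (x : E4) :
    refl v hv x = x - (2 * lor x v) • v := rfl

lemma lor_refl (v : E4) (hv : lor v v = 1) (x y : E4) :
    lor (refl v hv x) (refl v hv y) = lor x y := by
  simp only [refl_apply, lor_sub_left, lor_smul_left, lor_sub_right, lor_smul_right, hv,
    lor_comm v y]
  ring

lemma refl_mul_self (v : E4) (hv : lor v v = 1) : refl v hv * refl v hv = 1 := by
  ext1 x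
  exact reflLin_invol v hv x

lemma refl_comm (v v' : E4) (hv : lor v v = 1) (hv' : lor v' v' = 1) (h : lor v v' = 0) :
    refl v hv * refl v' hv' = refl v' hv' * refl v hv := by
  ext1 x
  change refl v hv (refl v' hv' x) = refl v' hv' (refl v hv x)
  simp only [refl_apply, lor_sub_left, lor_smul_left, h, lor_comm v' v]
  module

/-! ### right-angled data -/

/-- Unit vectors in Minkowski space which are pairwise orthogonal or far apart, with
a base point strictly inside the chamber. -/
structure Datum (ι : Type) where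
  e : ι → E4
  base : E4
  norm : ∀ i, lor (e i) (e i) = 1
  far : ∀ i j, i ≠ j → lor (e i) (e j) = 0 ∨ lor (e i) (e j) ≤ -1
  base_mem : base ∈ Hyp
  base_neg : ∀ i, lor base (e i) < 0

namespace Datum

variable {ι : Type} (d : Datum ι)

open Classical in
/-- the Coxeter matrix -/
def mat : CoxeterMatrix ι where
  M := Matrix.of fun i j => if i = j then 1 else if lor (d.e i) (d.e j) = 0 then 2 else 0
  isSymm := by
    ext i j
    simp only [Matrix.transpose_apply, Matrix.of_apply, eq_comm (a := j), lor_comm (d.e j)]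
  diagonal i := by simp
  off_diagonal i j h := by
    simp only [Matrix.of_apply, if_neg h]
    split_ifs <;> norm_num

/-- the right-angled Coxeter group -/
abbrev W : Type := d.mat.Group

/-- its Coxeter system -/
abbrev cs : CoxeterSystem d.mat d.W := d.mat.toCoxeterSystem

/-- the generators -/
def s (i : ι) : d.W := d.cs.simple i

lemma mat_self (i : ι) : d.mat i i = 1 := d.mat.diagonal i

lemma mat_orth {i j : ι} (h : i ≠ j) (h0 : lor (d.e i) (d.e j) = 0) : d.mat i j = 2 := by
  classical
  change (if i = j then 1 else if lor (d.e i) (d.e j) = 0 then 2 else 0) = 2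
  rw [if_neg h, if_pos h0]

lemma mat_far {i j : ι} (h : i ≠ j) (h0 : lor (d.e i) (d.e j) ≠ 0) : d.mat i j = 0 := by
  classical
  change (if i = j then 1 else if lor (d.e i) (d.e j) = 0 then 2 else 0) = 0
  rw [if_neg h, if_neg h0]

lemma ne_of_orth {i j : ι} (h0 : lor (d.e i) (d.e j) = 0) : i ≠ j := by
  rintro rfl
  rw [d.norm] at h0
  norm_num at h0

lemma s_mul_self (i : ι) : d.s i * d.s i = 1 := d.cs.simple_mul_simple_self i

lemma s_inv (i : ι) : (d.s i)⁻¹ = d.s i := d.cs.inv_simple i

lemma s_comm {i j : ι} (h0 : lor (d.e i) (d.e j) = 0) : d.s i * d.s j = d.s j * d.s i := by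
  have h := d.cs.simple_mul_simple_pow i j
  rw [d.mat_orth (d.ne_of_orth h0) h0, pow_two] at h
  have h2 : (d.s i * d.s j)⁻¹ = d.s i * d.s j := by
    rw [inv_eq_iff_mul_eq_one]; exact h
  rw [mul_inv_rev, d.s_inv, d.s_inv] at h2
  exact h2.symm

/-- a family of commuting involutions defines a homomorphism on the Coxeter group -/
def hom {G : Type} [Group G] (f : ι → G) (h1 : ∀ i, f i * f i = 1)
    (h2 : ∀ i j, lor (d.e i) (d.e j) = 0 → f i * f j = f j * f i) : d.W →* G :=
  d.cs.lift ⟨f, by
    intro i j
    by_cases hij : i = j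
    · subst hij
      rw [d.mat_self, pow_one, h1]
    · by_cases h0 : lor (d.e i) (d.e j) = 0
      · rw [d.mat_orth hij h0, pow_two, ← mul_assoc, mul_assoc (f i), ← h2 i j h0,
          ← mul_assoc (f i), h1, one_mul, h1]
      · rw [d.mat_far hij h0, pow_zero]⟩

lemma hom_s {G : Type} [Group G] (f : ι → G) (h1 : ∀ i, f i * f i = 1)
    (h2 : ∀ i j, lor (d.e i) (d.e j) = 0 → f i * f j = f j * f i) (i : ι) :
    d.hom f h1 h2 (d.s i) = f i := d.cs.lift_apply_simple _ i

/-- the geometric representation -/
def rho : d.W →* Lin :=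
  d.hom (fun i => refl (d.e i) (d.norm i)) (fun i => refl_mul_self _ _)
    (fun i j h => refl_comm _ _ _ _ h)

lemma rho_s (i : ι) : d.rho (d.s i) = refl (d.e i) (d.norm i) := d.hom_s _ _ _ i

lemma rho_s_apply (i : ι) (x : E4) : d.rho (d.s i) x = x - (2 * lor x (d.e i)) • d.e i := by
  rw [rho_s, refl_apply]

lemma rho_mul_apply (v w : d.W) (x : E4) : d.rho (v * w) x = d.rho v (d.rho w x) := by
  rw [map_mul]; rfl

lemma rho_one_apply (x : E4) : d.rho 1 x = x := by rw [map_one]; rfl

lemma rho_inv_apply (w : d.W) (x : E4) : d.rho w⁻¹ (d.rho w x) = x := by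
  rw [← d.rho_mul_apply, inv_mul_cancel, d.rho_one_apply]

lemma rho_apply_inv (w : d.W) (x : E4) : d.rho w (d.rho w⁻¹ x) = x := by
  rw [← d.rho_mul_apply, mul_inv_cancel, d.rho_one_apply]

/-- induction on the elements of the group -/
lemma induct {p : d.W → Prop} (w : d.W) (one : p 1) (mul : ∀ w i, p w → p (w * d.s i)) : p w :=
  d.cs.simple_induction_right w one mul

lemma lor_rho (w : d.W) (x y : E4) : lor (d.rho w x) (d.rho w y) = lor x y := by
  induction w using d.induct generalizing x y with
  | one => rw [d.rho_one_apply, d.rho_one_apply]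
  | mul w i ih => rw [d.rho_mul_apply, d.rho_mul_apply, ih, d.rho_s, lor_refl]

/-- the chamber -/
def C : Set E4 := {x | ∀ i, lor x (d.e i) ≤ 0}

lemma mem_C {x : E4} : x ∈ d.C ↔ ∀ i, lor x (d.e i) ≤ 0 := Iff.rfl

lemma smul_mem_C {x : E4} (hx : x ∈ d.C) {t : ℝ} (ht : 0 ≤ t) : t • x ∈ d.C := by
  intro i
  rw [lor_smul_left]
  exact mul_nonpos_of_nonneg_of_nonpos ht (hx i)

/-- nonnegative combinations of the vectors `e i` -/
def InCone [Fintype ι] (v : E4) : Prop := ∃ a : ι → ℝ, (∀ i, 0 ≤ a i) ∧ v = ∑ i, a i • d.e i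

/-! ### colourings -/

/-- the homomorphism to `(ℤ/2)³` given by a colouring of the generators -/
def col (f : ι → Fin 3 → ZMod 2) : d.W →* Multiplicative (Fin 3 → ZMod 2) :=
  d.hom (fun i => Multiplicative.ofAdd (f i))
    (fun i => by
      rw [← ofAdd_add]
      have : f i + f i = 0 := by
        funext k
        exact CharTwo.add_self_eq_zero _
      rw [this]; rfl)
    (fun i j _ => mul_comm _ _)

lemma col_s (f : ι → Fin 3 → ZMod 2) (i : ι) : d.col f (d.s i) = Multiplicative.ofAdd (f i) :=
  d.hom_s _ _ _ i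

/-- the kernel of the colouring -/
def K (f : ι → Fin 3 → ZMod 2) : Subgroup d.W := (d.col f).ker

/-- the group of isometries defined by the kernel of the colouring -/
def Γ (f : ι → Fin 3 → ZMod 2) : Subgroup Lin := (d.K f).map d.rho

/-- The colouring is good: the colours have odd weight, and the colours of every nonempty set of
pairwise orthogonal generators have nonzero sum. -/
def Good (f : ι → Fin 3 → ZMod 2) : Prop :=
  (∀ i, f i 0 + f i 1 + f i 2 = 1) ∧
  ∀ I : Finset ι, I.Nonempty → (∀ i ∈ I, ∀ j ∈ I, i ≠ j → lor (d.e i) (d.e j) = 0) →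
    ∑ i ∈ I, f i ≠ 0

end Datum

end EqVol
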