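import Mathlib

/-!
# Hyperbolic 3-manifolds, slopes and Dehn fillings

A complete orientable hyperbolic 3-manifold is `ℍ³/Γ`, where `Γ` is a discrete
torsion-free group of orientation-preserving isometries of hyperbolic space, here in the
hyperboloid model. All notions below are expressed with `Γ`, the fundamental group.
-/

open MeasureTheory

namespace EqVol

/-- the space `ℝ⁴` -/
abbrev E4 : Type := Fin 4 → ℝ

/-- the group of invertible linear maps of `ℝ⁴` -/
abbrev Lin : Type := E4 ≃ₗ[ℝ] E4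

/-- the Lorentz form on `ℝ⁴` -/
def lor (x y : E4) : ℝ := -(x 0 * y 0) + x 1 * y 1 + x 2 * y 2 + x 3 * y 3

/-- hyperbolic 3-space (hyperboloid model) -/
def Hyp : Set E4 := {x | lor x x = -1 ∧ 0 < x 0}

/-- `Γ` is a discrete torsion-free group of orientation-preserving isometries of `ℍ³`, so that
`ℍ³/Γ` is a complete orientable hyperbolic 3-manifold. Discreteness is expressed
by proper discontinuity: only finitely many `g ∈ Γ` map a given point into a given ball. -/
structure IsHyperbolicGroup (Γ : Subgroup Lin) : Prop where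
  isometry : ∀ g ∈ Γ, ∀ x y : E4, lor (g x) (g y) = lor x y
  sheet : ∀ g ∈ Γ, ∀ x ∈ Hyp, g x ∈ Hyp
  orientation : ∀ g ∈ Γ, LinearEquiv.det g = 1
  discrete : ∀ x ∈ Hyp, ∀ R : ℝ, {g : Lin | g ∈ Γ ∧ (g x) 0 ≤ R}.Finite
  torsionFree : ∀ g ∈ Γ, ∀ n : ℕ, 0 < n → g ^ n = 1 → g = 1

/-- The hyperbolic volume of a set `A ⊆ ℍ³`: four times the Lebesgue measure of the cone
`{t x : 0 < t ≤ 1, x ∈ A}` (in coordinates `y = t x`, `x ∈ ℍ³`, the Lebesgue measure
is `t³ dt dvol(x)`). -/
noncomputable def hvol (A : Set E4) : ENNReal :=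
  4 * volume {y : E4 | ∃ t : ℝ, 0 < t ∧ t ≤ 1 ∧ ∃ x ∈ A, y = t • x}

/-- `ℍ³/Γ` has finite volume `v`: there is a measurable `A ⊆ ℍ³` of volume `v` whose translates
under `Γ` cover `ℍ³` and overlap in sets of volume `0` only. -/
def HasVolume (Γ : Subgroup Lin) (v : ℝ) : Prop :=
  ∃ A : Set E4, A ⊆ Hyp ∧ MeasurableSet A ∧ (∀ x ∈ Hyp, ∃ g ∈ Γ, g x ∈ A) ∧
    (∀ g ∈ Γ, g ≠ 1 → hvol (A ∩ g '' A) = 0) ∧ hvol A = ENNReal.ofReal v

/-- `ℍ³/Γ` is compact -/
def IsCocompact (Γ : Subgroup Lin) : Prop :=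
  ∃ R : ℝ, ∀ x ∈ Hyp, ∃ g ∈ Γ, (g x) 0 ≤ R

/-- parabolic isometries of `ℍ³`: the unipotent maps different from `1` -/
def IsParabolic (g : Lin) : Prop :=
  g ≠ 1 ∧ ((g : E4 →ₗ[ℝ] E4) - 1) ^ 3 = 0

/-- A choice of one slope on each cusp of `ℍ³/Γ`.

The cusps of `ℍ³/Γ` correspond to the conjugacy classes of the maximal
parabolic subgroups of `Γ` (each is a `ℤ²`, the fundamental group of the cusp torus). Two
parabolic elements lie in the same maximal parabolic subgroup iff they commute. A slope on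
the cusp torus is a primitive element of this `ℤ²` up to inversion. So a tuple of slopes is the
same as a set `S` of primitive parabolic elements of `Γ`, closed under inversion and
conjugation, that contains exactly one pair `σ, σ⁻¹` in each maximal parabolic subgroup. -/
structure IsSlopeSystem (Γ : Subgroup Lin) (S : Set Γ) : Prop where
  parabolic : ∀ σ ∈ S, IsParabolic (σ : Lin)
  primitive : ∀ σ ∈ S, ∀ δ : Γ, ∀ n : ℕ, δ ^ n = σ → n = 1
  inv : ∀ σ ∈ S, σ⁻¹ ∈ S
  conj : ∀ σ ∈ S, ∀ g : Γ, g * σ * g⁻¹ ∈ S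
  exists_slope : ∀ γ : Γ, IsParabolic (γ : Lin) → ∃ σ ∈ S, Commute σ γ
  unique_slope : ∀ σ ∈ S, ∀ τ ∈ S, Commute σ τ → τ = σ ∨ τ = σ⁻¹

/-- `G` is the fundamental group of a closed orientable hyperbolic 3-manifold of volume `v` -/
def IsClosedHyperbolic (G : Type) [Group G] (v : ℝ) : Prop :=
  ∃ Γ' : Subgroup Lin, IsHyperbolicGroup Γ' ∧ IsCocompact Γ' ∧ HasVolume Γ' v ∧
    Nonempty (G ≃* Γ')

/-- The Dehn filling of `ℍ³/Γ` along the slopes `S` is hyperbolic with volume `v`. The fundamental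
group of the Dehn filling is `Γ` modulo the normal subgroup generated by the slopes, and a
closed orientable 3-manifold is hyperbolic of volume `v` iff its fundamental group is
the fundamental group of a closed orientable hyperbolic 3-manifold of volume `v`. -/
def FillingHasVolume (Γ : Subgroup Lin) (S : Set Γ) (v : ℝ) : Prop :=
  IsClosedHyperbolic (Γ ⧸ Subgroup.normalClosure S) v

end EqVol
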