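import Pool.Agent.Lib.MP_d283d5_gt.Spec

section
set_option linter.all false

/-!
# COMPACT: a bounded chamber has finite volume, and the groups are cocompact
-/

noncomputable section

open MeasureTheory

namespace EqVol

namespace Compact

/-- the coordinates of a point of hyperbolic space are bounded by its time coordinate -/
lemma norm_le_of_mem_Hyp {x : E4} (hx : x ∈ Hyp) : ‖x‖ ≤ x 0 := by
  have h0 : 0 < x 0 := hx.2
  have h1 : lor x x = -1 := hx.1
  simp only [lor] at h1
  rw [pi_norm_le_iff_of_nonneg h0.le]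
  intro i
  rw [Real.norm_eq_abs]
  apply abs_le_of_sq_le_sq _ h0.le
  fin_cases i <;> simp <;> nlinarith [sq_nonneg (x 1), sq_nonneg (x 2), sq_nonneg (x 3)]

end Compact

open Compact

theorem specCompact (hCov : SpecCover) : SpecCompact := by
  intro ι _ d f R hR
  constructor
  · rw [hvol]
    refine ENNReal.mul_ne_top (by norm_num) (ne_of_lt ?_)
    refine lt_of_le_of_lt (measure_mono (t := Metric.closedBall (0 : E4) R) ?_)
      measure_closedBall_lt_top
    rintro y ⟨t, ht0, ht1, x, hx, rfl⟩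
    rw [mem_closedBall_zero_iff, norm_smul, Real.norm_eq_abs, abs_of_pos ht0]
    have h1 := norm_le_of_mem_Hyp hx.2
    have h2 := hR x hx
    have h3 : t * ‖x‖ ≤ 1 * ‖x‖ := mul_le_mul_of_nonneg_right ht1 (norm_nonneg _)
    linarith
  · classical
    let g : Multiplicative (Fin 3 → ZMod 2) → d.W :=
      fun c => if h : ∃ w, d.col f w = c then h.choose else 1
    have hg : ∀ w, d.col f (g (d.col f w)) = d.col f w := by
      intro w
      have h : ∃ w', d.col f w' = d.col f w := ⟨w, rfl⟩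
      simp only [g, dif_pos h]
      exact h.choose_spec
    haveI : Fintype (Multiplicative (Fin 3 → ZMod 2)) := Fintype.ofFinite _
    let A : Multiplicative (Fin 3 → ZMod 2) → (E4 →L[ℝ] E4) :=
      fun c => LinearMap.toContinuousLinearMap ((d.rho (g c)⁻¹ : Lin) : E4 →ₗ[ℝ] E4)
    refine ⟨∑ c, ‖A c‖ * |R|, ?_⟩
    intro x hx
    obtain ⟨w, hw⟩ := hCov ι d x hx
    have hy : d.rho w x ∈ d.C ∩ Hyp := ⟨hw, d.rho_mem_Hyp w hx⟩
    refine ⟨d.rho ((g (d.col f w))⁻¹ * w), ⟨_, ?_, rfl⟩, ?_⟩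
    · change _ ∈ (d.col f).ker
      rw [MonoidHom.mem_ker, map_mul, map_inv, hg, inv_mul_cancel]
    · rw [d.rho_mul_apply]
      have h1 : ‖d.rho w x‖ ≤ |R| :=
        (norm_le_of_mem_Hyp hy.2).trans ((hR _ hy).trans (le_abs_self R))
      have h2 : ‖A (d.col f w) (d.rho w x)‖ ≤ ‖A (d.col f w)‖ * |R| :=
        ((A (d.col f w)).le_opNorm _).trans (mul_le_mul_of_nonneg_left h1 (norm_nonneg _))
      have h3 : (d.rho (g (d.col f w))⁻¹ (d.rho w x)) 0 ≤ ‖A (d.col f w) (d.rho w x)‖ :=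
        (le_abs_self _).trans (norm_le_pi_norm (A (d.col f w) (d.rho w x)) 0)
      have h4 : ‖A (d.col f w)‖ * |R| ≤ ∑ c, ‖A c‖ * |R| :=
        Finset.single_le_sum (f := fun c => ‖A c‖ * |R|)
          (fun c _ => mul_nonneg (norm_nonneg _) (abs_nonneg _)) (Finset.mem_univ _)
      exact h3.trans (h2.trans h4)

end EqVol
end
end

section
set_option linter.all false

/-!
# COVER: every point of hyperbolic space can be moved into the chamber
-/

noncomputable section

open MeasureTheory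

namespace EqVol

/-- the time coordinate is bounded by the product with a point of hyperbolic space -/
lemma Hyp.time_le {b : E4} (hb : b ∈ Hyp) :
    ∃ C : ℝ, 0 < C ∧ ∀ y ∈ Hyp, y 0 ≤ C * (-lor y b) := by
  obtain ⟨hb1, hb0⟩ := hb
  set β : ℝ := √(b 0 ^ 2 - 1) with hβ
  have hs : b 1 ^ 2 + b 2 ^ 2 + b 3 ^ 2 = b 0 ^ 2 - 1 := by simp only [lor] at hb1; linarith
  have h0 : 0 ≤ b 0 ^ 2 - 1 := by rw [← hs]; positivity
  have hβ2 : β ^ 2 = b 0 ^ 2 - 1 := Real.sq_sqrt h0
  have hβ0 : 0 ≤ β := Real.sqrt_nonneg _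
  have hlt : β < b 0 := by
    apply lt_of_pow_lt_pow_left₀ 2 hb0.le
    rw [hβ2]; linarith
  refine ⟨1 / (b 0 - β), by apply one_div_pos.2; linarith, ?_⟩
  rintro y ⟨hy1, hy0⟩
  have hy : y 1 ^ 2 + y 2 ^ 2 + y 3 ^ 2 = y 0 ^ 2 - 1 := by simp only [lor] at hy1; linarith
  have h1 : (y 1 * b 1 + y 2 * b 2 + y 3 * b 3) ^ 2 ≤
      (y 1 ^ 2 + y 2 ^ 2 + y 3 ^ 2) * (b 1 ^ 2 + b 2 ^ 2 + b 3 ^ 2) := by
    nlinarith [sq_nonneg (y 1 * b 2 - y 2 * b 1), sq_nonneg (y 1 * b 3 - y 3 * b 1),
      sq_nonneg (y 2 * b 3 - y 3 * b 2)]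
  have h2 : (y 1 * b 1 + y 2 * b 2 + y 3 * b 3) ^ 2 ≤ (y 0 * β) ^ 2 := by
    rw [hy, hs, ← hβ2] at h1
    have : (y 0 ^ 2 - 1) * β ^ 2 ≤ y 0 ^ 2 * β ^ 2 := by nlinarith [sq_nonneg β]
    rw [mul_pow]; linarith
  have h3 : y 1 * b 1 + y 2 * b 2 + y 3 * b 3 ≤ y 0 * β :=
    le_of_abs_le (abs_le_of_sq_le_sq h2 (by positivity))
  have h4 : y 0 * (b 0 - β) ≤ -lor y b := by simp only [lor]; nlinarith
  rw [one_div, ← div_eq_inv_mul, le_div_iff₀ (by linarith)]
  exact h4

theorem specCover (hP : SpecProper) : SpecCover := by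
  intro ι _ d x hx
  obtain ⟨C, hC, hCy⟩ := Hyp.time_le d.base_mem
  set S : Set d.W := {w | -lor (d.rho w x) d.base ≤ -lor x d.base} with hS
  have hfin : S.Finite := by
    apply (hP ι d x hx (C * (-lor x d.base))).subset
    intro w hw
    exact (hCy _ (d.rho_mem_Hyp w hx)).trans (mul_le_mul_of_nonneg_left hw hC.le)
  have hne : S.Nonempty := ⟨1, by change -lor (d.rho 1 x) d.base ≤ _; rw [d.rho_one_apply]⟩
  obtain ⟨w, hw, hmin⟩ := Set.exists_min_image S (fun w => -lor (d.rho w x) d.base) hfin hne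
  refine ⟨w, fun i => ?_⟩
  by_contra hcon
  push Not at hcon
  have h1 : lor (d.rho (d.s i * w) x) d.base =
      lor (d.rho w x) d.base + 2 * lor (d.rho w x) (d.e i) * (-lor d.base (d.e i)) := by
    rw [d.rho_mul_apply, d.rho_s_apply, lor_sub_left, lor_smul_left, lor_comm (d.e i) d.base]
    ring
  have h2 : 0 < 2 * lor (d.rho w x) (d.e i) * (-lor d.base (d.e i)) :=
    mul_pos (by linarith) (by linarith [d.base_neg i])
  have h3 : d.s i * w ∈ S := by
    change -lor (d.rho (d.s i * w) x) d.base ≤ _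
    have : -lor (d.rho w x) d.base ≤ -lor x d.base := hw
    linarith
  have h4 := hmin _ h3
  linarith

end EqVol
end
end

section
set_option linter.all false

/-!
# The stabilisers of the ideal vertices (module CUSP)
-/

noncomputable section

namespace EqVol

/-! ### dihedral groups -/

section Dihedral

variable {G : Type} [Group G]

/-- elements of a dihedral group -/
def Dih (a t x : G) : Prop := ∃ k : ℤ, x = t ^ k ∨ x = t ^ k * a

lemma Dih.one (a t : G) : Dih a t 1 := ⟨0, Or.inl (by simp)⟩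

lemma conj_t {a c : G} (ha : a * a = 1) (hc : c * c = 1) (k : ℤ) :
    a * (a * c) ^ k * a = (a * c) ^ (-k) := by
  have h1 : a⁻¹ = a := by rw [inv_eq_iff_mul_eq_one]; exact ha
  have h2 : c⁻¹ = c := by rw [inv_eq_iff_mul_eq_one]; exact hc
  have h3 : a * (a * c) * a⁻¹ = (a * c)⁻¹ := by
    rw [mul_inv_rev, h1, h2, ← mul_assoc, ha, one_mul]
  calc a * (a * c) ^ k * a = a * (a * c) ^ k * a⁻¹ := by rw [h1]
    _ = (a * (a * c) * a⁻¹) ^ k := by rw [conj_zpow]
    _ = (a * c) ^ (-k) := by rw [h3, inv_zpow, zpow_neg]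

lemma Dih.mul_a {a c x : G} (ha : a * a = 1) (hc : c * c = 1) (h : Dih a (a * c) x) :
    Dih a (a * c) (x * a) := by
  obtain ⟨k, rfl | rfl⟩ := h
  · exact ⟨k, Or.inr rfl⟩
  · exact ⟨k, Or.inl (by rw [mul_assoc, ha, mul_one])⟩

lemma Dih.mul_c {a c x : G} (ha : a * a = 1) (hc : c * c = 1) (h : Dih a (a * c) x) :
    Dih a (a * c) (x * c) := by
  have h2 : c = (a * c)⁻¹ * a := by
    have h2 : c⁻¹ = c := by rw [inv_eq_iff_mul_eq_one]; exact hc
    have h1 : a⁻¹ = a := by rw [inv_eq_iff_mul_eq_one]; exact ha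
    rw [mul_inv_rev, h1, h2, mul_assoc, ha, mul_one]
  obtain ⟨k, rfl | rfl⟩ := h
  · refine ⟨k - 1, Or.inr ?_⟩
    nth_rw 2 [h2]
    rw [← mul_assoc, zpow_sub_one]
  · exact ⟨k + 1, Or.inl (by rw [mul_assoc, zpow_add_one])⟩

/-- conjugation by an element of the dihedral group -/
lemma Dih.conj {a c x : G} (ha : a * a = 1) (hc : c * c = 1) (h : Dih a (a * c) x) (m : ℤ) :
    x * (a * c) ^ m * x⁻¹ = (a * c) ^ m ∨ x * (a * c) ^ m * x⁻¹ = ((a * c) ^ m)⁻¹ := by
  obtain ⟨k, rfl | rfl⟩ := h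
  · left
    rw [← zpow_add, add_comm, zpow_add, mul_inv_cancel_right]
  · right
    have h1 : a⁻¹ = a := by rw [inv_eq_iff_mul_eq_one]; exact ha
    have h3 := conj_t ha hc m
    calc (a * c) ^ k * a * (a * c) ^ m * ((a * c) ^ k * a)⁻¹
        = (a * c) ^ k * (a * (a * c) ^ m * a) * ((a * c) ^ k)⁻¹ := by
          rw [mul_inv_rev, h1]; group
      _ = (a * c) ^ k * (a * c) ^ (-m) * ((a * c) ^ k)⁻¹ := by rw [h3]
      _ = ((a * c) ^ m)⁻¹ := by
          rw [← zpow_add, add_comm, zpow_add, mul_inv_cancel_right, zpow_neg]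

end Dihedral

lemma tA_tB (j : Fin 15) : Commute (tA j) (tB j) := by
  have h1 := dP.s_comm (va_vb j)
  have h2 := dP.s_comm (va_vd j)
  have h3 := dP.s_comm (vc_vb j)
  have h4 := dP.s_comm (vc_vd j)
  have e1 : Commute (dP.s (va j)) (tB j) := Commute.mul_right h1 h2
  have e2 : Commute (dP.s (vc j)) (tB j) := Commute.mul_right h3 h4
  exact Commute.mul_left e1 e2

lemma sa_tB (j : Fin 15) : Commute (dP.s (va j)) (tB j) :=
  Commute.mul_right (dP.s_comm (va_vb j)) (dP.s_comm (va_vd j))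

lemma sc_tB (j : Fin 15) : Commute (dP.s (vc j)) (tB j) :=
  Commute.mul_right (dP.s_comm (vc_vb j)) (dP.s_comm (vc_vd j))

lemma sb_tA (j : Fin 15) : Commute (dP.s (vb j)) (tA j) :=
  Commute.mul_right (dP.s_comm (va_vb j)).symm (dP.s_comm (vc_vb j)).symm

lemma dih_commute {a t x y : dP.W} (h : Dih a t y) (h1 : Commute x t) (h2 : Commute x a) :
    Commute x y := by
  obtain ⟨k, rfl | rfl⟩ := h
  · exact h1.zpow_right k
  · exact (h1.zpow_right k).mul_right h2

/-- the elements of the stabiliser of an ideal vertex -/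
lemma stab_form (tits : SpecTits) (j : Fin 15) (g : dP.W) (hg : dP.rho g (pV j) = pV j) :
    ∃ x y : dP.W, Dih (dP.s (va j)) (tA j) x ∧ Dih (dP.s (vb j)) (tB j) y ∧ g = x * y := by
  have h1 := ((tits _ dP).2.1 g (pV j) (pV_mem_C j) (by rw [hg]; exact pV_mem_C j)).2
  have h2 : dP.s '' {i | lor (pV j) (dP.e i) = 0} =
      {dP.s (va j), dP.s (vc j), dP.s (vb j), dP.s (vd j)} := by
    have : {i | lor (pV j) (dP.e i) = 0} = {va j, vc j, vb j, vd j} := by
      ext i
      simp only [Set.mem_setOf_eq, pV_orth, Set.mem_insert_iff, Set.mem_singleton_iff]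
    rw [this]
    simp only [Set.image_insert_eq, Set.image_singleton]
  rw [h2] at h1
  have hstep : ∀ z ∈ ({dP.s (va j), dP.s (vc j), dP.s (vb j), dP.s (vd j)} : Set dP.W),
      ∀ g : dP.W, (∃ x y : dP.W, Dih (dP.s (va j)) (tA j) x ∧ Dih (dP.s (vb j)) (tB j) y ∧
        g = x * y) →
      ∃ x y : dP.W, Dih (dP.s (va j)) (tA j) x ∧ Dih (dP.s (vb j)) (tB j) y ∧ g * z = x * y := by
    rintro z hz g ⟨x, y, hx, hy, rfl⟩
    have ca : Commute (dP.s (va j)) y := dih_commute hy (sa_tB j) (dP.s_comm (va_vb j))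
    have cc : Commute (dP.s (vc j)) y := dih_commute hy (sc_tB j) (dP.s_comm (vc_vb j))
    rcases hz with rfl | rfl | rfl | rfl
    · exact ⟨x * dP.s (va j), y, hx.mul_a (dP.s_mul_self _) (dP.s_mul_self _), hy, by
        rw [mul_assoc, mul_assoc, ca.eq]⟩
    · exact ⟨x * dP.s (vc j), y, hx.mul_c (dP.s_mul_self _) (dP.s_mul_self _), hy, by
        rw [mul_assoc, mul_assoc, cc.eq]⟩
    · exact ⟨x, y * dP.s (vb j), hx, hy.mul_a (dP.s_mul_self _) (dP.s_mul_self _), by
        rw [mul_assoc]⟩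
    · exact ⟨x, y * dP.s (vd j), hx, hy.mul_c (dP.s_mul_self _) (dP.s_mul_self _), by
        rw [mul_assoc]⟩
  refine Subgroup.closure_induction_right (p := fun g _ => ∃ x y : dP.W,
    Dih (dP.s (va j)) (tA j) x ∧ Dih (dP.s (vb j)) (tB j) y ∧ g = x * y) ?_ ?_ ?_ h1
  · exact ⟨1, 1, Dih.one _ _, Dih.one _ _, (mul_one _).symm⟩
  · intro x _ y hy hx
    exact hstep y hy x hx
  · intro x _ y hy hx
    have : y⁻¹ = y := by
      rcases hy with rfl | rfl | rfl | rfl <;> exact dP.s_inv _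
    rw [this]
    exact hstep y hy x hx

/-! ### colours -/

lemma zpow_of_sq {G : Type} [Group G] {u : G} (h : u * u = 1) (k : ℤ) : u ^ k = 1 ∨ u ^ k = u := by
  have h2 : u ^ (2 : ℤ) = 1 := by rw [zpow_two]; exact h
  rcases Int.even_or_odd' k with ⟨m, hm | hm⟩
  · left
    rw [hm, zpow_mul, h2, one_zpow]
  · right
    rw [hm, zpow_add, zpow_mul, h2, one_zpow, one_mul, zpow_one]

lemma mul_self_col (u : Multiplicative (Fin 3 → ZMod 2)) : u * u = 1 := by
  revert u
  decide

lemma col_tA (j : Fin 15) : dP.col fP (tA j) = Multiplicative.ofAdd (fP (va j) + fP (vc j)) := by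
  rw [tA, map_mul, Datum.col_s, Datum.col_s]; rfl

lemma col_tB (j : Fin 15) : dP.col fP (tB j) = Multiplicative.ofAdd (fP (vb j) + fP (vd j)) := by
  rw [tB, map_mul, Datum.col_s, Datum.col_s]; rfl

lemma cusp1 (tits : SpecTits) (j : Fin 15) (g : dP.W) (hK : g ∈ dP.K fP)
    (hg : dP.rho g (pV j) = pV j) : ∃ k l : ℤ, g = tA j ^ k * tB j ^ l := by
  obtain ⟨x, y, ⟨k, hx⟩, ⟨l, hy⟩, rfl⟩ := stab_form tits j g hg
  have hc : dP.col fP (x * y) = 1 := hK
  have hk := zpow_of_sq (mul_self_col (dP.col fP (tA j))) k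
  have hl := zpow_of_sq (mul_self_col (dP.col fP (tB j))) l
  rw [col_tA] at hk
  rw [col_tB] at hl
  rcases hx with rfl | rfl <;> rcases hy with rfl | rfl
  · exact ⟨k, l, rfl⟩
  · exfalso
    simp only [map_mul, map_zpow, col_tA, col_tB, Datum.col_s] at hc
    rcases hk with hk | hk <;> rcases hl with hl | hl <;> rw [hk, hl] at hc <;>
      (refine absurd hc ?_; clear * - j; revert j; decide)
  · exfalso
    simp only [map_mul, map_zpow, col_tA, col_tB, Datum.col_s] at hc
    rcases hk with hk | hk <;> rcases hl with hl | hl <;> rw [hk, hl] at hc <;>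
      (refine absurd hc ?_; clear * - j; revert j; decide)
  · exfalso
    simp only [map_mul, map_zpow, col_tA, col_tB, Datum.col_s] at hc
    rcases hk with hk | hk <;> rcases hl with hl | hl <;> rw [hk, hl] at hc <;>
      (refine absurd hc ?_; clear * - j; revert j; decide)

/-! ### translations -/

/-- parabolic translation by `u` at the null vector `p` -/
def tau (p u x : E4) : E4 :=
  x + lor x p • u - lor x u • p - (1 / 2 * lor u u * lor x p) • p

lemma tau_zero (p x : E4) : tau p 0 x = x := by simp [tau]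

lemma tau_tau {p u v : E4} (hp : lor p p = 0) (hu : lor u p = 0) (hv : lor v p = 0) (x : E4) :
    tau p u (tau p v x) = tau p (u + v) x := by
  have hu' : lor p u = 0 := by rw [lor_comm]; exact hu
  have hv' : lor p v = 0 := by rw [lor_comm]; exact hv
  simp only [tau, lor_add_left, lor_add_right, lor_sub_left, lor_smul_left, hp, hu, hv, hu', hv',
    lor_comm v u]
  module

lemma tau_p {p u : E4} (hp : lor p p = 0) (hu : lor u p = 0) : tau p u p = p := by
  have hu' : lor p u = 0 := by rw [lor_comm]; exact hu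
  simp [tau, hp, hu']

/-- the product of the reflections in `e` and `p - e` -/
lemma refl_refl_eq {e e' p : E4} (he : lor e e = 1) (he' : lor e' e' = 1) (hp : p = e + e')
    (h : lor e e' = -1) (x : E4) :
    refl e he (refl e' he' x) = tau p ((-2 : ℝ) • e) x := by
  have h2 : e' = p - e := by rw [hp]; abel
  have h3 : lor x p = lor x e + lor x e' := by rw [hp, lor_add_right]
  have h4 : lor e' e = -1 := by rw [lor_comm]; exact h
  simp only [refl_apply, tau, lor_sub_left, lor_smul_left, lor_smul_right, h3, he, h4]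
  rw [h2]
  module

/-- the factor between the two null vectors at an ideal vertex -/
def bn : Fin 15 → ℕ := ![4, 1, 2, 2, 2, 1, 1, 1, 2, 2, 1, 1, 1, 1, 1]
def bm : Fin 15 → ℕ := ![1, 1, 1, 1, 1, 1, 1, 2, 1, 1, 1, 1, 1, 1, 1]

def beta (j : Fin 15) : ℝ := bm j / bn j

lemma beta_ne (j : Fin 15) : beta j ≠ 0 := by
  have h1 : ∀ j, bm j ≠ 0 ∧ bn j ≠ 0 := by decide
  have h2 : (bm j : ℝ) ≠ 0 := by exact_mod_cast (h1 j).1
  have h3 : (bn j : ℝ) ≠ 0 := by exact_mod_cast (h1 j).2
  exact div_ne_zero h2 h3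

lemma eb_ed (j : Fin 15) : dP.e (vb j) + dP.e (vd j) = beta j • pV j := by
  have h1 : ∀ (j : Fin 15) (k : Fin 4), (bn j : ℤ) * (eP (vb j) k + eP (vd j) k) =
      bm j * pZ j k := by decide
  have h2 : ∀ j, bn j ≠ 0 := by decide
  have h3 : (bn j : ℝ) ≠ 0 := by exact_mod_cast h2 j
  funext k
  rw [pV_eq]
  simp only [Pi.add_apply, Pi.smul_apply, smul_eq_mul, beta]
  change ((eP (vb j) k : ℤ) : ℝ) + ((eP (vd j) k : ℤ) : ℝ) = bm j / bn j * ((pZ j k : ℤ) : ℝ)
  have h4 : (bn j : ℝ) * ((eP (vb j) k : ℝ) + (eP (vd j) k : ℝ)) = bm j * (pZ j k : ℝ) := by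
    exact_mod_cast h1 j k
  field_simp
  linarith

/-- the translation vector of `tA ^ k * tB ^ l` -/
def uV (j : Fin 15) (k l : ℝ) : E4 := (-2 * k) • dP.e (va j) + (-2 * l * beta j) • dP.e (vb j)

lemma ea_p (j : Fin 15) : lor (dP.e (va j)) (pV j) = 0 := by
  rw [pV, lor_add_right, dP.norm, va_vc]; norm_num

lemma eb_p (j : Fin 15) : lor (dP.e (vb j)) (pV j) = 0 := by
  rw [lor_comm, pV_orth]; exact Or.inr (Or.inr (Or.inl rfl))

lemma uV_p (j : Fin 15) (k l : ℝ) : lor (uV j k l) (pV j) = 0 := by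
  rw [uV, lor_add_left, lor_smul_left, lor_smul_left, ea_p, eb_p]; ring

lemma uV_add (j : Fin 15) (k l k' l' : ℝ) : uV j k l + uV j k' l' = uV j (k + k') (l + l') := by
  simp only [uV]; module

lemma uV_ea (j : Fin 15) (k l : ℝ) : lor (uV j k l) (dP.e (va j)) = -2 * k := by
  rw [uV, lor_add_left, lor_smul_left, lor_smul_left, dP.norm, lor_comm (dP.e (vb j)), va_vb]; ring

lemma uV_eb (j : Fin 15) (k l : ℝ) : lor (uV j k l) (dP.e (vb j)) = -2 * l * beta j := by
  rw [uV, lor_add_left, lor_smul_left, lor_smul_left, dP.norm, va_vb]; ring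

lemma rho_tA (j : Fin 15) (x : E4) : dP.rho (tA j) x = tau (pV j) (uV j 1 0) x := by
  rw [tA, dP.rho_mul_apply, dP.rho_s, dP.rho_s, refl_refl_eq _ _ rfl (va_vc j)]
  congr 1
  simp [uV]

lemma rho_tB (j : Fin 15) (x : E4) : dP.rho (tB j) x = tau (pV j) (uV j 0 1) x := by
  rw [tB, dP.rho_mul_apply, dP.rho_s, dP.rho_s, refl_refl_eq _ _ rfl (vb_vd j), eb_ed]
  have : uV j 0 1 = beta j • ((-2 : ℝ) • dP.e (vb j)) := by
    simp only [uV]; module
  rw [this]
  simp only [tau, lor_smul_left, lor_smul_right]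
  module

lemma rho_zpow {j : Fin 15} {t : dP.W} {a b : ℝ} (h : ∀ x, dP.rho t x = tau (pV j) (uV j a b) x)
    (k : ℤ) (x : E4) : dP.rho (t ^ k) x = tau (pV j) (uV j (k * a) (k * b)) x := by
  have hinv : ∀ x, dP.rho t⁻¹ x = tau (pV j) (uV j (-a) (-b)) x := by
    intro x
    have h1 : x = dP.rho t (tau (pV j) (uV j (-a) (-b)) x) := by
      rw [h, tau_tau (pV_null j) (uV_p _ _ _) (uV_p _ _ _), uV_add]
      have : uV j (a + -a) (b + -b) = 0 := by simp [uV]
      rw [this, tau_zero]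
    nth_rw 1 [h1]
    rw [dP.rho_inv_apply]
  induction k using Int.induction_on generalizing x with
  | zero =>
    rw [zpow_zero, dP.rho_one_apply]
    have : uV j (((0 : ℤ) : ℝ) * a) (((0 : ℤ) : ℝ) * b) = 0 := by simp [uV]
    rw [this, tau_zero]
  | succ k ih =>
    rw [zpow_add_one, dP.rho_mul_apply, h, ih, tau_tau (pV_null j) (uV_p _ _ _) (uV_p _ _ _), uV_add]
    congr 2
    · push_cast; ring
    · push_cast; ring
  | pred k ih =>
    rw [zpow_sub_one, dP.rho_mul_apply, hinv, ih, tau_tau (pV_null j) (uV_p _ _ _) (uV_p _ _ _),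
      uV_add]
    congr 2
    · push_cast; ring
    · push_cast; ring

lemma rho_tAtB (j : Fin 15) (k l : ℤ) (x : E4) :
    dP.rho (tA j ^ k * tB j ^ l) x = tau (pV j) (uV j k l) x := by
  rw [dP.rho_mul_apply, rho_zpow (rho_tB j), rho_zpow (rho_tA j),
    tau_tau (pV_null j) (uV_p _ _ _) (uV_p _ _ _), uV_add]
  congr 2 <;> ring

/-- a translation with nonzero vector is not the identity -/
lemma tau_ne (j : Fin 15) {k l : ℝ} (h : ∀ x, tau (pV j) (uV j k l) x = x) : k = 0 ∧ l = 0 := by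
  have h1 := h dP.base
  have h2 : lor dP.base (pV j) ≠ 0 := by
    rw [pV, lor_add_right]
    have e1 := dP.base_neg (va j)
    have e2 := dP.base_neg (vc j)
    intro h; linarith
  have h3 : lor dP.base (pV j) • uV j k l =
      (lor dP.base (uV j k l) + 1 / 2 * lor (uV j k l) (uV j k l) * lor dP.base (pV j)) • pV j := by
    have h4 : lor dP.base (pV j) • uV j k l - (lor dP.base (uV j k l) +
        1 / 2 * lor (uV j k l) (uV j k l) * lor dP.base (pV j)) • pV j =
        tau (pV j) (uV j k l) dP.base - dP.base := by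
      simp only [tau]; module
    rw [h1, sub_self] at h4
    exact sub_eq_zero.1 h4
  constructor
  · have h5 := congrArg (fun v => lor v (dP.e (va j))) h3
    simp only [lor_smul_left, uV_ea, lor_comm (pV j), ea_p] at h5
    have : lor dP.base (pV j) * k = 0 := by linarith
    exact (mul_eq_zero.1 this).resolve_left h2
  · have h5 := congrArg (fun v => lor v (dP.e (vb j))) h3
    simp only [lor_smul_left, uV_eb, lor_comm (pV j), eb_p] at h5
    have h6 : lor dP.base (pV j) * (l * beta j) = 0 := by linarith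
    exact (mul_eq_zero.1 ((mul_eq_zero.1 h6).resolve_left h2)).resolve_right (beta_ne j)

lemma cusp2 (j : Fin 15) (k l : ℤ) : dP.rho (tA j ^ k * tB j ^ l) (pV j) = pV j ∧
    (¬ (k = 0 ∧ l = 0) → IsParabolic (dP.rho (tA j ^ k * tB j ^ l))) := by
  refine ⟨by rw [rho_tAtB, tau_p (pV_null j) (uV_p _ _ _)], fun hkl => ⟨?_, ?_⟩⟩
  · intro h
    apply hkl
    have h1 : ∀ x, tau (pV j) (uV j k l) x = x := by
      intro x
      rw [← rho_tAtB, h]; rfl
    obtain ⟨h2, h3⟩ := tau_ne j h1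
    exact ⟨by exact_mod_cast h2, by exact_mod_cast h3⟩
  · have h1 : ∀ x, ((dP.rho (tA j ^ k * tB j ^ l) : E4 →ₗ[ℝ] E4) - 1) x =
        lor x (pV j) • uV j k l - (lor x (uV j k l) +
          1 / 2 * lor (uV j k l) (uV j k l) * lor x (pV j)) • pV j := by
      intro x
      change dP.rho (tA j ^ k * tB j ^ l) x - x = _
      rw [rho_tAtB]
      simp only [tau]; module
    have hp := pV_null j
    have hu := uV_p j k l
    have hu' : lor (pV j) (uV j k l) = 0 := by rw [lor_comm]; exact hu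
    apply LinearMap.ext
    intro x
    rw [pow_succ, pow_two]
    simp only [Module.End.mul_apply, h1, lor_sub_left, lor_smul_left, hp, hu, hu',
      LinearMap.zero_apply]
    module

lemma cusp4 (tits : SpecTits) (j : Fin 15) (k l k' l' : ℤ)
    (h : tA j ^ k * tB j ^ l = tA j ^ k' * tB j ^ l') : k = k' ∧ l = l' := by
  have h1 : ∀ x, tau (pV j) (uV j (k - k') (l - l')) x = x := by
    intro x
    have h2 : ∀ y, tau (pV j) (uV j k l) y = tau (pV j) (uV j k' l') y := by
      intro y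
      rw [← rho_tAtB, ← rho_tAtB, h]
    have h3 : tau (pV j) (uV j (-k') (-l')) (tau (pV j) (uV j k l) x) =
        tau (pV j) (uV j (-k') (-l')) (tau (pV j) (uV j k' l') x) := by rw [h2]
    rw [tau_tau (pV_null j) (uV_p _ _ _) (uV_p _ _ _), uV_add,
      tau_tau (pV_null j) (uV_p _ _ _) (uV_p _ _ _), uV_add] at h3
    have e1 : uV j (-(k':ℝ) + k') (-(l':ℝ) + l') = 0 := by simp [uV]
    rw [e1, tau_zero] at h3
    rw [← h3]
    congr 2 <;> ring
  obtain ⟨h2, h3⟩ := tau_ne j h1
  refine ⟨?_, ?_⟩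
  · have : (k : ℝ) = k' := by linarith
    exact_mod_cast this
  · have : (l : ℝ) = l' := by linarith
    exact_mod_cast this

lemma cusp5 (tits : SpecTits) (j : Fin 15) (g : dP.W) (hg : dP.rho g (pV j) = pV j) :
    g * rel j * g⁻¹ = rel j ∨ g * rel j * g⁻¹ = (rel j)⁻¹ := by
  obtain ⟨x, y, hx, hy, rfl⟩ := stab_form tits j g hg
  have hc : Commute y (tA j) := by
    have e1 : Commute (tA j) (tB j) := tA_tB j
    exact (dih_commute hy e1 (sb_tA j).symm).symm
  have hc2 : y * rel j * y⁻¹ = rel j := by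
    have : Commute y (rel j) := hc.pow_right _
    rw [this.eq, mul_inv_cancel_right]
  have h1 : x * y * rel j * (x * y)⁻¹ = x * rel j * x⁻¹ := by
    calc x * y * rel j * (x * y)⁻¹ = x * (y * rel j * y⁻¹) * x⁻¹ := by group
      _ = x * rel j * x⁻¹ := by rw [hc2]
  rw [h1]
  have h2 := hx.conj (dP.s_mul_self _) (dP.s_mul_self _) (vm j : ℤ)
  simp only [zpow_natCast] at h2
  exact h2

lemma mem_K {g : dP.W} : g ∈ dP.K fP ↔ dP.col fP g = 1 := Iff.rfl

lemma rho_s_p (j : Fin 15) (i : Fin 17) (h : i = va j ∨ i = vc j ∨ i = vb j ∨ i = vd j) :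
    dP.rho (dP.s i) (pV j) = pV j := by
  rw [dP.rho_s_apply, (pV_orth j i).2 h]
  simp

lemma cusp6 (g : dP.W) : ∃ h : dP.W, dP.rho h (pV 1) = pV 1 ∧ g * h⁻¹ ∈ dP.K fP := by
  have key : ∀ c : Fin 3 → ZMod 2, ∃ h : dP.W, dP.rho h (pV 1) = pV 1 ∧
      dP.col fP h = Multiplicative.ofAdd c := by
    intro c
    have hz : ∀ (z : ZMod 2) (i : Fin 17), (i = va 1 ∨ i = vc 1 ∨ i = vb 1 ∨ i = vd 1) →
        ∃ h : dP.W, dP.rho h (pV 1) = pV 1 ∧ dP.col fP h = Multiplicative.ofAdd (z • fP i) := by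
      intro z i hi
      have hz2 : ∀ z : ZMod 2, z = 0 ∨ z = 1 := by decide
      rcases hz2 z with rfl | rfl
      · exact ⟨1, dP.rho_one_apply _, by rw [map_one, zero_smul]; rfl⟩
      · exact ⟨dP.s i, rho_s_p 1 i hi, by rw [Datum.col_s, one_smul]⟩
    obtain ⟨h0, a0, b0⟩ := hz (c 0) 0 (by decide)
    obtain ⟨h1, a1, b1⟩ := hz (c 1) 7 (by decide)
    obtain ⟨h2, a2, b2⟩ := hz (c 2) 9 (by decide)
    refine ⟨h0 * h1 * h2, ?_, ?_⟩
    · rw [dP.rho_mul_apply, dP.rho_mul_apply, a2, a1, a0]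
    · rw [map_mul, map_mul, b0, b1, b2, ← ofAdd_add, ← ofAdd_add]
      have hc : ∀ c : Fin 3 → ZMod 2, c 0 • fP 0 + c 1 • fP 7 + c 2 • fP 9 = c := by decide
      rw [hc c]
  obtain ⟨h, h1, h2⟩ := key (Multiplicative.toAdd (dP.col fP g))
  refine ⟨h, h1, ?_⟩
  rw [mem_K, map_mul, map_inv, h2, ofAdd_toAdd, mul_inv_cancel]

lemma cusp7 (j : Fin 15) : rel j ∈ dP.K fP := by
  rw [mem_K, rel, map_pow, col_tA]
  revert j
  decide

lemma cusp7' (k : ℤ) : tA 1 * tB 1 ^ (2 * k) ∈ dP.K fP := by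
  have h : dP.col fP (tB 1) ^ (2 : ℤ) = 1 := by
    rw [zpow_two]; exact mul_self_col _
  rw [mem_K, map_mul, map_zpow, zpow_mul, h, one_zpow, mul_one, col_tA]
  decide

lemma cusp8 (j : Fin 15) (k : ℤ) (hk : tA j ^ k ∈ dP.K fP) : ∃ m : ℤ, tA j ^ k = rel j ^ m := by
  have hm : ∀ j : Fin 15, vm j = 1 ∨ (vm j = 2 ∧
      Multiplicative.ofAdd (fP (va j) + fP (vc j)) ≠ 1) := by decide
  rcases hm j with h | ⟨h, h'⟩
  · exact ⟨k, by rw [rel, h, pow_one]⟩
  · rcases Int.even_or_odd' k with ⟨m, hm | hm⟩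
    · refine ⟨m, ?_⟩
      rw [rel, h, hm, zpow_mul, zpow_ofNat]
    · exfalso
      apply h'
      rw [mem_K, map_zpow, hm, zpow_add, zpow_mul, zpow_two, mul_self_col, one_zpow, one_mul,
        zpow_one, col_tA] at hk
      exact hk

/-- module CUSP -/
theorem specCusp (tits : SpecTits) : SpecCusp :=
  ⟨cusp1 tits, cusp2, tA_tB, cusp4 tits, cusp5 tits, cusp6, cusp7, cusp7', cusp8⟩

end EqVol
end
end

section
set_option linter.all false

/-!
# DCOMP: the chamber of `D` is bounded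
-/

noncomputable section

namespace EqVol

namespace Dcomp

lemma face {x : E4} (h : x ∈ dD.C) (i : Fin 12) :
    x 1 * castG (uZ i 0) + x 2 * castG (uZ i 1) + x 3 * castG (uZ i 2) ≤ x 0 * √gr := by
  have h1 : lor x (eD i) ≤ 0 := h i
  have h2 : (0 : ℝ) < √2 := Real.sqrt_pos.2 (by norm_num)
  have h3 : lor x (eD i) * √2 =
      x 1 * castG (uZ i 0) + x 2 * castG (uZ i 1) + x 3 * castG (uZ i 2) - x 0 * √gr := by
    simp only [lor, eD, Matrix.cons_val_zero, Matrix.cons_val_one, Matrix.cons_val]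
    field_simp
    ring
  have h4 : lor x (eD i) * √2 ≤ 0 := mul_nonpos_of_nonpos_of_nonneg h1 h2.le
  rw [h3] at h4
  linarith

lemma bound {a b c M g : ℝ} (ha : 0 ≤ a) (hb : 0 ≤ b) (hc : 0 ≤ c)
    (h1 : a + g * b ≤ M) (h2 : b + g * c ≤ M) (h3 : c + g * a ≤ M) :
    (2 * g - 1) * (a ^ 2 + b ^ 2 + c ^ 2) ≤ M ^ 2 := by
  have e1 : 0 ≤ b * (M - (a + g * b)) := mul_nonneg hb (by linarith)
  have e2 : 0 ≤ c * (M - (b + g * c)) := mul_nonneg hc (by linarith)
  have e3 : 0 ≤ a * (M - (c + g * a)) := mul_nonneg ha (by linarith)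
  nlinarith [sq_nonneg (M - (a + b + c))]

end Dcomp

open Dcomp in
theorem specDcomp : SpecDcomp := by
  refine ⟨2, fun x hx => ?_⟩
  obtain ⟨hC, hH, hx0⟩ := hx
  obtain ⟨M, hM⟩ : ∃ M, M = x 0 * √gr := ⟨_, rfl⟩
  have F : ∀ i, x 1 * castG (uZ i 0) + x 2 * castG (uZ i 1) + x 3 * castG (uZ i 2) ≤ M := by
    intro i; rw [hM]; exact face hC i
  have hs : √gr * √gr = gr := Real.mul_self_sqrt gr_pos.le
  have hg2 := gr_sq
  have hg0 := gr_pos
  have hg1 := one_lt_gr
  have hM2 : M ^ 2 = gr * x 0 ^ 2 := by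
    rw [hM]
    calc (x 0 * √gr) ^ 2 = (√gr * √gr) * x 0 ^ 2 := by ring
      _ = gr * x 0 ^ 2 := by rw [hs]
  clear hM hs
  simp only [castG] at F
  generalize gr = g at F hg2 hg0 hg1 hM2
  have f0 := F 0
  have f1 := F 1
  have f2 := F 2
  have f3 := F 3
  have f4 := F 4
  have f5 := F 5
  have f6 := F 6
  have f7 := F 7
  have f8 := F 8
  have f9 := F 9
  have f10 := F 10
  have f11 := F 11
  clear F
  simp [uZ] at f0 f1 f2 f3 f4 f5 f6 f7 f8 f9 f10 f11
  have k1 : |x 1| + g * |x 2| ≤ M := by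
    rcases abs_cases (x 1) with ⟨h, _⟩ | ⟨h, _⟩ <;> rcases abs_cases (x 2) with ⟨h', _⟩ | ⟨h', _⟩ <;>
      rw [h, h'] <;> linarith
  have k2 : |x 2| + g * |x 3| ≤ M := by
    rcases abs_cases (x 2) with ⟨h, _⟩ | ⟨h, _⟩ <;> rcases abs_cases (x 3) with ⟨h', _⟩ | ⟨h', _⟩ <;>
      rw [h, h'] <;> linarith
  have k3 : |x 3| + g * |x 1| ≤ M := by
    rcases abs_cases (x 3) with ⟨h, _⟩ | ⟨h, _⟩ <;> rcases abs_cases (x 1) with ⟨h', _⟩ | ⟨h', _⟩ <;>
      rw [h, h'] <;> linarith
  have hb := bound (abs_nonneg _) (abs_nonneg _) (abs_nonneg _) k1 k2 k3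
  rw [sq_abs, sq_abs, sq_abs, hM2] at hb
  have hQ : x 0 ^ 2 = 1 + (x 1 ^ 2 + x 2 ^ 2 + x 3 ^ 2) := by
    simp only [lor] at hH
    nlinarith
  have hg3 : 3 / 2 ≤ g := by
    by_contra hc
    push Not at hc
    nlinarith
  have h5 : (g - 1) * x 0 ^ 2 ≤ 2 * g - 1 := by nlinarith
  have h6 : x 0 ^ 2 ≤ 4 := by
    by_contra hc
    push Not at hc
    nlinarith
  nlinarith

end EqVol
end
end

section
set_option linter.all false

/-!
# FREE: the kernel of a good colouring is torsion-free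
-/

noncomputable section

open MeasureTheory

namespace EqVol

/-! ### determinants -/

/-- the determinant of a reflection -/
lemma det_refl (v : E4) (hv : lor v v = 1) : LinearEquiv.det (refl v hv) = -1 := by
  have h1 : LinearMap.det (reflLin v) = -1 := by
    rw [← LinearMap.det_toMatrix (Pi.basisFun ℝ (Fin 4))]
    have h2 : LinearMap.toMatrix (Pi.basisFun ℝ (Fin 4)) (Pi.basisFun ℝ (Fin 4)) (reflLin v) =
        1 - Matrix.replicateCol Unit v *
          Matrix.replicateRow Unit (fun j => 2 * lor (Pi.single j 1) v) := by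
      ext i j
      rw [LinearMap.toMatrix_apply, Pi.basisFun_repr, Pi.basisFun_apply, reflLin_apply]
      simp only [Matrix.sub_apply, Matrix.mul_apply, Matrix.replicateCol_apply,
        Matrix.replicateRow_apply, Finset.univ_unique, Finset.sum_singleton, Pi.sub_apply,
        Pi.smul_apply, smul_eq_mul, Matrix.one_apply, Pi.single_apply]
      ring
    rw [h2, Matrix.det_one_sub_mul_comm, Matrix.det_unique]
    simp only [Matrix.sub_apply, Matrix.mul_apply, Matrix.one_apply_eq,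
      Matrix.replicateCol_apply, Matrix.replicateRow_apply]
    have h3 : ∑ x : Fin 4, 2 * lor (Pi.single x 1) v * v x = 2 * lor v v := by
      simp only [Fin.sum_univ_four, lor, Pi.single_apply]
      simp
      ring
    rw [h3, hv]; norm_num
  ext
  rw [LinearEquiv.coe_det]
  exact h1

namespace Datum

variable {ι : Type} (d : Datum ι)

/-- the sum of the coordinates of the colour -/
def csum (f : ι → Fin 3 → ZMod 2) (w : d.W) : ZMod 2 :=
  Multiplicative.toAdd (d.col f w) 0 + Multiplicative.toAdd (d.col f w) 1 +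
    Multiplicative.toAdd (d.col f w) 2

/-- the parity of an element is visible in its colour -/
lemma det_rho (f : ι → Fin 3 → ZMod 2) (hf : ∀ i, f i 0 + f i 1 + f i 2 = 1) (w : d.W) :
    (d.csum f w = 0 ∧ LinearEquiv.det (d.rho w) = 1) ∨
      (d.csum f w = 1 ∧ LinearEquiv.det (d.rho w) = -1) := by
  induction w using d.induct with
  | one =>
    left
    rw [csum, map_one (d.col f), map_one d.rho, map_one LinearEquiv.det]
    simp
  | mul w i ih =>
    have e : d.csum f (w * d.s i) = d.csum f w + 1 := by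
      rw [csum, map_mul, col_s, toAdd_mul, toAdd_ofAdd, csum, ← hf i]
      simp only [Pi.add_apply]
      ring
    rw [e, map_mul, map_mul, rho_s, det_refl]
    rcases ih with ⟨h1, h2⟩ | ⟨h1, h2⟩
    · right
      rw [h1, h2]
      simp
    · left
      rw [h1, h2]
      constructor
      · decide
      · simp

/-- elements of a subgroup generated by commuting generators -/
lemma exists_list (I : Set ι) (hI : ∀ i ∈ I, ∀ j ∈ I, i ≠ j → lor (d.e i) (d.e j) = 0) (w : d.W)
    (hw : w ∈ Subgroup.closure (d.s '' I)) :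
    ∃ l : List ι, l.Nodup ∧ (∀ i ∈ l, i ∈ I) ∧ w = (l.map d.s).prod := by
  classical
  have key : ∀ i ∈ I, ∀ w : d.W, (∃ l : List ι, l.Nodup ∧ (∀ i ∈ l, i ∈ I) ∧ w = (l.map d.s).prod) →
      ∃ l : List ι, l.Nodup ∧ (∀ i ∈ l, i ∈ I) ∧ d.s i * w = (l.map d.s).prod := by
    rintro i hi w ⟨l, hl, hlI, rfl⟩
    by_cases hil : i ∈ l
    · refine ⟨l.erase i, hl.erase i, fun j hj => hlI j (List.mem_of_mem_erase hj), ?_⟩
      have hp : l.Perm (i :: l.erase i) := List.perm_cons_erase hil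
      have hc : (l.map d.s).Pairwise Commute := by
        rw [List.pairwise_map]
        refine hl.pairwise_of_forall_ne ?_
        intro a ha b hb hab
        exact d.s_comm (hI a (hlI a ha) b (hlI b hb) hab)
      have h1 : (l.map d.s).prod = ((i :: l.erase i).map d.s).prod :=
        List.Perm.prod_eq' (hp.map d.s) hc
      rw [h1, List.map_cons, List.prod_cons, ← mul_assoc, d.s_mul_self, one_mul]
    · refine ⟨i :: l, List.nodup_cons.2 ⟨hil, hl⟩, ?_, by rw [List.map_cons, List.prod_cons]⟩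
      intro j hj
      rcases List.mem_cons.1 hj with rfl | hj
      · exact hi
      · exact hlI j hj
  induction hw using Subgroup.closure_induction_left with
  | one => exact ⟨[], List.nodup_nil, by simp, by simp⟩
  | mul_left x hx y hy ih =>
    obtain ⟨i, hi, rfl⟩ := hx
    exact key i hi y ih
  | inv_mul_cancel x hx y hy ih =>
    obtain ⟨i, hi, rfl⟩ := hx
    rw [d.s_inv]
    exact key i hi y ih

/-- the faces through a point of hyperbolic space are pairwise orthogonal -/
lemma orth_of_mem {y : E4} (hy : y ∈ Hyp) (i j : ι) (hi : lor y (d.e i) = 0)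
    (hj : lor y (d.e j) = 0) (hij : i ≠ j) : lor (d.e i) (d.e j) = 0 := by
  rcases d.far i j hij with h | h
  · exact h
  · exfalso
    have h1 : lor (d.e i + d.e j) (d.e i + d.e j) ≤ 0 := by
      rw [lor_add_left, lor_add_right, lor_add_right, d.norm, d.norm, lor_comm (d.e j) (d.e i)]
      linarith
    have h2 : lor y (d.e i + d.e j) = 0 := by rw [lor_add_right, hi, hj, add_zero]
    have h3 := eq_zero_of_orth (by rw [hy.1]; norm_num) h2 h1
    have h4 : lor d.base (d.e i + d.e j) = 0 := by rw [h3, lor_zero_right]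
    rw [lor_add_right] at h4
    have := d.base_neg i
    have := d.base_neg j
    linarith

/-- a sum of future timelike vectors is future timelike -/
lemma sum_future (g : ℕ → E4) (hg : ∀ k, g k ∈ Hyp) : ∀ n : ℕ, 0 < n →
    lor (∑ k ∈ Finset.range n, g k) (∑ k ∈ Finset.range n, g k) < 0 ∧
      0 < (∑ k ∈ Finset.range n, g k) 0
  | 0, h => absurd h (lt_irrefl _)
  | 1, _ => by
    rw [Finset.sum_range_one]
    exact ⟨by rw [(hg 0).1]; norm_num, (hg 0).2⟩
  | n + 2, _ => by
    obtain ⟨h1, h2⟩ := sum_future g hg (n + 1) (Nat.succ_pos n)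
    rw [Finset.sum_range_succ]
    have h3 := Hyp.neg (hg (n + 1)) h1.le h2
    constructor
    · rw [lor_add_left, lor_add_right, lor_add_right, (hg (n + 1)).1,
        lor_comm _ (g (n + 1))]
      linarith
    · rw [Pi.add_apply]
      exact add_pos h2 (hg (n + 1)).2

end Datum

theorem specFree (hT : SpecTits) (hP : SpecProper) (hC : SpecCover) : SpecFree := by
  intro ι _ d f hf
  constructor
  · rintro g ⟨w, hw, rfl⟩ x y
    exact d.lor_rho w x y
  · rintro g ⟨w, hw, rfl⟩ x hx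
    exact d.rho_mem_Hyp w hx
  · rintro g ⟨w, hw, rfl⟩
    have hw' : d.col f w = 1 := hw
    have h := d.det_rho f hf.1 w
    rw [Datum.csum, hw'] at h
    rcases h with h | h
    · exact h.2
    · exfalso
      have := h.1
      simp at this
  · intro x hx R
    apply ((hP ι d x hx R).image d.rho).subset
    rintro g ⟨⟨w, hw, rfl⟩, hg⟩
    exact ⟨w, hg, rfl⟩
  · rintro g ⟨w, hw, rfl⟩ n hn hgn
    have hw' : d.col f w = 1 := hw
    -- a fixed point
    set z : E4 := ∑ k ∈ Finset.range n, d.rho (w ^ k) d.base with hz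
    obtain ⟨hz1, hz2⟩ := Datum.sum_future (fun k => d.rho (w ^ k) d.base)
      (fun k => d.rho_mem_Hyp _ d.base_mem) n hn
    rw [← hz] at hz1 hz2
    have hfix : d.rho w z = z := by
      rw [hz, map_sum]
      have h1 : ∀ k, d.rho w (d.rho (w ^ k) d.base) = d.rho (w ^ (k + 1)) d.base := by
        intro k
        rw [← d.rho_mul_apply, pow_succ']
      simp only [h1]
      have h2 := Finset.sum_range_succ (fun k => d.rho (w ^ k) d.base) n
      have h3 := Finset.sum_range_succ' (fun k => d.rho (w ^ k) d.base) n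
      rw [h2] at h3
      have h4 : d.rho (w ^ n) d.base = d.rho (w ^ 0) d.base := by
        rw [map_pow, hgn, pow_zero, map_one]
      rw [h4] at h3
      exact (add_right_cancel h3).symm
    -- scale
    set c : ℝ := (√(-lor z z))⁻¹ with hc
    have hpos : 0 < √(-lor z z) := Real.sqrt_pos.2 (by linarith)
    have hc0 : 0 < c := inv_pos.2 hpos
    set y : E4 := c • z with hy
    have hyH : y ∈ Hyp := by
      constructor
      · rw [hy, lor_smul_left, lor_smul_right, hc]
        have : √(-lor z z) * √(-lor z z) = -lor z z := Real.mul_self_sqrt (by linarith)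
        have h5 : lor z z = -(√(-lor z z) * √(-lor z z)) := by rw [this]; ring
        have hne := hpos.ne'
        field_simp
        rw [pow_two, this]
        ring
      · rw [hy, Pi.smul_apply, smul_eq_mul]
        exact mul_pos hc0 hz2
    have hyfix : d.rho w y = y := by rw [hy, map_smul, hfix]
    obtain ⟨u, hu⟩ := hC ι d y hyH
    set w' := u * w * u⁻¹ with hw1
    set y' := d.rho u y with hy1
    have hy'H : y' ∈ Hyp := d.rho_mem_Hyp u hyH
    have hw'fix : d.rho w' y' = y' := by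
      rw [hw1, hy1, d.rho_mul_apply, d.rho_mul_apply, d.rho_inv_apply, hyfix]
    have hcl := ((hT ι d).2.1 w' y' hu (by rw [hw'fix]; exact hu)).2
    obtain ⟨l, hl, hlI, hwl⟩ := d.exists_list {i | lor y' (d.e i) = 0}
      (fun i hi j hj hij => d.orth_of_mem hy'H i j hi hj hij) w' hcl
    have hcol : d.col f w' = 1 := by
      rw [hw1, map_mul, map_mul, hw', mul_one, map_inv, mul_inv_cancel]
    have hl0 : l = [] := by
      by_contra hne
      classical
      have h6 := hf.2 l.toFinset (by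
        obtain ⟨a, ha⟩ := List.exists_mem_of_ne_nil l hne
        exact ⟨a, List.mem_toFinset.2 ha⟩) (by
        intro i hi j hj hij
        exact d.orth_of_mem hy'H i j (hlI i (List.mem_toFinset.1 hi))
          (hlI j (List.mem_toFinset.1 hj)) hij)
      apply h6
      rw [List.sum_toFinset _ hl]
      have h7 : ∀ l : List ι, d.col f ((l.map d.s).prod) = Multiplicative.ofAdd (l.map f).sum := by
        intro l
        induction l with
        | nil => simp
        | cons a l ih =>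
          rw [List.map_cons, List.prod_cons, map_mul, ih, d.col_s, List.map_cons, List.sum_cons,
            ofAdd_add]
      have h8 := h7 l
      rw [← hwl, hcol] at h8
      exact (ofAdd_eq_one.1 h8.symm)
    rw [hl0] at hwl
    have hw0 : w = 1 := by
      have : w' = 1 := by rw [hwl]; simp
      rw [hw1] at this
      have h9 : w = u⁻¹ * (u * w * u⁻¹) * u := by group
      rw [h9, this]; group
    rw [hw0, map_one]

end EqVol
end
end

section
set_option linter.all false

/-!
# GOOD: the colourings are good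
-/

noncomputable section

namespace EqVol

namespace Good

/-- the four colours -/
def colours : Finset (Fin 3 → ZMod 2) := {![1, 0, 0], ![0, 1, 0], ![0, 0, 1], ![1, 1, 1]}

lemma sum_colours : ∀ J : Finset (Fin 3 → ZMod 2), J ⊆ colours → J.Nonempty → ∑ x ∈ J, x = 0 →
    J = colours := by
  have h : ∀ J ∈ colours.powerset, J.Nonempty → ∑ x ∈ J, x = 0 → J = colours := by
    decide +kernel
  intro J hJ
  exact h J (Finset.mem_powerset.2 hJ)

/-- the combinatorial criterion -/
lemma good_of {ι : Type} (d : Datum ι) (f : ι → Fin 3 → ZMod 2)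
    (o : ι → ι → Prop) (ho : ∀ i j, lor (d.e i) (d.e j) = 0 ↔ o i j)
    (h1 : ∀ i, f i 0 + f i 1 + f i 2 = 1)
    (h2 : ∀ i, f i ∈ colours) (h3 : ∀ i j, o i j → f i ≠ f j)
    (h4 : ∀ i j k l, o i j → o i k → o j k → o i l → o j l → o k l → False) : d.Good f := by
  classical
  refine ⟨h1, ?_⟩
  intro I hI hort hsum
  have hinj : Set.InjOn f (I : Set ι) := by
    intro i hi j hj hij
    by_contra hne
    exact h3 i j ((ho i j).1 (hort i hi j hj hne)) hij
  have hs : ∑ x ∈ I.image f, x = 0 := by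
    rw [Finset.sum_image hinj]
    exact hsum
  have hJ := sum_colours (I.image f)
    (by intro x hx; obtain ⟨i, -, rfl⟩ := Finset.mem_image.1 hx; exact h2 i)
    (hI.image f) hs
  have hmem : ∀ c ∈ colours, ∃ i ∈ I, f i = c := by
    intro c hc
    rw [← hJ] at hc
    obtain ⟨i, hi, rfl⟩ := Finset.mem_image.1 hc
    exact ⟨i, hi, rfl⟩
  obtain ⟨i, hi, hfi⟩ := hmem ![1, 0, 0] (by decide)
  obtain ⟨j, hj, hfj⟩ := hmem ![0, 1, 0] (by decide)
  obtain ⟨k, hk, hfk⟩ := hmem ![0, 0, 1] (by decide)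
  obtain ⟨l, hl, hfl⟩ := hmem ![1, 1, 1] (by decide)
  have key : ∀ i ∈ I, ∀ j ∈ I, f i ≠ f j → o i j := by
    intro i hi j hj hij
    exact (ho i j).1 (hort i hi j hj (fun h => hij (by rw [h])))
  refine h4 i j k l (key i hi j hj ?_) (key i hi k hk ?_) (key j hj k hk ?_) (key i hi l hl ?_)
    (key j hj l hl ?_) (key k hk l hl ?_)
  all_goals simp only [hfi, hfj, hfk, hfl]; decide

end Good

open Good

theorem specGood : SpecGood := by
  constructor
  · refine good_of dP fP (fun i j => lorZ (eP i) (eP j) = 0) dP_orth (by decide) (by decide)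
      (by decide) ?_
    have h : ∀ i j : Fin 17, lorZ (eP i) (eP j) = 0 → ∀ k, lorZ (eP i) (eP k) = 0 →
      lorZ (eP j) (eP k) = 0 → ∀ l, lorZ (eP i) (eP l) = 0 → lorZ (eP j) (eP l) = 0 →
        lorZ (eP k) (eP l) = 0 → False := by
      decide +kernel
    intro i j k l a b c d e f
    exact h i j a k b c l d e f
  · refine good_of dD fD (fun i j => dotZ i j = (0, 1)) dD_orth (by decide) (by decide)
      (by decide) ?_
    have h : ∀ i j : Fin 12, dotZ i j = (0, 1) → ∀ k, dotZ i k = (0, 1) →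
      dotZ j k = (0, 1) → ∀ l, dotZ i l = (0, 1) → dotZ j l = (0, 1) →
        dotZ k l = (0, 1) → False := by
      decide +kernel
    intro i j k l a b c d e f
    exact h i j a k b c l d e f

end EqVol
end
end

section
set_option linter.all false

/-!
# NULL: the ideal points of the chamber of `P`
-/

noncomputable section

namespace EqVol

namespace Null

lemma cell_aux {s q : ℝ} (hs0 : 0 ≤ s) (hs1 : s ≤ 1) (hq : 0 ≤ q) (h1 : q ≤ s ^ 2)
    (h2 : q ≤ (1 - s) ^ 2) : q ≤ s * (1 - s) := by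
  have h3 : q ^ 2 ≤ (s * (1 - s)) ^ 2 := by
    calc q ^ 2 = q * q := by ring
      _ ≤ s ^ 2 * (1 - s) ^ 2 := mul_le_mul h1 h2 hq (sq_nonneg _)
      _ = (s * (1 - s)) ^ 2 := by ring
  exact le_of_sq_le_sq h3 (mul_nonneg hs0 (by linarith))

lemma cell {s b : ℝ} (hs0 : 0 ≤ s) (hs1 : s ≤ 1) (hb0 : 0 ≤ b) (hb1 : b ≤ 1)
    (h1 : 0 ≤ s ^ 2 + b ^ 2 - b) (h2 : 0 ≤ (1 - s) ^ 2 + b ^ 2 - b)
    (h3 : 0 ≤ s ^ 2 - s + b ^ 2) (h4 : 0 ≤ s ^ 2 - s + (1 - b) ^ 2) :
    ((s = 0 ∨ s = 1) ∧ (b = 0 ∨ b = 1)) ∨ (s = 1 / 2 ∧ b = 1 / 2) := by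
  have hp : 0 ≤ s * (1 - s) := mul_nonneg hs0 (by linarith)
  have hq : 0 ≤ b * (1 - b) := mul_nonneg hb0 (by linarith)
  have e1 : b * (1 - b) ≤ s * (1 - s) :=
    cell_aux hs0 hs1 hq (by nlinarith) (by nlinarith)
  have e2 : s * (1 - s) ≤ b * (1 - b) :=
    cell_aux hb0 hb1 hp (by nlinarith) (by nlinarith)
  have e : s * (1 - s) = b * (1 - b) := le_antisymm e2 e1
  have f1 : 0 ≤ s * (2 * s - 1) := by nlinarith
  have f2 : 0 ≤ (1 - s) * (1 - 2 * s) := by nlinarith
  by_cases hs : s = 0 ∨ s = 1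
  · left
    refine ⟨hs, ?_⟩
    have h0 : b * (1 - b) = 0 := by
      rw [← e]
      rcases hs with h | h <;> rw [h] <;> norm_num
    rcases mul_eq_zero.1 h0 with h | h
    · left; exact h
    · right; linarith
  · right
    push Not at hs
    have g0 : 0 < s := lt_of_le_of_ne hs0 (Ne.symm hs.1)
    have g1 : 0 < 1 - s := by
      have := lt_of_le_of_ne hs1 hs.2
      linarith
    have k1 : 0 ≤ 2 * s - 1 := nonneg_of_mul_nonneg_right f1 g0
    have k2 : 0 ≤ 1 - 2 * s := nonneg_of_mul_nonneg_right f2 g1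
    have hs' : s = 1 / 2 := by linarith
    refine ⟨hs', ?_⟩
    rw [hs'] at e
    have : (b - 1 / 2) ^ 2 = 0 := by nlinarith
    have := pow_eq_zero_iff (two_ne_zero) |>.1 this
    linarith

lemma pV_apply (j : Fin 15) (i : Fin 4) (n : ℤ) (h : pZ j i = n) : pV j i = (n : ℝ) := by
  rw [pV_eq]
  simp only [castE, h]

lemma key {x : E4} (hx : lor x x = 0) {D : ℝ} (hD : 0 < D) (hD' : x 0 - x 3 = D) (j : Fin 15)
    {m p q : ℝ} (hm : 0 < m) (hm' : pV j 0 - pV j 3 = m) (hp : pV j 1 = p) (hq : pV j 2 = q)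
    (h1 : x 1 * m = D * p) (h2 : x 2 * m = D * q) :
    ∃ j : Fin 15, ∃ t : ℝ, 0 < t ∧ x = t • pV j := by
  refine ⟨j, D / m, div_pos hD hm, ?_⟩
  have hn := pV_null j
  simp only [lor] at hx hn
  rw [hp, hq] at hn
  have e1 : x 1 = D / m * p := by field_simp; linarith
  have e2 : x 2 = D / m * q := by field_simp; linarith
  have hs : D * (x 0 + x 3) = x 1 ^ 2 + x 2 ^ 2 := by rw [← hD']; nlinarith
  have hs' : m * (pV j 0 + pV j 3) = p ^ 2 + q ^ 2 := by rw [← hm']; nlinarith
  have e3 : x 0 + x 3 = D / m * (pV j 0 + pV j 3) := by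
    have h5 : D * (x 0 + x 3) = D * (D / m * (pV j 0 + pV j 3)) := by
      rw [hs, e1, e2]
      have : D * (D / m * (pV j 0 + pV j 3)) = (D / m) ^ 2 * (m * (pV j 0 + pV j 3)) := by
        field_simp
      rw [this, hs']
      ring
    exact mul_left_cancel₀ hD.ne' h5
  have e4 : x 0 - x 3 = D / m * (pV j 0 - pV j 3) := by
    rw [hD', hm']; field_simp
  funext k
  simp only [Pi.smul_apply, smul_eq_mul]
  fin_cases k
  · change x 0 = D / m * pV j 0
    linarith
  · change x 1 = D / m * pV j 1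
    rw [hp]; exact e1
  · change x 2 = D / m * pV j 2
    rw [hq]; exact e2
  · change x 3 = D / m * pV j 3
    linarith

end Null

open Null in
theorem specNull : SpecNull := by
  intro x hx hx0 hC
  have hC' : ∀ i : Fin 17, -(x 0 * (eP i 0 : ℝ)) + x 1 * (eP i 1 : ℝ) + x 2 * (eP i 2 : ℝ) +
      x 3 * (eP i 3 : ℝ) ≤ 0 := fun i => hC i
  have c0 := hC' 0
  have c1 := hC' 1
  have c2 := hC' 2
  have c3 := hC' 3
  have c4 := hC' 4
  have c5 := hC' 5
  have c6 := hC' 6
  have c7 := hC' 7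
  have c8 := hC' 8
  have c9 := hC' 9
  have c10 := hC' 10
  have c11 := hC' 11
  have c12 := hC' 12
  have c13 := hC' 13
  have c14 := hC' 14
  have c15 := hC' 15
  have c16 := hC' 16
  clear hC' hC
  simp [eP] at c0 c1 c2 c3 c4 c5 c6 c7 c8 c9 c10 c11 c12 c13 c14 c15 c16
  have hx' : x 0 ^ 2 = x 1 ^ 2 + x 2 ^ 2 + x 3 ^ 2 := by
    simp only [lor] at hx
    nlinarith
  have hD0 : 0 ≤ x 0 - x 3 := by
    have : x 3 ≤ x 0 := by
      apply le_of_sq_le_sq _ hx0.le
      nlinarith [sq_nonneg (x 1), sq_nonneg (x 2)]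
    linarith
  rcases hD0.eq_or_lt with h0 | hD
  · have h1 : x 1 = 0 := by nlinarith [sq_nonneg (x 1), sq_nonneg (x 2)]
    have h2 : x 2 = 0 := by nlinarith [sq_nonneg (x 1), sq_nonneg (x 2)]
    refine ⟨0, x 0 / 4, by positivity, ?_⟩
    have g0 := pV_apply 0 0 4 (by decide)
    have g1 := pV_apply 0 1 0 (by decide)
    have g2 := pV_apply 0 2 0 (by decide)
    have g3 := pV_apply 0 3 4 (by decide)
    funext k
    simp only [Pi.smul_apply, smul_eq_mul]
    fin_cases k
    · change x 0 = x 0 / 4 * pV 0 0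
      rw [g0]; push_cast; ring
    · change x 1 = x 0 / 4 * pV 0 1
      rw [g1, h1]; simp
    · change x 2 = x 0 / 4 * pV 0 2
      rw [g2, h2]; simp
    · change x 3 = x 0 / 4 * pV 0 3
      rw [g3]; push_cast; linarith
  · obtain ⟨D, hDe⟩ : ∃ D, D = x 0 - x 3 := ⟨_, rfl⟩
    rw [← hDe] at hD
    obtain ⟨a, ha⟩ : ∃ a, x 1 = D * a := ⟨x 1 / D, by field_simp⟩
    obtain ⟨b, hb⟩ : ∃ b, x 2 = D * b := ⟨x 2 / D, by field_simp⟩
    have hN : x 0 + x 3 = D * (a ^ 2 + b ^ 2) := by
      have : D * (x 0 + x 3) = D * (D * (a ^ 2 + b ^ 2)) := by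
        calc D * (x 0 + x 3) = x 1 ^ 2 + x 2 ^ 2 := by rw [hDe]; nlinarith
          _ = D * (D * (a ^ 2 + b ^ 2)) := by rw [ha, hb]; ring
      exact mul_left_cancel₀ hD.ne' this
    have e0 : x 0 = D * (a ^ 2 + b ^ 2 + 1) / 2 := by linarith
    have e3 : x 3 = D * (a ^ 2 + b ^ 2 - 1) / 2 := by linarith
    have dv : ∀ y : ℝ, D * y ≤ 0 → y ≤ 0 := fun y hy => by
      by_contra hc
      push Not at hc
      have := mul_pos hD hc
      linarith
    rw [hb] at c0
    rw [e0, e3, hb] at c1 c2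
    rw [e0, ha, hb] at c3
    rw [e0, e3, ha, hb] at c4 c5 c6
    rw [ha] at c7
    rw [e0, e3, ha] at c8 c9 c10 c11 c12
    rw [e0, ha, hb] at c13
    rw [e0, e3, ha, hb] at c14 c15 c16
    have d0 := dv (-b) (by linarith only [c0])
    have d1 := dv (b - 1) (by linarith only [c1])
    have d2 := dv (b - (a ^ 2 + b ^ 2)) (by linarith only [c2])
    have d3 := dv (2 * a + b - (a ^ 2 + b ^ 2) - 1) (by linarith only [c3])
    have d4 := dv (4 * a + b - (a ^ 2 + b ^ 2) - 4) (by linarith only [c4])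
    have d5 := dv (6 * a + b - (a ^ 2 + b ^ 2) - 9) (by linarith only [c5])
    have d6 := dv (8 * a + b - (a ^ 2 + b ^ 2) - 16) (by linarith only [c6])
    have d7 := dv (-a) (by linarith only [c7])
    have d8 := dv (a - 4) (by linarith only [c8])
    have d9 := dv (a - (a ^ 2 + b ^ 2)) (by linarith only [c9])
    have d10 := dv (3 * a - (a ^ 2 + b ^ 2) - 2) (by linarith only [c10])
    have d11 := dv (5 * a - (a ^ 2 + b ^ 2) - 6) (by linarith only [c11])
    have d12 := dv (7 * a - (a ^ 2 + b ^ 2) - 12) (by linarith only [c12])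
    have d13 := dv (a + 2 * b - (a ^ 2 + b ^ 2) - 1) (by linarith only [c13])
    have d14 := dv (3 * a + 2 * b - (a ^ 2 + b ^ 2) - 3) (by linarith only [c14])
    have d15 := dv (5 * a + 2 * b - (a ^ 2 + b ^ 2) - 7) (by linarith only [c15])
    have d16 := dv (7 * a + 2 * b - (a ^ 2 + b ^ 2) - 13) (by linarith only [c16])
    clear c0 c1 c2 c3 c4 c5 c6 c7 c8 c9 c10 c11 c12 c13 c14 c15 c16
    have hDe' := hDe.symm
    -- the candidates
    have corner : ∀ (j : Fin 15) (m p q : ℤ), 0 < m → pZ j 0 - pZ j 3 = m → pZ j 1 = p →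
        pZ j 2 = q → a * m = p → b * m = q → ∃ j : Fin 15, ∃ t : ℝ, 0 < t ∧ x = t • pV j := by
      intro j m p q hm h1 h2 h3 h4 h5
      refine key (m := m) (p := p) (q := q) hx hD hDe' j (by exact_mod_cast hm) ?_ (pV_apply j 1 p h2) (pV_apply j 2 q h3) ?_ ?_
      · rw [pV_eq]; simp only [castE]; rw [← h1]; push_cast; ring
      · rw [ha]; linear_combination D * h4
      · rw [hb]; linear_combination D * h5
    have hb0 : 0 ≤ b := by linarith
    have hb1 : b ≤ 1 := by linarith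
    rcases le_total a 2 with h | h
    · rcases le_total a 1 with h' | h'
      · rcases cell (s := a) (b := b) (by linarith) (by linarith) hb0 hb1 (by linarith) (by linarith)
          (by linarith) (by linarith) with ⟨h1 | h1, h2 | h2⟩ | ⟨h1, h2⟩
        · exact corner 1 2 0 0 (by norm_num) (by decide) (by decide) (by decide)
            (by rw [h1]; norm_num) (by rw [h2]; norm_num)
        · exact corner 6 2 0 2 (by norm_num) (by decide) (by decide) (by decide)
            (by rw [h1]; norm_num) (by rw [h2]; norm_num)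
        · exact corner 2 4 4 0 (by norm_num) (by decide) (by decide) (by decide)
            (by rw [h1]; norm_num) (by rw [h2]; norm_num)
        · exact corner 7 2 2 2 (by norm_num) (by decide) (by decide) (by decide)
            (by rw [h1]; norm_num) (by rw [h2]; norm_num)
        · exact corner 11 4 2 2 (by norm_num) (by decide) (by decide) (by decide)
            (by rw [h1]; norm_num) (by rw [h2]; norm_num)
      · rcases cell (s := a - 1) (b := b) (by linarith) (by linarith) hb0 hb1 (by linarith)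
          (by linarith) (by linarith) (by linarith) with ⟨h1 | h1, h2 | h2⟩ | ⟨h1, h2⟩
        · exact corner 2 4 4 0 (by norm_num) (by decide) (by decide) (by decide)
            (by rw [eq_add_of_sub_eq h1]; norm_num) (by rw [h2]; norm_num)
        · exact corner 7 2 2 2 (by norm_num) (by decide) (by decide) (by decide)
            (by rw [eq_add_of_sub_eq h1]; norm_num) (by rw [h2]; norm_num)
        · exact corner 3 4 8 0 (by norm_num) (by decide) (by decide) (by decide)
            (by rw [eq_add_of_sub_eq h1]; norm_num) (by rw [h2]; norm_num)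
        · exact corner 8 4 8 4 (by norm_num) (by decide) (by decide) (by decide)
            (by rw [eq_add_of_sub_eq h1]; norm_num) (by rw [h2]; norm_num)
        · exact corner 12 4 6 2 (by norm_num) (by decide) (by decide) (by decide)
            (by rw [eq_add_of_sub_eq h1]; norm_num) (by rw [h2]; norm_num)
    · rcases le_total a 3 with h' | h'
      · rcases cell (s := a - 2) (b := b) (by linarith) (by linarith) hb0 hb1 (by linarith)
          (by linarith) (by linarith) (by linarith) with ⟨h1 | h1, h2 | h2⟩ | ⟨h1, h2⟩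
        · exact corner 3 4 8 0 (by norm_num) (by decide) (by decide) (by decide)
            (by rw [eq_add_of_sub_eq h1]; norm_num) (by rw [h2]; norm_num)
        · exact corner 8 4 8 4 (by norm_num) (by decide) (by decide) (by decide)
            (by rw [eq_add_of_sub_eq h1]; norm_num) (by rw [h2]; norm_num)
        · exact corner 4 4 12 0 (by norm_num) (by decide) (by decide) (by decide)
            (by rw [eq_add_of_sub_eq h1]; norm_num) (by rw [h2]; norm_num)
        · exact corner 9 4 12 4 (by norm_num) (by decide) (by decide) (by decide)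
            (by rw [eq_add_of_sub_eq h1]; norm_num) (by rw [h2]; norm_num)
        · exact corner 13 4 10 2 (by norm_num) (by decide) (by decide) (by decide)
            (by rw [eq_add_of_sub_eq h1]; norm_num) (by rw [h2]; norm_num)
      · rcases cell (s := a - 3) (b := b) (by linarith) (by linarith) hb0 hb1 (by linarith)
          (by linarith) (by linarith) (by linarith) with ⟨h1 | h1, h2 | h2⟩ | ⟨h1, h2⟩
        · exact corner 4 4 12 0 (by norm_num) (by decide) (by decide) (by decide)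
            (by rw [eq_add_of_sub_eq h1]; norm_num) (by rw [h2]; norm_num)
        · exact corner 9 4 12 4 (by norm_num) (by decide) (by decide) (by decide)
            (by rw [eq_add_of_sub_eq h1]; norm_num) (by rw [h2]; norm_num)
        · exact corner 5 2 8 0 (by norm_num) (by decide) (by decide) (by decide)
            (by rw [eq_add_of_sub_eq h1]; norm_num) (by rw [h2]; norm_num)
        · exact corner 10 2 8 2 (by norm_num) (by decide) (by decide) (by decide)
            (by rw [eq_add_of_sub_eq h1]; norm_num) (by rw [h2]; norm_num)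
        · exact corner 14 4 14 2 (by norm_num) (by decide) (by decide) (by decide)
            (by rw [eq_add_of_sub_eq h1]; norm_num) (by rw [h2]; norm_num)

end EqVol
end
end

section
set_option linter.all false

/-!
# PFIN: the chamber of `P` has finite volume
-/

noncomputable section

open MeasureTheory Set

namespace EqVol

namespace PFIN

/-- the parameter domain of an ideal simplex -/
def D : Set E4 := {t | (∀ i, 0 ≤ t i) ∧ ∀ i j, i ≠ j → t i * t j ≤ 2}

/-- corners of boxes covering `D` -/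
def bx (i : Fin 4) (n : ℕ) : E4 := fun j => if j = i then 2 ^ (n + 1) else 2 / 2 ^ n

lemma D_subset : D ⊆ ⋃ i : Fin 4, ⋃ n : ℕ, Icc (0 : E4) (bx i n) := by
  intro t ht
  obtain ⟨h0, h1⟩ := ht
  rw [mem_iUnion]
  by_cases hs : ∀ i, t i ≤ 2
  · refine ⟨0, ?_⟩
    rw [mem_iUnion]
    refine ⟨0, ⟨fun j => h0 j, fun j => ?_⟩⟩
    simp only [bx]
    split_ifs
    · simpa using hs j
    · simpa using hs j
  · push Not at hs
    obtain ⟨i, hi⟩ := hs
    refine ⟨i, ?_⟩
    rw [mem_iUnion]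
    obtain ⟨n, hn1, hn2⟩ := exists_nat_pow_near (by linarith : (1 : ℝ) ≤ t i) (by norm_num : (1:ℝ) < 2)
    refine ⟨n, ⟨fun j => h0 j, fun j => ?_⟩⟩
    simp only [bx]
    split_ifs with hj
    · rw [hj]; exact hn2.le
    · rw [le_div_iff₀ (by positivity)]
      calc t j * 2 ^ n ≤ t j * t i := mul_le_mul_of_nonneg_left hn1 (h0 j)
        _ ≤ 2 := h1 j i hj

lemma vol_bx (i : Fin 4) (n : ℕ) : volume (Icc (0 : E4) (bx i n)) =
    ENNReal.ofReal (16 * (1 / 4) ^ n) := by
  rw [Real.volume_Icc_pi, ← ENNReal.ofReal_prod_of_nonneg]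
  · congr 1
    have h2 : (2:ℝ) ^ n ≠ 0 := by positivity
    have h4 : (4:ℝ) ^ n = 2 ^ n * 2 ^ n := by rw [← mul_pow]; norm_num
    have : ∀ j, (bx i n j - (0 : E4) j) = if j = i then (2:ℝ) ^ (n + 1) else 2 / 2 ^ n := by
      intro j; simp [bx]
    simp_rw [this]
    rw [Fin.prod_univ_four]
    fin_cases i <;> simp <;> field_simp <;> rw [h4] <;> ring
  · intro j _
    simp only [bx, Pi.zero_apply, sub_zero]
    split_ifs <;> positivity

lemma vol_D : volume D ≠ ⊤ := by
  have h1 : volume D ≤ ∑ i : Fin 4, ∑' n : ℕ, ENNReal.ofReal (16 * (1 / 4 : ℝ) ^ n) := by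
    calc volume D ≤ volume (⋃ i : Fin 4, ⋃ n : ℕ, Icc (0 : E4) (bx i n)) := measure_mono D_subset
      _ ≤ ∑' i : Fin 4, volume (⋃ n : ℕ, Icc (0 : E4) (bx i n)) := measure_iUnion_le _
      _ = ∑ i : Fin 4, volume (⋃ n : ℕ, Icc (0 : E4) (bx i n)) := tsum_fintype _
      _ ≤ ∑ i : Fin 4, ∑' n : ℕ, ENNReal.ofReal (16 * (1 / 4 : ℝ) ^ n) := by
        refine Finset.sum_le_sum fun i _ => ?_
        refine (measure_iUnion_le _).trans (le_of_eq ?_)
        exact tsum_congr fun n => vol_bx i n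
  have hs : Summable fun n : ℕ => 16 * (1 / 4 : ℝ) ^ n :=
    (summable_geometric_of_lt_one (by norm_num) (by norm_num)).mul_left 16
  have h2 : ∑' n : ℕ, ENNReal.ofReal (16 * (1 / 4 : ℝ) ^ n) ≠ ⊤ := by
    rw [← ENNReal.ofReal_tsum_of_nonneg (fun n => by positivity) hs]
    exact ENNReal.ofReal_ne_top
  refine ne_top_of_le_ne_top ?_ h1
  rw [Finset.sum_const]
  simp only [Finset.card_univ, Fintype.card_fin, nsmul_eq_mul]
  exact ENNReal.mul_ne_top (by norm_num) h2

/-- the cone over an ideal simplex -/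
def cone (n : Fin 4 → E4) : Set E4 := Fintype.linearCombination ℝ n '' D

lemma vol_cone (n : Fin 4 → E4) : volume (cone n) ≠ ⊤ := by
  unfold cone
  rw [Measure.addHaar_image_linearMap]
  exact ENNReal.mul_ne_top ENNReal.ofReal_ne_top vol_D

/-- the null vector at infinity -/
def nInf : E4 := ![1, 0, 0, 1]

/-- the null vector of a point of the plane -/
def nV (a b : ℝ) : E4 := ![(a ^ 2 + b ^ 2 + 1) / 2, a, b, (a ^ 2 + b ^ 2 - 1) / 2]

/-- the vertices of a simplex: infinity and the three points `c`, `p`, `q` -/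
def tri (c1 c2 p1 p2 q1 q2 : ℝ) : Fin 4 → E4 := ![nInf, nV c1 c2, nV p1 p2, nV q1 q2]

lemma mem_cone {c1 c2 p1 p2 q1 q2 : ℝ} (hcp : (c1 - p1) ^ 2 + (c2 - p2) ^ 2 = 1 / 2)
    (hcq : (c1 - q1) ^ 2 + (c2 - q2) ^ 2 = 1 / 2) (hpq : (p1 - q1) ^ 2 + (p2 - q2) ^ 2 = 1)
    {y : E4} (hy : -1 ≤ lor y y) (t0 t1 t2 t3 : ℝ) (h0 : 0 ≤ t0) (h1 : 0 ≤ t1) (h2 : 0 ≤ t2)
    (h3 : 0 ≤ t3)
    (e0 : y 0 + y 3 = 2 * t0 + t1 * (c1 ^ 2 + c2 ^ 2) + t2 * (p1 ^ 2 + p2 ^ 2)
      + t3 * (q1 ^ 2 + q2 ^ 2))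
    (e1 : y 1 = t1 * c1 + t2 * p1 + t3 * q1) (e2 : y 2 = t1 * c2 + t2 * p2 + t3 * q2)
    (e3 : y 0 - y 3 = t1 + t2 + t3) : y ∈ cone (tri c1 c2 p1 p2 q1 q2) := by
  have hl : -lor y y = 2 * t0 * (t1 + t2 + t3) + (1 / 2) * (t1 * t2) + (1 / 2) * (t1 * t3)
      + t2 * t3 := by
    have : -lor y y = (y 0 - y 3) * (y 0 + y 3) - y 1 ^ 2 - y 2 ^ 2 := by
      simp only [lor]; ring
    rw [this, e0, e1, e2, e3]
    linear_combination (t1 * t2) * hcp + (t1 * t3) * hcq + (t2 * t3) * hpq
  have h01 := mul_nonneg h0 h1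
  have h02 := mul_nonneg h0 h2
  have h03 := mul_nonneg h0 h3
  have h12 := mul_nonneg h1 h2
  have h13 := mul_nonneg h1 h3
  have h23 := mul_nonneg h2 h3
  have hs : 2 * (t0 * t1) + 2 * (t0 * t2) + 2 * (t0 * t3) + (1 / 2) * (t1 * t2)
      + (1 / 2) * (t1 * t3) + t2 * t3 ≤ 1 := by
    have : 2 * (t0 * t1) + 2 * (t0 * t2) + 2 * (t0 * t3) + (1 / 2) * (t1 * t2)
      + (1 / 2) * (t1 * t3) + t2 * t3 = -lor y y := by rw [hl]; ring
    linarith
  have k01 : t0 * t1 ≤ 2 := by linarith
  have k02 : t0 * t2 ≤ 2 := by linarith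
  have k03 : t0 * t3 ≤ 2 := by linarith
  have k12 : t1 * t2 ≤ 2 := by linarith
  have k13 : t1 * t3 ≤ 2 := by linarith
  have k23 : t2 * t3 ≤ 2 := by linarith
  have k10 : t1 * t0 ≤ 2 := by rw [mul_comm]; exact k01
  have k20 : t2 * t0 ≤ 2 := by rw [mul_comm]; exact k02
  have k30 : t3 * t0 ≤ 2 := by rw [mul_comm]; exact k03
  have k21 : t2 * t1 ≤ 2 := by rw [mul_comm]; exact k12
  have k31 : t3 * t1 ≤ 2 := by rw [mul_comm]; exact k13
  have k32 : t3 * t2 ≤ 2 := by rw [mul_comm]; exact k23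
  refine ⟨![t0, t1, t2, t3], ⟨?_, ?_⟩, ?_⟩
  · intro i
    fin_cases i
    · exact h0
    · exact h1
    · exact h2
    · exact h3
  · intro i j hij
    fin_cases i <;> fin_cases j <;>
    first
    | exact absurd rfl hij
    | exact k01
    | exact k02
    | exact k03
    | exact k12
    | exact k13
    | exact k23
    | exact k10
    | exact k20
    | exact k30
    | exact k21
    | exact k31
    | exact k32
  · rw [Fintype.linearCombination_apply, Fin.sum_univ_four]
    funext i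
    fin_cases i
    · simp [tri, nInf, nV]; linarith
    · simp [tri, nInf, nV]; linarith
    · simp [tri, nInf, nV]; linarith
    · simp [tri, nInf, nV]; linarith

/-- the four simplices over the unit square `[k, k + 1] × [0, 1]` -/
def cell (k : ℝ) : Set E4 :=
  cone (tri (k + 1 / 2) (1 / 2) k 0 (k + 1) 0) ∪ cone (tri (k + 1 / 2) (1 / 2) k 1 (k + 1) 1) ∪
    (cone (tri (k + 1 / 2) (1 / 2) k 0 k 1) ∪
      cone (tri (k + 1 / 2) (1 / 2) (k + 1) 0 (k + 1) 1))

lemma vol_cell (k : ℝ) : volume (cell k) ≠ ⊤ := by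
  unfold cell
  have h := fun n => (vol_cone n).lt_top
  exact (measure_union_lt_top (measure_union_lt_top (h _) (h _))
    (measure_union_lt_top (h _) (h _))).ne

lemma mem_cell (k : ℝ) {y : E4} (hy : -1 ≤ lor y y) (hk0 : k * (y 0 - y 3) ≤ y 1)
    (hk1 : y 1 ≤ (k + 1) * (y 0 - y 3)) (h0 : 0 ≤ y 2) (h1 : y 2 ≤ y 0 - y 3)
    (hB : (2 * k + 1) * y 1 ≤ (y 0 + y 3) + k * (k + 1) * (y 0 - y 3))
    (hT : (2 * k + 1) * y 1 + 2 * y 2 ≤ (y 0 + y 3) + (k * (k + 1) + 1) * (y 0 - y 3))
    (hL : 2 * k * y 1 + y 2 ≤ (y 0 + y 3) + k ^ 2 * (y 0 - y 3))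
    (hR : 2 * (k + 1) * y 1 + y 2 ≤ (y 0 + y 3) + (k + 1) ^ 2 * (y 0 - y 3)) : y ∈ cell k := by
  rcases le_total (y 2) (y 1 - k * (y 0 - y 3)) with h2 | h2
  · rcases le_total (y 2) ((k + 1) * (y 0 - y 3) - y 1) with h3 | h3
    · -- bottom
      left; left
      refine mem_cone (by ring) (by ring) (by ring) hy
        (((y 0 + y 3) + k * (k + 1) * (y 0 - y 3) - (2 * k + 1) * y 1) / 2) (2 * y 2)
        ((k + 1) * (y 0 - y 3) - y 1 - y 2) (y 1 - k * (y 0 - y 3) - y 2)
        (by linarith) (by linarith) (by linarith) (by linarith) (by ring) (by ring) (by ring)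
        (by ring)
    · -- right
      right; right
      refine mem_cone (by ring) (by ring) (by ring) hy
        (((y 0 + y 3) + (k + 1) ^ 2 * (y 0 - y 3) - 2 * (k + 1) * y 1 - y 2) / 2)
        (2 * ((k + 1) * (y 0 - y 3) - y 1))
        (y 1 - k * (y 0 - y 3) - y 2) (y 2 - ((k + 1) * (y 0 - y 3) - y 1))
        (by linarith) (by linarith) (by linarith) (by linarith) (by ring) (by ring) (by ring)
        (by ring)
  · rcases le_total (y 2) ((k + 1) * (y 0 - y 3) - y 1) with h3 | h3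
    · -- left
      right; left
      refine mem_cone (by ring) (by ring) (by ring) hy
        (((y 0 + y 3) + k ^ 2 * (y 0 - y 3) - 2 * k * y 1 - y 2) / 2)
        (2 * (y 1 - k * (y 0 - y 3)))
        ((k + 1) * (y 0 - y 3) - y 1 - y 2) (y 2 - (y 1 - k * (y 0 - y 3)))
        (by linarith) (by linarith) (by linarith) (by linarith) (by ring) (by ring) (by ring)
        (by ring)
    · -- top
      left; right
      refine mem_cone (by ring) (by ring) (by ring) hy
        (((y 0 + y 3) + (k * (k + 1) + 1) * (y 0 - y 3) - (2 * k + 1) * y 1 - 2 * y 2) / 2)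
        (2 * ((y 0 - y 3) - y 2))
        (y 2 - (y 1 - k * (y 0 - y 3))) (y 1 - k * (y 0 - y 3) - ((y 0 - y 3) - y 2))
        (by linarith) (by linarith) (by linarith) (by linarith) (by ring) (by ring) (by ring)
        (by ring)

lemma cover {y : E4} (hC : y ∈ dP.C) (hy : -1 ≤ lor y y) :
    y ∈ cell 0 ∪ cell 1 ∪ (cell 2 ∪ cell 3) := by
  have f : ∀ i, lor y (castE (eP i)) ≤ 0 := hC
  have f0 := f 0
  have f1 := f 1
  have f2 := f 2
  have f3 := f 3
  have f4 := f 4
  have f5 := f 5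
  have f6 := f 6
  have f7 := f 7
  have f8 := f 8
  have f9 := f 9
  have f10 := f 10
  have f11 := f 11
  have f12 := f 12
  have f13 := f 13
  have f14 := f 14
  have f15 := f 15
  have f16 := f 16
  simp [lor, castE, eP] at f0 f1 f2 f3 f4 f5 f6 f7 f8 f9 f10 f11 f12 f13 f14 f15 f16
  rcases le_total (y 1) (2 * (y 0 - y 3)) with h | h
  · left
    rcases le_total (y 1) (y 0 - y 3) with h' | h'
    · left
      exact mem_cell 0 hy (by linarith) (by linarith) (by linarith) (by linarith) (by linarith)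
        (by linarith) (by linarith) (by linarith)
    · right
      exact mem_cell 1 hy (by linarith) (by linarith) (by linarith) (by linarith) (by linarith)
        (by linarith) (by linarith) (by linarith)
  · right
    rcases le_total (y 1) (3 * (y 0 - y 3)) with h' | h'
    · left
      exact mem_cell 2 hy (by linarith) (by linarith) (by linarith) (by linarith) (by linarith)
        (by linarith) (by linarith) (by linarith)
    · right
      exact mem_cell 3 hy (by linarith) (by linarith) (by linarith) (by linarith) (by linarith)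
        (by linarith) (by linarith) (by linarith)

end PFIN

/-- PFIN: finite volume of the chamber of `P` -/
theorem specPfin : SpecPfin := by
  have h1 : volume {y : E4 | ∃ t : ℝ, 0 < t ∧ t ≤ 1 ∧ ∃ x ∈ dP.C ∩ Hyp, y = t • x} ≠ ⊤ := by
    refine ne_top_of_le_ne_top ?_ (measure_mono (t := PFIN.cell 0 ∪ PFIN.cell 1 ∪
      (PFIN.cell 2 ∪ PFIN.cell 3)) ?_)
    · have h := fun k => (PFIN.vol_cell k).lt_top
      exact (measure_union_lt_top (measure_union_lt_top (h _) (h _))
        (measure_union_lt_top (h _) (h _))).ne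
    · rintro y ⟨t, ht0, ht1, x, ⟨hxC, hxH⟩, rfl⟩
      refine PFIN.cover (dP.smul_mem_C hxC ht0.le) ?_
      rw [lor_smul_left, lor_smul_right, hxH.1]
      nlinarith
  exact ENNReal.mul_ne_top (by norm_num) h1

end EqVol
end
end

section
set_option linter.all false

/-!
# PI: the kernel of `fill`
-/

noncomputable section

open MeasureTheory

namespace EqVol

namespace PI

lemma piI_surj : ∀ i : Fin 12, ∃ j : Fin 17, piI j = i := by decide

lemma fill_surj : Function.Surjective fill := by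
  intro w
  induction w using dD.induct with
  | one => exact ⟨1, map_one _⟩
  | mul w i ih =>
    obtain ⟨x, hx⟩ := ih
    obtain ⟨j, hj⟩ := piI_surj i
    exact ⟨x * dP.s j, by rw [map_mul, hx, fill_s, hj]⟩

lemma rel_cases : ∀ j : Fin 15, (vm j = 1 ∧ piI (va j) = piI (vc j)) ∨
    (vm j = 2 ∧ dotZ (piI (va j)) (piI (vc j)) = (0, 1)) := by decide

lemma fill_rel (j : Fin 15) : fill (rel j) = 1 := by
  have h : fill (rel j) = (dD.s (piI (va j)) * dD.s (piI (vc j))) ^ vm j := by
    simp only [rel, tA, map_pow, map_mul, fill_s]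
  rw [h]
  rcases rel_cases j with ⟨h1, h2⟩ | ⟨h1, h2⟩
  · rw [h1, h2, dD.s_mul_self, one_pow]
  · have hc := dD.s_comm ((dD_orth _ _).2 h2)
    rw [h1, pow_two]
    nth_rewrite 2 [hc]
    rw [mul_assoc, ← mul_assoc (dD.s (piI (vc j))), dD.s_mul_self, one_mul, dD.s_mul_self]

lemma le_ker : Subgroup.normalClosure (Set.range rel) ≤ fill.ker := by
  apply Subgroup.normalClosure_le_normal
  rintro _ ⟨j, rfl⟩
  exact fill_rel j

/-- the section of `piI` -/
def sec : Fin 12 → Fin 17 := ![0, 1, 3, 4, 5, 6, 7, 9, 10, 11, 12, 14]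

section Quot

variable (N : Subgroup dP.W) [N.Normal]

/-- images of the generators in a quotient -/
def m (i : Fin 17) : dP.W ⧸ N := QuotientGroup.mk' N (dP.s i)

lemma m_sq (i : Fin 17) : m N i * m N i = 1 := by
  rw [m, ← map_mul, dP.s_mul_self, map_one]

lemma m_comm {i j : Fin 17} (h : lorZ (eP i) (eP j) = 0) : m N i * m N j = m N j * m N i := by
  rw [m, m, ← map_mul, dP.s_comm ((dP_orth i j).2 h), map_mul]

lemma m_rel (j : Fin 15) (h : rel j ∈ N) : (m N (va j) * m N (vc j)) ^ vm j = 1 := by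
  have h1 : QuotientGroup.mk' N (rel j) = 1 := (QuotientGroup.eq_one_iff _).2 h
  rw [← h1]
  simp only [rel, tA, map_pow, map_mul, m]

lemma m_eq (j : Fin 15) (h : rel j ∈ N) (hj : vm j = 1) : m N (va j) = m N (vc j) := by
  have h1 := m_rel N j h
  rw [hj, pow_one] at h1
  calc m N (va j) = m N (va j) * (m N (vc j) * m N (vc j)) := by rw [m_sq, mul_one]
    _ = m N (vc j) := by rw [← mul_assoc, h1, one_mul]

lemma comm_of_sq {G : Type*} [Group G] {a b : G} (ha : a * a = 1) (hb : b * b = 1)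
    (h : (a * b) ^ 2 = 1) : a * b = b * a := by
  have h1 : (a * b)⁻¹ = a * b := by
    rw [inv_eq_iff_mul_eq_one, ← pow_two]; exact h
  rw [mul_inv_rev, inv_eq_of_mul_eq_one_right hb, inv_eq_of_mul_eq_one_right ha] at h1
  exact h1.symm

lemma m_comm_rel (j : Fin 15) (h : rel j ∈ N) (hj : vm j = 2) :
    m N (va j) * m N (vc j) = m N (vc j) * m N (va j) := by
  have h1 := m_rel N j h
  rw [hj] at h1
  exact comm_of_sq (m_sq N _) (m_sq N _) h1

lemma tB_one_sq (h6 : rel 6 ∈ N) (h11 : rel 11 ∈ N) : tB 1 ^ 2 ∈ N := by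
  have e1 : m N 9 = m N 13 := m_eq N 11 h11 rfl
  have e2 : (m N 7 * m N 13) ^ 2 = 1 := m_rel N 6 h6
  rw [← e1] at e2
  have e3 : QuotientGroup.mk' N (tB 1 ^ 2) = 1 := by
    rw [← e2]
    simp only [tB, map_pow, map_mul, m]
    rfl
  exact (QuotientGroup.eq_one_iff _).1 e3

variable (hN : ∀ j, rel j ∈ N)

include hN

lemma m_sec (i : Fin 17) : m N (sec (piI i)) = m N i := by
  have e0 : m N 7 = m N 8 := m_eq N 0 (hN 0) rfl
  have e1 : m N 0 = m N 2 := m_eq N 1 (hN 1) rfl
  have e2 : m N 14 = m N 15 := m_eq N 8 (hN 8) rfl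
  have e3 : m N 15 = m N 16 := m_eq N 9 (hN 9) rfl
  have e4 : m N 9 = m N 13 := m_eq N 11 (hN 11) rfl
  fin_cases i
  · rfl
  · rfl
  · exact e1
  · rfl
  · rfl
  · rfl
  · rfl
  · rfl
  · exact e0
  · rfl
  · rfl
  · rfl
  · rfl
  · exact e4
  · rfl
  · exact e2
  · exact e2.trans e3

omit hN in
lemma cases_orth : ∀ i j : Fin 12, dotZ i j = (0, 1) → ∃ a b : Fin 17, piI a = i ∧ piI b = j ∧
    (lorZ (eP a) (eP b) = 0 ∨ ∃ k : Fin 15, vm k = 2 ∧
      ((va k = a ∧ vc k = b) ∨ (va k = b ∧ vc k = a))) := by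
  decide

lemma m_sec_comm (i j : Fin 12) (h : lor (dD.e i) (dD.e j) = 0) :
    m N (sec i) * m N (sec j) = m N (sec j) * m N (sec i) := by
  obtain ⟨a, b, ha, hb, hab⟩ := cases_orth i j ((dD_orth i j).1 h)
  rw [← ha, ← hb, m_sec N hN, m_sec N hN]
  rcases hab with hab | ⟨k, hk, ⟨h1, h2⟩ | ⟨h1, h2⟩⟩
  · exact m_comm N hab
  · rw [← h1, ← h2]
    exact m_comm_rel N k (hN k) hk
  · rw [← h1, ← h2]
    exact (m_comm_rel N k (hN k) hk).symm

/-- the inverse map -/
def theta : dD.W →* dP.W ⧸ N :=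
  dD.hom (fun i => m N (sec i)) (fun i => m_sq N _) (fun i j h => m_sec_comm N hN i j h)

lemma theta_fill (w : dP.W) : theta N hN (fill w) = QuotientGroup.mk' N w := by
  induction w using dP.induct with
  | one => rw [map_one, map_one, map_one]
  | mul w i ih =>
    rw [map_mul, map_mul, map_mul, ih, fill_s]
    congr 1
    rw [theta, dD.hom_s]
    exact m_sec N hN i

lemma ker_le : fill.ker ≤ N := by
  intro w hw
  have h1 := theta_fill N hN w
  rw [MonoidHom.mem_ker.1 hw, map_one] at h1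
  exact (QuotientGroup.eq_one_iff _).1 h1.symm

end Quot

end PI

open PI in
theorem specPi : SpecPi := by
  refine ⟨fill_surj, le_antisymm ?_ le_ker, ?_⟩
  · exact ker_le _ fun j => Subgroup.subset_normalClosure ⟨j, rfl⟩
  · refine tB_one_sq _ (Subgroup.subset_normalClosure ⟨6, ?_, rfl⟩)
      (Subgroup.subset_normalClosure ⟨11, ?_, rfl⟩) <;> simp

end EqVol
end
end

section
set_option linter.all false

/-!
# PROPER: the action on hyperbolic space is properly discontinuous
-/

noncomputable section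

open Topology Filter

namespace EqVol

/-- the form is nonnegative on the orthogonal complement of a timelike vector -/
lemma lor_nonneg_of_orth {b y : E4} (hb : lor b b < 0) (h : lor b y = 0) : 0 ≤ lor y y := by
  by_contra hc
  push Not at hc
  have := eq_zero_of_orth hb h hc.le
  rw [this] at hc
  simp at hc

/-- Cauchy-Schwarz on the orthogonal complement of a timelike vector -/
lemma cs_of_orth {b t e : E4} (hb : lor b b < 0) (ht : lor b t = 0) (he : lor b e = 0) :
    lor t e ^ 2 ≤ lor t t * lor e e := by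
  have hE := lor_nonneg_of_orth hb he
  have hq : ∀ s : ℝ, 0 ≤ lor t t + 2 * s * lor t e + s ^ 2 * lor e e := by
    intro s
    have h1 : lor b (t + s • e) = 0 := by rw [lor_add_right, lor_smul_right, ht, he]; ring
    have h2 := lor_nonneg_of_orth hb h1
    rw [lor_add_left, lor_add_right, lor_add_right, lor_smul_left, lor_smul_right, lor_smul_left,
      lor_smul_right, lor_comm e t] at h2
    linarith
  rcases hE.eq_or_lt with h0 | h0
  · -- `lor e e = 0`, so `e = 0`
    have : e = 0 := eq_zero_of_orth hb he h0.symm.le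
    rw [this, lor_comm t 0]
    simp
  · have h1 := hq (-(lor t e) / lor e e)
    have h2 : lor t t + 2 * (-(lor t e) / lor e e) * lor t e +
        (-(lor t e) / lor e e) ^ 2 * lor e e = lor t t - lor t e ^ 2 / lor e e := by
      field_simp; ring
    rw [h2] at h1
    have h3 : lor t e ^ 2 / lor e e ≤ lor t t := by linarith
    rwa [div_le_iff₀ h0] at h3

/-- If `z ∈ Hyp` is close to `b ∈ Hyp`, it is on the same side of the mirror. -/
lemma side_of_close {b z e : E4} (hb : b ∈ Hyp) (hz : z ∈ Hyp) (he : lor e e = 1)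
    (hbe : lor b e < 0) (hc : lor b z ^ 2 < 1 + lor b e ^ 2) : lor z e < 0 := by
  by_contra hp
  push Not at hp
  have hbz : lor b z < 0 := Hyp.neg hb (by rw [hz.1]; norm_num) hz.2
  have hbb : lor b b = -1 := hb.1
  have hzz : lor z z = -1 := hz.1
  have h1 : lor b (z + lor b z • b) = 0 := by
    rw [lor_add_right, lor_smul_right, hbb]; ring
  have h2 : lor b (e + lor b e • b) = 0 := by
    rw [lor_add_right, lor_smul_right, hbb]; ring
  have h3 := cs_of_orth (by rw [hbb]; norm_num : lor b b < 0) h1 h2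
  have e1 : lor (z + lor b z • b) (e + lor b e • b) = lor z e + lor b z * lor b e := by
    rw [lor_add_left, lor_add_right, lor_add_right, lor_smul_left, lor_smul_right, lor_smul_left,
      lor_smul_right, hbb, lor_comm z b]; ring
  have e2 : lor (z + lor b z • b) (z + lor b z • b) = -1 + lor b z ^ 2 := by
    rw [lor_add_left, lor_add_right, lor_add_right, lor_smul_left, lor_smul_right, lor_smul_left,
      lor_smul_right, hbb, hzz, lor_comm z b]; ring
  have e3 : lor (e + lor b e • b) (e + lor b e • b) = 1 + lor b e ^ 2 := by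
    rw [lor_add_left, lor_add_right, lor_add_right, lor_smul_left, lor_smul_right, lor_smul_left,
      lor_smul_right, hbb, he, lor_comm e b]; ring
  rw [e1, e2, e3] at h3
  nlinarith [mul_nonneg hp (mul_nonneg (neg_nonneg.2 hbz.le) (neg_nonneg.2 hbe.le)), sq_nonneg (lor z e)]

lemma continuous_lor : Continuous fun p : E4 × E4 => lor p.1 p.2 := by
  unfold lor
  fun_prop

lemma isCompact_cap (R : ℝ) : IsCompact {y : E4 | lor y y = -1 ∧ y 0 ∈ Set.Icc 0 R} := by
  have hclosed : IsClosed {y : E4 | lor y y = -1 ∧ y 0 ∈ Set.Icc 0 R} := by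
    refine IsClosed.inter ?_ ?_
    · have h : Continuous fun y : E4 => lor y y :=
        continuous_lor.comp (continuous_id.prodMk continuous_id)
      exact isClosed_eq h continuous_const
    · exact isClosed_Icc.preimage (continuous_apply 0)
  refine (isCompact_univ_pi (s := fun _ : Fin 4 => Set.Icc (-(|R| + 1)) (|R| + 1))
    fun _ => isCompact_Icc).of_isClosed_subset hclosed ?_
  rintro y ⟨h1, h2, h3⟩ i _
  have hR : y 0 ≤ |R| := h3.trans (le_abs_self R)
  simp only [lor] at h1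
  have hk : y 1 ^ 2 + y 2 ^ 2 + y 3 ^ 2 ≤ (|R|) ^ 2 := by nlinarith [abs_nonneg R]
  have hall : ∀ i : Fin 4, y i ^ 2 ≤ (|R| + 1) ^ 2 := by
    intro i
    fin_cases i
    · show y 0 ^ 2 ≤ _
      nlinarith [abs_nonneg R]
    · show y 1 ^ 2 ≤ _
      nlinarith [abs_nonneg R, sq_nonneg (y 2), sq_nonneg (y 3)]
    · show y 2 ^ 2 ≤ _
      nlinarith [abs_nonneg R, sq_nonneg (y 1), sq_nonneg (y 3)]
    · show y 3 ^ 2 ≤ _
      nlinarith [abs_nonneg R, sq_nonneg (y 1), sq_nonneg (y 2)]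
  have h4 := abs_le.1 (abs_le_of_sq_le_sq (hall i) (by positivity))
  exact ⟨h4.1, h4.2⟩

/-- A time-bounded separated subset of `Hyp` is finite. -/
lemma finite_of_separated {S : Set E4} (hS : S ⊆ Hyp) {R δ : ℝ} (hR : ∀ y ∈ S, y 0 ≤ R)
    (hδ : 0 < δ) (hsep : ∀ y ∈ S, ∀ z ∈ S, y ≠ z → 1 + δ ≤ lor y z ^ 2) : S.Finite := by
  by_contra hinf
  have hsub : S ⊆ {y : E4 | lor y y = -1 ∧ y 0 ∈ Set.Icc 0 R} := fun y hy =>
    ⟨(hS hy).1, (hS hy).2.le, hR y hy⟩
  obtain ⟨p, hp, hacc⟩ := Set.Infinite.exists_accPt_of_subset_isCompact hinf (isCompact_cap R) hsub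
  have hcont : Continuous fun q : E4 × E4 => lor q.1 q.2 ^ 2 := continuous_lor.pow 2
  have hpp : lor p p ^ 2 < 1 + δ := by rw [hp.1]; linarith
  have hU : {q : E4 × E4 | lor q.1 q.2 ^ 2 < 1 + δ} ∈ 𝓝 (p, p) :=
    (isOpen_lt hcont continuous_const).mem_nhds hpp
  rw [nhds_prod_eq, mem_prod_iff] at hU
  obtain ⟨U, hU1, V, hV1, hUV⟩ := hU
  rw [accPt_iff_nhds] at hacc
  obtain ⟨y, ⟨hyU, hyS⟩, hyp⟩ := hacc _ (inter_mem hU1 hV1)
  have hV2 : (U ∩ V) ∩ {y}ᶜ ∈ 𝓝 p :=
    inter_mem (inter_mem hU1 hV1) (isOpen_compl_singleton.mem_nhds hyp.symm)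
  obtain ⟨z, ⟨hzU, hzS⟩, hzp⟩ := hacc _ hV2
  have hyz : y ≠ z := fun h => hzU.2 h.symm
  have h1 := hsep y hyS z hzS hyz
  have h2 : lor y z ^ 2 < 1 + δ := hUV (Set.mk_mem_prod hyU.1 hzU.1.2)
  linarith

theorem specProper (tits : SpecTits) : SpecProper := by
  intro ι _ d x hx R
  obtain ⟨-, hstab, hinj⟩ := tits ι d
  have hbC : d.base ∈ d.C := fun i => (d.base_neg i).le
  -- separation of the orbit of the base point
  obtain ⟨δ, hδ, hδ'⟩ : ∃ δ : ℝ, 0 < δ ∧ ∀ i, δ ≤ lor d.base (d.e i) ^ 2 := by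
    rcases isEmpty_or_nonempty ι with h | h
    · exact ⟨1, one_pos, fun i => (IsEmpty.false i).elim⟩
    · obtain ⟨i0, hi0⟩ := Finite.exists_min fun i => lor d.base (d.e i) ^ 2
      exact ⟨_, lt_of_le_of_ne (sq_nonneg _) (Ne.symm (pow_ne_zero 2 (d.base_neg i0).ne)), hi0⟩
  have hsep1 : ∀ u : d.W, lor d.base (d.rho u d.base) ^ 2 < 1 + δ → u = 1 := by
    intro u hu
    have hC : d.rho u d.base ∈ d.C := by
      intro i
      exact (side_of_close d.base_mem (d.rho_mem_Hyp u d.base_mem) (d.norm i) (d.base_neg i)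
        (lt_of_lt_of_le hu (by linarith [hδ' i]))).le
    have h := (hstab u d.base hbC hC).2
    have he : {i | lor d.base (d.e i) = 0} = ∅ := by
      ext i
      simp only [Set.mem_setOf_eq, Set.mem_empty_iff_false, iff_false]
      exact (d.base_neg i).ne
    rw [he, Set.image_empty, Subgroup.closure_empty, Subgroup.mem_bot] at h
    exact h
  have hsep : ∀ w v : d.W, w ≠ v → 1 + δ ≤ lor (d.rho w d.base) (d.rho v d.base) ^ 2 := by
    intro w v hwv
    by_contra hc
    push Not at hc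
    apply hwv
    have h1 : lor (d.rho w d.base) (d.rho v d.base) = lor d.base (d.rho (w⁻¹ * v) d.base) := by
      rw [← d.lor_rho w d.base, d.rho_mul_apply, d.rho_apply_inv]
    rw [h1] at hc
    have := hsep1 _ hc
    rw [inv_mul_eq_one] at this
    exact this
  -- comparison of `x` with the base point
  have hl : lor x d.base < 0 := Hyp.neg hx (by rw [d.base_mem.1]; norm_num) d.base_mem.2
  set K : ℝ := 2 * (-lor x d.base) + d.base 0 / x 0 + 1 with hK
  have hx0 : 0 < x 0 := hx.2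
  have hb0 : 0 < d.base 0 := d.base_mem.2
  have hK1 : 2 * (-lor x d.base) < K := by
    have : 0 < d.base 0 / x 0 := div_pos hb0 hx0
    rw [hK]; linarith
  have hK0 : 0 < K := by linarith
  have hK2 : d.base 0 < K * x 0 := by
    have h1 : d.base 0 = d.base 0 / x 0 * x 0 := by field_simp
    rw [h1]
    apply mul_lt_mul_of_pos_right _ hx0
    rw [hK]; linarith
  have hcausal : lor (K • x - d.base) (K • x - d.base) ≤ 0 := by
    rw [lor_sub_left, lor_sub_right, lor_sub_right, lor_smul_left, lor_smul_right, lor_smul_left,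
      lor_smul_right, hx.1, d.base_mem.1, lor_comm d.base x]
    nlinarith
  have hfut : 0 < (K • x - d.base) 0 := by
    simp only [Pi.sub_apply, Pi.smul_apply, smul_eq_mul]
    linarith
  have hbd : ∀ w : d.W, (d.rho w x) 0 ≤ R → (d.rho w d.base) 0 ≤ K * R := by
    intro w hw
    have h1 := d.rho_future w hcausal hfut
    rw [map_sub, map_smul] at h1
    simp only [Pi.sub_apply, Pi.smul_apply, smul_eq_mul] at h1
    nlinarith
  -- the finite set
  have hfin : ((fun w : d.W => d.rho w d.base) '' {w : d.W | (d.rho w x) 0 ≤ R}).Finite := by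
    refine finite_of_separated (R := K * R) (δ := δ) ?_ ?_ hδ ?_
    · rintro _ ⟨w, _, rfl⟩
      exact d.rho_mem_Hyp w d.base_mem
    · rintro _ ⟨w, hw, rfl⟩
      exact hbd w hw
    · rintro _ ⟨w, _, rfl⟩ _ ⟨v, _, rfl⟩ hne
      exact hsep w v (fun h => hne (by rw [h]))
  refine Set.Finite.of_finite_image hfin ?_
  intro w _ v _ hwv
  by_contra hne
  have h1 := hsep w v hne
  have hwv' : d.rho w d.base = d.rho v d.base := hwv
  rw [hwv', d.lor_rho, d.base_mem.1] at h1
  linarith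

end EqVol
end
end

section
set_option linter.all false

/-!
# Module UNIP: facts about parabolic isometries
-/

noncomputable section

open MeasureTheory

namespace EqVol

namespace Unip

/-- the nilpotent part -/
lemma iso_sub {g : Lin} (hg : ∀ x y, lor (g x) (g y) = lor x y) (x y : E4) :
    lor (g x - x) y + lor x (g y - y) + lor (g x - x) (g y - y) = 0 := by
  have h := hg x y
  simp only [lor_sub_left, lor_sub_right]
  linarith

/-- A unipotent isometry which fixes a timelike vector is trivial. -/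
lemma eq_one_of_fix {g : Lin} (hg : ∀ x y, lor (g x) (g y) = lor x y)
    (hN : ((g : E4 →ₗ[ℝ] E4) - 1) ^ 3 = 0) {u : E4} (hu : lor u u < 0) (hgu : g u = u) :
    g = 1 := by
  -- `N x` is orthogonal to `u`
  have horth : ∀ x, lor u (g x - x) = 0 := by
    intro x
    have h := iso_sub hg u x
    rw [hgu, sub_self, lor_zero_left, lor_zero_left] at h
    linarith
  have hstep : ∀ x, g (g x - x) - (g x - x) = 0 → g x - x = 0 := by
    intro x hx
    have h := iso_sub hg x (g x - x)
    rw [hx] at h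
    have h2 : lor (g x - x) (g x - x) = 0 := by
      have e1 : lor x 0 = 0 := lor_zero_right x
      have e2 : lor (g x - x) 0 = 0 := lor_zero_right _
      rw [e1, e2] at h
      linarith
    exact eq_zero_of_orth hu (horth x) h2.le
  have hcube : ∀ x, g (g (g x - x) - (g x - x)) - (g (g x - x) - (g x - x)) = 0 := by
    intro x
    have h := LinearMap.congr_fun hN x
    simpa [pow_succ, Module.End.mul_apply] using h
  ext1 x
  have h1 := hcube x
  have h2 := hstep (g x - x) h1
  have h3 := hstep x h2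
  exact sub_eq_zero.1 h3

/-- Two null vectors which are not timelike related are proportional. -/
lemma null_parallel {p q : E4} (hp : lor p p = 0) (hp0 : 0 < p 0) (hq : lor q q = 0)
    (hq0 : 0 < q 0) (h : 0 ≤ lor p q) : ∃ t : ℝ, 0 < t ∧ q = t • p := by
  refine ⟨q 0 / p 0, div_pos hq0 hp0, ?_⟩
  simp only [lor] at hp hq h
  have h1 : (q 0 * p 1 - p 0 * q 1) ^ 2 + (q 0 * p 2 - p 0 * q 2) ^ 2 +
      (q 0 * p 3 - p 0 * q 3) ^ 2 ≤ 0 := by
    have e : (q 0 * p 1 - p 0 * q 1) ^ 2 + (q 0 * p 2 - p 0 * q 2) ^ 2 +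
      (q 0 * p 3 - p 0 * q 3) ^ 2 = q 0 ^ 2 * (p 1 * p 1 + p 2 * p 2 + p 3 * p 3) +
      p 0 ^ 2 * (q 1 * q 1 + q 2 * q 2 + q 3 * q 3) -
      2 * (p 0 * q 0) * (p 1 * q 1 + p 2 * q 2 + p 3 * q 3) := by ring
    rw [e]
    have e1 : p 1 * p 1 + p 2 * p 2 + p 3 * p 3 = p 0 * p 0 := by linarith
    have e2 : q 1 * q 1 + q 2 * q 2 + q 3 * q 3 = q 0 * q 0 := by linarith
    have e3 : p 0 * q 0 ≤ p 1 * q 1 + p 2 * q 2 + p 3 * q 3 := by linarith
    rw [e1, e2]
    nlinarith [mul_pos hp0 hq0, mul_le_mul_of_nonneg_left e3 (mul_pos hp0 hq0).le]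
  have a1 : q 0 * p 1 - p 0 * q 1 = 0 := by
    nlinarith [sq_nonneg (q 0 * p 1 - p 0 * q 1), sq_nonneg (q 0 * p 2 - p 0 * q 2),
      sq_nonneg (q 0 * p 3 - p 0 * q 3)]
  have a2 : q 0 * p 2 - p 0 * q 2 = 0 := by
    nlinarith [sq_nonneg (q 0 * p 1 - p 0 * q 1), sq_nonneg (q 0 * p 2 - p 0 * q 2),
      sq_nonneg (q 0 * p 3 - p 0 * q 3)]
  have a3 : q 0 * p 3 - p 0 * q 3 = 0 := by
    nlinarith [sq_nonneg (q 0 * p 1 - p 0 * q 1), sq_nonneg (q 0 * p 2 - p 0 * q 2),
      sq_nonneg (q 0 * p 3 - p 0 * q 3)]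
  funext i
  fin_cases i
  · simp [div_mul_cancel₀ _ hp0.ne']
  · simp only [Fin.mk_one, Pi.smul_apply, smul_eq_mul]
    field_simp
    linarith
  · simp only [Fin.reduceFinMk, Pi.smul_apply, smul_eq_mul]
    field_simp
    linarith
  · simp only [Fin.reduceFinMk, Pi.smul_apply, smul_eq_mul]
    field_simp
    linarith

end Unip

open Unip in
/-- Module UNIP. -/
theorem specUnip : SpecUnip := by
  refine ⟨?_, ?_⟩
  · intro g hg hpar p q hp hp0 hq hq0 hgp hgq
    refine null_parallel hp hp0 hq hq0 ?_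
    by_contra hcon
    push Not at hcon
    refine hpar.1 (eq_one_of_fix hg hpar.2 (u := p + q) ?_ ?_)
    · rw [lor_add_left, lor_add_right, lor_add_right, hp, hq, lor_comm q p]
      linarith
    · rw [map_add, hgp, hgq]
  · intro g hg hpar x hx hgx
    refine hpar.1 (eq_one_of_fix hg hpar.2 (u := x) ?_ hgx)
    rw [hx.1]
    norm_num

end EqVol
end
end

section
set_option linter.all false

/-!
# Module PARAB: the parabolic elements of the group of `P`
-/

noncomputable section

open MeasureTheory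

namespace EqVol

namespace Parab

lemma castE_sub (x y : Fin 4 → ℤ) : castE (x - y) = castE x - castE y := by
  funext k; simp [castE]

lemma castE_smul (c : ℤ) (x : Fin 4 → ℤ) : castE (c • x) = (c : ℝ) • castE x := by
  funext k; simp [castE]

/-- the group preserves the integral lattice -/
lemma rho_castE (w : dP.W) (z : Fin 4 → ℤ) : ∃ z' : Fin 4 → ℤ, dP.rho w (castE z) = castE z' := by
  induction w using dP.induct generalizing z with
  | one => exact ⟨z, dP.rho_one_apply _⟩
  | mul w i ih =>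
    rw [dP.rho_mul_apply, dP.rho_s_apply]
    obtain ⟨z', hz'⟩ := ih (z - (2 * lorZ z (eP i)) • eP i)
    refine ⟨z', ?_⟩
    rw [← hz']
    congr 1
    rw [castE_sub, castE_smul]
    change castE z - (2 * lor (castE z) (castE (eP i))) • castE (eP i) = _
    rw [lor_castE]
    push_cast
    rfl

lemma lor_castE_base (y : E4) : lor y (castE baseP8) = 8 * lor dP.base y := by
  change _ = 8 * lor ((1 / 8 : ℝ) • castE baseP8) y
  rw [lor_smul_left, lor_comm y]
  ring

/-- every future null integral vector can be moved into the chamber -/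
lemma move {z : Fin 4 → ℤ} (h0 : lor (castE z) (castE z) = 0) (h1 : 0 < castE z 0) :
    ∃ w : dP.W, dP.rho w (castE z) ∈ dP.C := by
  choose zz hzz using fun w : dP.W => rho_castE w z
  have hpos : ∀ w : dP.W, lor (dP.rho w (castE z)) (castE baseP8) < 0 := by
    intro w
    rw [lor_castE_base]
    have h2 : lor (dP.rho w (castE z)) (dP.rho w (castE z)) ≤ 0 := by
      rw [dP.lor_rho, h0]
    have h3 : 0 < dP.rho w (castE z) 0 := dP.rho_future w h0.le h1
    have := Hyp.neg dP.base_mem h2 h3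
    linarith
  have hposZ : ∀ w : dP.W, lorZ (zz w) baseP8 < 0 := by
    intro w
    have := hpos w
    rw [hzz, lor_castE] at this
    exact_mod_cast this
  let m : dP.W → ℕ := fun w => (-lorZ (zz w) baseP8).toNat
  have hm : ∀ w, (m w : ℝ) = -lor (dP.rho w (castE z)) (castE baseP8) := by
    intro w
    have h2 : ((m w : ℤ)) = -lorZ (zz w) baseP8 := Int.toNat_of_nonneg (by have := hposZ w; omega)
    rw [hzz, lor_castE]
    have h3 : ((m w : ℤ) : ℝ) = ((-lorZ (zz w) baseP8 : ℤ) : ℝ) := by rw [h2]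
    push_cast at h3
    exact h3
  obtain ⟨w, hw⟩ : sInf (Set.range m) ∈ Set.range m := Nat.sInf_mem ⟨_, 1, rfl⟩
  have hmin : ∀ w', m w ≤ m w' := fun w' => by
    rw [hw]
    exact Nat.sInf_le ⟨w', rfl⟩
  refine ⟨w, ?_⟩
  intro i
  by_contra hcon
  push Not at hcon
  have h2 := hmin (dP.s i * w)
  have h3 : (m w : ℝ) ≤ m (dP.s i * w) := by exact_mod_cast h2
  rw [hm, hm, dP.rho_mul_apply, dP.rho_s_apply, lor_sub_left, lor_smul_left] at h3
  have h4 : lor (dP.e i) (castE baseP8) < 0 := by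
    rw [lor_castE_base]
    have := dP.base_neg i
    linarith
  have h5 : 0 < (2 * lor (dP.rho w (castE z)) (dP.e i)) * -lor (dP.e i) (castE baseP8) := by
    apply mul_pos
    · linarith
    · linarith
  nlinarith

end Parab

open Parab Unip in
/-- Module PARAB. -/
theorem specParab (hnull : SpecNull) : SpecParab := by
  intro γ hpar
  set g : Lin := dP.rho γ with hgdef
  have hiso : ∀ x y, lor (g x) (g y) = lor x y := dP.lor_rho γ
  have hcube : ∀ x, g (g (g x - x) - (g x - x)) - (g (g x - x) - (g x - x)) = 0 := by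
    intro x
    have h := LinearMap.congr_fun hpar.2 x
    simpa [pow_succ, Module.End.mul_apply] using h
  set b8 : E4 := castE baseP8 with hb8
  have hb8lor : lor b8 b8 < 0 := by
    rw [hb8, lor_castE]
    have : lorZ baseP8 baseP8 = -64 := by decide
    rw [this]; norm_num
  set y : E4 := g b8 - b8 with hy
  set xi : E4 := g y - y with hxi
  have hgxi : g xi = xi := sub_eq_zero.1 (hcube b8)
  have hyne : y ≠ 0 := by
    intro h0
    exact hpar.1 (eq_one_of_fix hiso hpar.2 hb8lor (sub_eq_zero.1 h0))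
  have hxine : xi ≠ 0 := by
    intro h0
    have h1 := iso_sub hiso b8 y
    rw [← hy, ← hxi, h0, lor_zero_right, lor_zero_right] at h1
    have h2 := iso_sub hiso b8 b8
    rw [← hy, lor_comm y b8] at h2
    have h3 : lor y y = 0 := by linarith
    have h4 : lor b8 y = 0 := by linarith
    exact hyne (eq_zero_of_orth hb8lor h4 h3.le)
  have hxinull : lor xi xi = 0 := by
    have h1 := iso_sub hiso y xi
    rw [← hxi, hgxi, sub_self, lor_zero_right, lor_zero_right] at h1
    linarith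
  -- integrality
  obtain ⟨z1, hz1⟩ := rho_castE γ baseP8
  obtain ⟨z2, hz2⟩ := rho_castE γ (z1 - baseP8)
  have hyz : y = castE (z1 - baseP8) := by
    rw [hy, hb8, castE_sub, hgdef, hz1]
  have hxiz : xi = castE (z2 - (z1 - baseP8)) := by
    rw [hxi, castE_sub, hyz, hgdef, hz2]
  -- a future null integral vector fixed by `g`
  obtain ⟨z, hz0, hzpos, hzfix⟩ : ∃ z : Fin 4 → ℤ, lor (castE z) (castE z) = 0 ∧
      0 < castE z 0 ∧ g (castE z) = castE z := by
    have h0 := time_ne_zero hxinull.le hxine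
    rcases lt_or_gt_of_ne h0 with h | h
    · refine ⟨-(z2 - (z1 - baseP8)), ?_, ?_, ?_⟩
      all_goals
        have e : castE (-(z2 - (z1 - baseP8))) = -xi := by
          rw [hxiz]; funext k; simp [castE]
        rw [e]
      · rw [lor_neg_left, lor_neg_right, neg_neg, hxinull]
      · simpa using h
      · rw [map_neg, hgxi]
    · refine ⟨z2 - (z1 - baseP8), ?_, ?_, ?_⟩
      all_goals rw [← hxiz]
      · exact hxinull
      · exact h
      · exact hgxi
  obtain ⟨w, hw⟩ := move hz0 hzpos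
  have h1 : lor (dP.rho w (castE z)) (dP.rho w (castE z)) = 0 := by rw [dP.lor_rho, hz0]
  have h2 : 0 < dP.rho w (castE z) 0 := dP.rho_future w hz0.le hzpos
  obtain ⟨j, t, ht, hj⟩ := hnull _ h1 h2 hw
  refine ⟨w, j, ?_⟩
  have h3 : dP.rho (w * γ * w⁻¹) (dP.rho w (castE z)) = dP.rho w (castE z) := by
    rw [dP.rho_mul_apply, dP.rho_inv_apply, dP.rho_mul_apply]
    change dP.rho w (g (castE z)) = _
    rw [hzfix]
  rw [hj, map_smul] at h3
  have h4 := congrArg (fun v => t⁻¹ • v) h3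
  simpa [smul_smul, inv_mul_cancel₀ ht.ne'] using h4

end EqVol
end
end

section
set_option linter.all false

/-!
# The fillings (module QUOT)
-/

noncomputable section

namespace EqVol

namespace QUOT

/-- the restriction of `fill` to the kernels of the colourings -/
def phi : dP.K fP →* dD.K fD :=
  (fill.comp (dP.K fP).subtype).codRestrict (dD.K fD) (fun x => by
    change dD.col fD (fill x) = 1
    rw [col_fill]
    exact x.2)

lemma phi_coe (x : dP.K fP) : ((phi x : dD.K fD) : dD.W) = fill x := rfl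

lemma phi_surj (hs : Function.Surjective fill) : Function.Surjective phi := by
  rintro ⟨v, hv⟩
  obtain ⟨w, rfl⟩ := hs v
  have hw : w ∈ dP.K fP := by
    change dP.col fP w = 1
    rw [← col_fill]
    exact hv
  exact ⟨⟨w, hw⟩, Subtype.ext rfl⟩

/-- the kernel of the colouring of `P` is its group of isometries -/
def eqP (h : Function.Injective dP.rho) : dP.K fP ≃* dP.Γ fP :=
  (dP.K fP).equivMapOfInjective dP.rho h

/-- the kernel of the colouring of `D` is its group of isometries -/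
def eqD (h : Function.Injective dD.rho) : dD.K fD ≃* dD.Γ fD :=
  (dD.K fD).equivMapOfInjective dD.rho h

/-- the map between the groups of isometries -/
def Phi (hP : Function.Injective dP.rho) (hD : Function.Injective dD.rho) :
    dP.Γ fP →* dD.Γ fD :=
  ((eqD hD).toMonoidHom.comp phi).comp (eqP hP).symm.toMonoidHom

lemma Phi_surj (hP : Function.Injective dP.rho) (hD : Function.Injective dD.rho)
    (hs : Function.Surjective fill) : Function.Surjective (Phi hP hD) :=
  ((eqD hD).surjective.comp (phi_surj hs)).comp (eqP hP).symm.surjective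

lemma eqP_coe (hP : Function.Injective dP.rho) (x : dP.K fP) :
    ((eqP hP x : dP.Γ fP) : Lin) = dP.rho x := rfl

lemma mem_ker (hP : Function.Injective dP.rho) (hD : Function.Injective dD.rho)
    (x : dP.K fP) : eqP hP x ∈ (Phi hP hD).ker ↔ fill x = 1 := by
  rw [MonoidHom.mem_ker]
  have h1 : Phi hP hD (eqP hP x) = eqD hD (phi x) := by
    change eqD hD (phi ((eqP hP).symm (eqP hP x))) = _
    rw [MulEquiv.symm_apply_apply]
  rw [h1]
  constructor
  · intro h
    have h2 : phi x = 1 := (eqD hD).injective (by rw [h, map_one])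
    have h3 := congrArg (fun y : dD.K fD => (y : dD.W)) h2
    exact h3
  · intro h
    have h2 : phi x = 1 := Subtype.ext h
    rw [h2, map_one]

lemma rel_one : rel 1 = tA 1 := by
  change tA 1 ^ vm 1 = tA 1
  have : vm 1 = 1 := by decide
  rw [this, pow_one]

lemma fill_rel (pi : SpecPi) (j : Fin 15) : fill (rel j) = 1 := by
  rw [← MonoidHom.mem_ker, pi.2.1]
  exact Subgroup.subset_normalClosure ⟨j, rfl⟩

lemma fill_tB (pi : SpecPi) : fill (tB 1) ^ 2 = 1 := by
  rw [← map_pow, ← MonoidHom.mem_ker, pi.2.1]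
  refine Subgroup.normalClosure_mono ?_ pi.2.2
  rintro _ ⟨j, _, rfl⟩
  exact ⟨j, rfl⟩

lemma fill_special (pi : SpecPi) (k : ℤ) : fill (tA 1 * tB 1 ^ (2 * k)) = 1 := by
  rw [map_mul, ← rel_one, fill_rel pi, one_mul, map_zpow, zpow_mul]
  have : fill (tB 1) ^ (2 : ℤ) = 1 := by
    rw [show (2 : ℤ) = ((2 : ℕ) : ℤ) from rfl, zpow_natCast]; exact fill_tB pi
  rw [this, one_zpow]

lemma fill_slope (pi : SpecPi) (k : ℤ) {x : dP.W} (hx : x ∈ slopeSet k) : fill x = 1 := by
  rcases hx with ⟨w, j, _, rfl | rfl⟩ | ⟨g, _, rfl | rfl⟩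
  · rw [map_mul, map_mul, fill_rel pi, mul_one, map_inv, mul_inv_cancel]
  · rw [map_inv, map_mul, map_mul, fill_rel pi, mul_one, map_inv, mul_inv_cancel, inv_one]
  · rw [map_mul, map_mul, fill_special pi, mul_one, map_inv, mul_inv_cancel]
  · rw [map_inv, map_mul, map_mul, fill_special pi, mul_one, map_inv, mul_inv_cancel, inv_one]

/-- the elements of the Coxeter group whose image is in the normal closure of the slopes -/
def N (k : ℤ) : Subgroup dP.W :=
  ((Subgroup.normalClosure (slopes k)).map (dP.Γ fP).subtype).comap dP.rho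

lemma mem_N {k : ℤ} {x : dP.W} :
    x ∈ N k ↔ ∃ σ ∈ Subgroup.normalClosure (slopes k), (σ : Lin) = dP.rho x := Iff.rfl

lemma K_normal {g w : dP.W} (hg : g ∈ dP.K fP) : w * g * w⁻¹ ∈ dP.K fP := by
  have : (dP.K fP).Normal := MonoidHom.normal_ker _
  exact this.conj_mem g hg w

lemma slope_mem_N {k : ℤ} {x : dP.W} (hx : x ∈ slopeSet k) (hK : x ∈ dP.K fP) : x ∈ N k := by
  refine mem_N.2 ⟨⟨dP.rho x, ⟨x, hK, rfl⟩⟩, Subgroup.subset_normalClosure ⟨x, hx, rfl⟩, rfl⟩

lemma rel_mem_N (cusp : SpecCusp) (k : ℤ) (w : dP.W) (j : Fin 15) (hj : j ≠ 1) :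
    w * rel j * w⁻¹ ∈ N k :=
  slope_mem_N (Or.inl ⟨w, j, hj, Or.inl rfl⟩) (K_normal (cusp.2.2.2.2.2.2.1 j))

lemma le_N (cusp : SpecCusp) (k : ℤ) : Subgroup.normalClosure (rel '' {j | j ≠ 1}) ≤ N k := by
  rw [Subgroup.normalClosure, Subgroup.closure_le]
  intro x hx
  obtain ⟨y, ⟨j, hj, rfl⟩, hxy⟩ := Group.mem_conjugatesOfSet_iff.1 hx
  obtain ⟨w, rfl⟩ := isConj_iff.1 hxy
  exact rel_mem_N cusp k w j hj

lemma rel_one_mem_N (pi : SpecPi) (cusp : SpecCusp) (k : ℤ) {g : dP.W} (hg : g ∈ dP.K fP) :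
    g * rel 1 * g⁻¹ ∈ N k := by
  have h1 : g * (tA 1 * tB 1 ^ (2 * k)) * g⁻¹ ∈ N k :=
    slope_mem_N (Or.inr ⟨g, hg, Or.inl rfl⟩) (K_normal (cusp.2.2.2.2.2.2.2.1 k))
  have h2 : g * (tB 1 ^ (2 * k)) * g⁻¹ ∈ N k := by
    apply le_N cusp k
    apply Subgroup.normalClosure_normal.conj_mem
    rw [zpow_mul]
    apply Subgroup.zpow_mem
    rw [show (2 : ℤ) = ((2 : ℕ) : ℤ) from rfl, zpow_natCast]
    exact pi.2.2
  have h3 : g * rel 1 * g⁻¹ =
      g * (tA 1 * tB 1 ^ (2 * k)) * g⁻¹ * (g * (tB 1 ^ (2 * k)) * g⁻¹)⁻¹ := by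
    rw [rel_one]; group
  rw [h3]
  exact (N k).mul_mem h1 ((N k).inv_mem h2)

lemma conj_rel_mem_N (pi : SpecPi) (cusp : SpecCusp) (k : ℤ) (w : dP.W) (j : Fin 15) :
    w * rel j * w⁻¹ ∈ N k := by
  by_cases hj : j = 1
  · subst hj
    obtain ⟨h, h1, h2⟩ := cusp.2.2.2.2.2.1 w
    have h4 : w * rel 1 * w⁻¹ = (w * h⁻¹) * (h * rel 1 * h⁻¹) * (w * h⁻¹)⁻¹ := by group
    rcases cusp.2.2.2.2.1 1 h h1 with h3 | h3
    · rw [h4, h3]
      exact rel_one_mem_N pi cusp k h2
    · rw [h4, h3]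
      have h5 := (N k).inv_mem (rel_one_mem_N pi cusp k h2)
      have h6 : (w * h⁻¹) * (rel 1)⁻¹ * (w * h⁻¹)⁻¹ = ((w * h⁻¹) * rel 1 * (w * h⁻¹)⁻¹)⁻¹ := by
        group
      rw [h6]
      exact h5
  · exact rel_mem_N cusp k w j hj

lemma ker_le_N (pi : SpecPi) (cusp : SpecCusp) (k : ℤ) : fill.ker ≤ N k := by
  rw [pi.2.1, Subgroup.normalClosure, Subgroup.closure_le]
  intro x hx
  obtain ⟨y, ⟨j, rfl⟩, hxy⟩ := Group.mem_conjugatesOfSet_iff.1 hx
  obtain ⟨w, rfl⟩ := isConj_iff.1 hxy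
  exact conj_rel_mem_N pi cusp k w j

lemma normalClosure_eq (tits : SpecTits) (pi : SpecPi) (cusp : SpecCusp) (k : ℤ)
    (hP : Function.Injective dP.rho) (hD : Function.Injective dD.rho) :
    Subgroup.normalClosure (slopes k) = (Phi hP hD).ker := by
  apply le_antisymm
  · apply Subgroup.normalClosure_le_normal
    rintro σ ⟨x, hx, hσ⟩
    obtain ⟨y, rfl⟩ := (eqP hP).surjective σ
    have h1 : (y : dP.W) = x := hP hσ
    change _ ∈ (Phi hP hD).ker
    rw [mem_ker, h1]
    exact fill_slope pi k hx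
  · intro σ hσ
    obtain ⟨y, rfl⟩ := (eqP hP).surjective σ
    rw [mem_ker] at hσ
    obtain ⟨τ, h1, h2⟩ := mem_N.1 (ker_le_N pi cusp k hσ)
    have h3 : eqP hP y = τ := Subtype.ext h2.symm
    rw [h3]
    exact h1

end QUOT

open QUOT in
theorem specQuot (tits : SpecTits) (pi : SpecPi) (cusp : SpecCusp) : SpecQuot := by
  intro k
  have hP : Function.Injective dP.rho := (tits (Fin 17) dP).2.2
  have hD : Function.Injective dD.rho := (tits (Fin 12) dD).2.2
  exact ⟨(QuotientGroup.quotientMulEquivOfEq (normalClosure_eq tits pi cusp k hP hD)).trans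
    (QuotientGroup.quotientKerEquivOfSurjective (Phi hP hD) (Phi_surj hP hD pi.1))⟩

end EqVol
end
end

section
set_option linter.all false

/-!
# The systems of slopes (module SLOPES)
-/

noncomputable section

namespace EqVol

/-- the slope at the vertex `j` -/
def sl (k : ℤ) (j : Fin 15) : dP.W := if j = 1 then tA 1 * tB 1 ^ (2 * k) else rel j

/-- the exponents of the slope at the vertex `j` -/
def mA (j : Fin 15) : ℤ := if j = 1 then 1 else vm j
def lB (k : ℤ) (j : Fin 15) : ℤ := if j = 1 then 2 * k else 0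

lemma sl_eq (k : ℤ) (j : Fin 15) : sl k j = tA j ^ mA j * tB j ^ lB k j := by
  by_cases h : j = 1
  · subst h
    simp [sl, mA, lB]
  · simp [sl, mA, lB, h, rel]

lemma mA_ne (j : Fin 15) : mA j ≠ 0 := by
  revert j; decide

lemma mem_slopeSet {k : ℤ} {x : dP.W} : x ∈ slopeSet k ↔ ∃ (w : dP.W) (j : Fin 15),
    (j = 1 → w ∈ dP.K fP) ∧ (x = w * sl k j * w⁻¹ ∨ x = (w * sl k j * w⁻¹)⁻¹) := by
  constructor
  · rintro (⟨w, j, hj, h⟩ | ⟨g, hg, h⟩)
    · exact ⟨w, j, fun h1 => absurd h1 hj, by rw [sl, if_neg hj]; exact h⟩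
    · exact ⟨g, 1, fun _ => hg, by rw [sl, if_pos rfl]; exact h⟩
  · rintro ⟨w, j, hj, h⟩
    by_cases h1 : j = 1
    · subst h1
      rw [sl, if_pos rfl] at h
      exact Or.inr ⟨w, hj rfl, h⟩
    · rw [sl, if_neg h1] at h
      exact Or.inl ⟨w, j, h1, h⟩

lemma isParabolic_conj {g h : Lin} (hp : IsParabolic h) : IsParabolic (g * h * g⁻¹) := by
  obtain ⟨h1, h2⟩ := hp
  refine ⟨fun e => h1 ?_, ?_⟩
  · have : h = g⁻¹ * (g * h * g⁻¹) * g := by group
    rw [this, e]; group
  · have e1 : ((g * h * g⁻¹ : Lin) : E4 →ₗ[ℝ] E4) - 1 =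
        (g : E4 →ₗ[ℝ] E4) * ((h : E4 →ₗ[ℝ] E4) - 1) * ((g⁻¹ : Lin) : E4 →ₗ[ℝ] E4) := by
      apply LinearMap.ext
      intro x
      change g (h (g⁻¹ x)) - x = g (h (g⁻¹ x) - g⁻¹ x)
      rw [map_sub]
      congr 1
      change x = (g * g⁻¹) x
      rw [mul_inv_cancel]; rfl
    have e2 : ((g⁻¹ : Lin) : E4 →ₗ[ℝ] E4) * (g : E4 →ₗ[ℝ] E4) = 1 := by
      apply LinearMap.ext
      intro x
      change (g⁻¹ * g) x = x
      rw [inv_mul_cancel]; rfl
    rw [e1]
    set N := (h : E4 →ₗ[ℝ] E4) - 1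
    set A := (g : E4 →ₗ[ℝ] E4)
    set B := ((g⁻¹ : Lin) : E4 →ₗ[ℝ] E4)
    have : (A * N * B) ^ 3 = A * N * (B * A) * N * (B * A) * N * B := by
      rw [pow_succ, pow_two]; noncomm_ring
    rw [this, e2]
    have : A * N * 1 * N * 1 * N * B = A * N ^ 3 * B := by rw [pow_succ, pow_two]; noncomm_ring
    rw [this, h2]
    noncomm_ring

section

variable (tits : SpecTits) (unip : SpecUnip) (cusp : SpecCusp)
include cusp

lemma sl_inv (k : ℤ) (j : Fin 15) : (sl k j)⁻¹ = tA j ^ (-mA j) * tB j ^ (-lB k j) := by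
  have hc := cusp.2.2.1 j
  rw [sl_eq, mul_inv_rev, ← zpow_neg, ← zpow_neg]
  exact ((hc.zpow_left _).zpow_right _).symm.eq

lemma sl_fix (k : ℤ) (j : Fin 15) : dP.rho (sl k j) (pV j) = pV j := by
  rw [sl_eq]; exact (cusp.2.1 j _ _).1

lemma sl_parab (k : ℤ) (j : Fin 15) : IsParabolic (dP.rho (sl k j)) := by
  rw [sl_eq]; exact (cusp.2.1 j _ _).2 (fun h => mA_ne j h.1)

lemma sl_parab' (k : ℤ) (j : Fin 15) : IsParabolic (dP.rho (sl k j)⁻¹) := by
  rw [sl_inv cusp]
  exact (cusp.2.1 j _ _).2 (fun h => mA_ne j (by simpa using h.1))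

lemma conj_fix (k : ℤ) (j : Fin 15) (w : dP.W) :
    dP.rho (w * sl k j * w⁻¹) (dP.rho w (pV j)) = dP.rho w (pV j) := by
  rw [dP.rho_mul_apply, dP.rho_inv_apply, dP.rho_mul_apply, sl_fix cusp]

lemma conj_parab (k : ℤ) (j : Fin 15) (w : dP.W) : IsParabolic (dP.rho (w * sl k j * w⁻¹)) := by
  rw [map_mul, map_mul, map_inv]
  exact isParabolic_conj (sl_parab cusp k j)

lemma slope_parab {k : ℤ} {x : dP.W} (hx : x ∈ slopeSet k) : IsParabolic (dP.rho x) := by
  obtain ⟨w, j, -, rfl | rfl⟩ := mem_slopeSet.1 hx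
  · exact conj_parab cusp k j w
  · have : (w * sl k j * w⁻¹)⁻¹ = w * (sl k j)⁻¹ * w⁻¹ := by group
    rw [this, map_mul, map_mul, map_inv dP.rho w]
    exact isParabolic_conj (sl_parab' cusp k j)

lemma sl_mem_K (k : ℤ) (j : Fin 15) : sl k j ∈ dP.K fP := by
  by_cases h : j = 1
  · rw [sl, if_pos h]; exact cusp.2.2.2.2.2.2.2.1 k
  · rw [sl, if_neg h]; exact cusp.2.2.2.2.2.2.1 j

lemma slope_mem_K {k : ℤ} {x : dP.W} (hx : x ∈ slopeSet k) : x ∈ dP.K fP := by
  haveI : (dP.K fP).Normal := by unfold Datum.K; infer_instance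
  have h : ∀ (w : dP.W) (j : Fin 15), w * sl k j * w⁻¹ ∈ dP.K fP := fun w j =>
    Subgroup.Normal.conj_mem inferInstance _ (sl_mem_K cusp k j) w
  obtain ⟨w, j, -, rfl | rfl⟩ := mem_slopeSet.1 hx
  · exact h w j
  · exact inv_mem (h w j)

include tits

omit cusp in
/-- translates of ideal vertices -/
lemma same_vertex {w w' : dP.W} {j j' : Fin 15} {t : ℝ} (ht : 0 < t)
    (h : dP.rho w (pV j) = t • dP.rho w' (pV j')) :
    j = j' ∧ dP.rho (w'⁻¹ * w) (pV j) = pV j := by
  have h1 : dP.rho (w'⁻¹ * w) (pV j) = t • pV j' := by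
    rw [dP.rho_mul_apply, h, map_smul, dP.rho_inv_apply]
  have h2 := ((tits _ dP).2.1 (w'⁻¹ * w) (pV j) (pV_mem_C j)
    (by rw [h1]; exact dP.smul_mem_C (pV_mem_C j') ht.le)).1
  refine ⟨?_, h2⟩
  rw [h1] at h2
  have h3 : ∀ i, (i = va j ∨ i = vc j ∨ i = vb j ∨ i = vd j) ↔
      (i = va j' ∨ i = vc j' ∨ i = vb j' ∨ i = vd j') := by
    intro i
    rw [← pV_orth, ← pV_orth, ← h2, lor_smul_left]
    constructor
    · intro h4
      exact (mul_eq_zero.1 h4).resolve_left ht.ne'
    · intro h4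
      rw [h4, mul_zero]
  revert j j'
  intro j j' _ _ _ h3
  clear * - h3
  revert j j'
  decide

include unip

/-- elements commuting with a slope fix its vertex -/
lemma fix_of_commute {k : ℤ} {w δ : dP.W} {j : Fin 15} (h : Commute δ (w * sl k j * w⁻¹)) :
    dP.rho (w⁻¹ * δ * w) (pV j) = pV j := by
  have hp : 0 < dP.rho w (pV j) 0 := dP.rho_future w (pV_null j).le (pV_pos j)
  have hp0 : lor (dP.rho w (pV j)) (dP.rho w (pV j)) = 0 := by rw [dP.lor_rho, pV_null]
  have hq : 0 < dP.rho δ (dP.rho w (pV j)) 0 := dP.rho_future δ hp0.le hp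
  have hq0 : lor (dP.rho δ (dP.rho w (pV j))) (dP.rho δ (dP.rho w (pV j))) = 0 := by
    rw [dP.lor_rho, hp0]
  obtain ⟨t, ht, h1⟩ := unip.1 (dP.rho (w * sl k j * w⁻¹)) (dP.lor_rho _) (conj_parab cusp k j w)
    _ _ hp0 hp hq0 hq (conj_fix cusp k j w) (by
      rw [← dP.rho_mul_apply, ← h.eq, dP.rho_mul_apply, conj_fix cusp])
  have h2 : dP.rho (δ * w) (pV j) = t • dP.rho w (pV j) := by rw [dP.rho_mul_apply, h1]
  have h3 := (same_vertex tits ht h2).2
  rwa [← mul_assoc] at h3

lemma form_of_commute {k : ℤ} {w δ : dP.W} {j : Fin 15} (hδ : δ ∈ dP.K fP)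
    (h : Commute δ (w * sl k j * w⁻¹)) :
    ∃ a b : ℤ, δ = w * (tA j ^ a * tB j ^ b) * w⁻¹ := by
  haveI : (dP.K fP).Normal := by unfold Datum.K; infer_instance
  have h1 := fix_of_commute tits unip cusp h
  have h2 : w⁻¹ * δ * w ∈ dP.K fP := by
    have := Subgroup.Normal.conj_mem (inferInstance : (dP.K fP).Normal) δ hδ w⁻¹
    rwa [inv_inv] at this
  obtain ⟨a, b, h3⟩ := cusp.1 j _ h2 h1
  refine ⟨a, b, ?_⟩
  rw [← h3]; group

/-- primitivity -/
lemma slope_primitive {k : ℤ} {x δ : dP.W} (hx : x ∈ slopeSet k) (hδ : δ ∈ dP.K fP) (n : ℕ)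
    (h : δ ^ n = x) : n = 1 := by
  haveI : (dP.K fP).Normal := by unfold Datum.K; infer_instance
  obtain ⟨w, j, -, hx⟩ := mem_slopeSet.1 hx
  have hc : Commute δ (w * sl k j * w⁻¹) := by
    have h1 : Commute δ x := by rw [← h]; exact (Commute.refl δ).pow_right n
    rcases hx with hx | hx
    · rwa [hx] at h1
    · rw [hx] at h1
      have := h1.inv_right
      rwa [inv_inv] at this
  obtain ⟨a, b, h1⟩ := form_of_commute tits unip cusp hδ hc
  have hcomm := cusp.2.2.1 j
  have h2 : δ ^ n = w * (tA j ^ (n * a) * tB j ^ (n * b)) * w⁻¹ := by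
    rw [h1, conj_pow, ((hcomm.zpow_left a).zpow_right b).mul_pow, ← zpow_natCast, ← zpow_natCast,
      ← zpow_mul, ← zpow_mul, mul_comm a, mul_comm b]
  obtain ⟨ε, hε, h3⟩ : ∃ ε : ℤ, (ε = 1 ∨ ε = -1) ∧
      δ ^ n = w * (tA j ^ (ε * mA j) * tB j ^ (ε * lB k j)) * w⁻¹ := by
    rcases hx with hx | hx
    · exact ⟨1, Or.inl rfl, by rw [h, hx, sl_eq, one_mul, one_mul]⟩
    · refine ⟨-1, Or.inr rfl, ?_⟩
      have : (w * sl k j * w⁻¹)⁻¹ = w * (sl k j)⁻¹ * w⁻¹ := by group
      rw [h, hx, this, sl_inv cusp, neg_one_mul, neg_one_mul]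
  rw [h2] at h3
  have h4 : tA j ^ (n * a) * tB j ^ (n * b) = tA j ^ (ε * mA j) * tB j ^ (ε * lB k j) :=
    mul_left_cancel (mul_right_cancel h3)
  obtain ⟨h5, h6⟩ := cusp.2.2.2.1 j _ _ _ _ h4
  have hn : ∀ q : ℤ, (n : ℤ) * q = ε → n = 1 := by
    intro q hq
    have h7 : (n : ℤ) ∣ 1 := by
      rcases hε with rfl | rfl
      · exact ⟨q, hq.symm⟩
      · exact ⟨-q, by rw [mul_neg, hq, neg_neg]⟩
    have := Int.eq_one_of_dvd_one (by positivity) h7
    exact_mod_cast this
  by_cases hj : j = 1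
  · rw [mA, if_pos hj, mul_one] at h5
    exact hn a h5
  · rw [lB, if_neg hj, mul_zero] at h6
    have hn0 : (n : ℤ) ≠ 0 := by
      intro h0
      rw [h0, zero_mul] at h5
      have := mA_ne j
      rcases hε with rfl | rfl <;> simp at h5 <;> omega
    have hb : b = 0 := (mul_eq_zero.1 h6).resolve_left hn0
    have h7 : tA j ^ a ∈ dP.K fP := by
      have h8 := Subgroup.Normal.conj_mem (inferInstance : (dP.K fP).Normal) δ hδ w⁻¹
      have h9 : w⁻¹ * δ * w⁻¹⁻¹ = tA j ^ a := by
        rw [h1, hb, zpow_zero, mul_one]; group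
      rwa [h9] at h8
    obtain ⟨m, hm⟩ := cusp.2.2.2.2.2.2.2.2 j a h7
    have h8 : tA j ^ a * tB j ^ (0 : ℤ) = tA j ^ ((vm j : ℤ) * m) * tB j ^ (0 : ℤ) := by
      rw [hm, rel, ← zpow_natCast, ← zpow_mul]
    have h9 := (cusp.2.2.2.1 j _ _ _ _ h8).1
    rw [mA, if_neg hj, h9] at h5
    have hv : (vm j : ℤ) ≠ 0 := by
      have := mA_ne j
      rwa [mA, if_neg hj] at this
    refine hn m ?_
    have : (vm j : ℤ) * ((n : ℤ) * m) = vm j * ε := by linarith
    exact mul_left_cancel₀ hv this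

/-- two commuting slopes agree up to inversion -/
lemma slope_unique {k : ℤ} {x y : dP.W} (hx : x ∈ slopeSet k) (hy : y ∈ slopeSet k)
    (h : Commute x y) : y = x ∨ y = x⁻¹ := by
  obtain ⟨w, j, hw, hx⟩ := mem_slopeSet.1 hx
  obtain ⟨w', j', hw', hy⟩ := mem_slopeSet.1 hy
  set σ := w * sl k j * w⁻¹ with hσ
  set τ := w' * sl k j' * w'⁻¹ with hτ
  have hc : Commute σ τ := by
    have h1 : Commute σ y := by
      rcases hx with rfl | rfl
      · exact h
      · have := h.inv_left; rwa [inv_inv] at this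
    rcases hy with rfl | rfl
    · exact h1
    · have := h1.inv_right; rwa [inv_inv] at this
  have key : τ = σ ∨ τ = σ⁻¹ := by
    have h1 := fix_of_commute tits unip cusp (w := w) (j := j) (k := k) (δ := τ) hc.symm
    have h2 : dP.rho τ (dP.rho w (pV j)) = dP.rho w (pV j) := by
      have : dP.rho w (dP.rho (w⁻¹ * τ * w) (pV j)) = dP.rho w (pV j) := by rw [h1]
      rw [← dP.rho_mul_apply] at this
      rw [← dP.rho_mul_apply]
      convert this using 2
      group
    have hp : ∀ (w : dP.W) (j : Fin 15), 0 < dP.rho w (pV j) 0 := fun w j =>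
      dP.rho_future w (pV_null j).le (pV_pos j)
    have hp0 : ∀ (w : dP.W) (j : Fin 15), lor (dP.rho w (pV j)) (dP.rho w (pV j)) = 0 := by
      intro w j; rw [dP.lor_rho, pV_null]
    obtain ⟨t, ht, h3⟩ := unip.1 (dP.rho τ) (dP.lor_rho _) (conj_parab cusp k j' w')
      _ _ (hp0 w' j') (hp w' j') (hp0 w j) (hp w j) (conj_fix cusp k j' w') h2
    obtain ⟨rfl, h4⟩ := same_vertex tits ht h3
    have hconj : w * sl k j * w⁻¹ = w' * ((w'⁻¹ * w) * sl k j * (w'⁻¹ * w)⁻¹) * w'⁻¹ := by group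
    by_cases hj : j = 1
    · have hK : w'⁻¹ * w ∈ dP.K fP := mul_mem (inv_mem (hw' hj)) (hw hj)
      obtain ⟨a, b, h5⟩ := cusp.1 j _ hK h4
      have hcomm := cusp.2.2.1 j
      have h6 : Commute (tA j ^ a * tB j ^ b) (sl k j) := by
        rw [sl_eq]
        have e1 : Commute (tA j ^ a) (tA j ^ mA j) := (Commute.refl _).zpow_zpow _ _
        have e2 : Commute (tB j ^ b) (tB j ^ lB k j) := (Commute.refl _).zpow_zpow _ _
        have e3 : Commute (tA j ^ a) (tB j ^ lB k j) := hcomm.zpow_zpow _ _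
        have e4 : Commute (tB j ^ b) (tA j ^ mA j) := hcomm.symm.zpow_zpow _ _
        exact (e1.mul_right e3).mul_left (e4.mul_right e2)
      left
      rw [hτ, hσ, hconj, h5, h6.eq, mul_inv_cancel_right]
    · have h5 := cusp.2.2.2.2.1 j _ h4
      have h6 : sl k j = rel j := if_neg hj
      rw [← h6] at h5
      rcases h5 with h5 | h5
      · left
        rw [hτ, hσ, hconj, h5]
      · right
        rw [hτ, hσ, hconj, h5]; group
  rcases hx with rfl | rfl <;> rcases hy with rfl | rfl <;> rcases key with e | e <;> rw [e] <;>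
    simp

/-- every parabolic element commutes with a slope -/
lemma slope_exists (parab : SpecParab) (k : ℤ) {γ : dP.W} (hγ : γ ∈ dP.K fP)
    (hp : IsParabolic (dP.rho γ)) : ∃ x ∈ slopeSet k, Commute x γ := by
  haveI : (dP.K fP).Normal := by unfold Datum.K; infer_instance
  obtain ⟨w, j, h1⟩ := parab γ hp
  -- we may take `w⁻¹` in `K` if `j = 1`
  obtain ⟨u, hu, h2⟩ : ∃ u : dP.W, (j = 1 → u ∈ dP.K fP) ∧
      dP.rho (u⁻¹ * γ * u) (pV j) = pV j := by
    by_cases hj : j = 1
    · subst hj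
      obtain ⟨h, h3, h4⟩ := cusp.2.2.2.2.2.1 w⁻¹
      refine ⟨w⁻¹ * h⁻¹, fun _ => h4, ?_⟩
      have h5 : dP.rho h⁻¹ (pV 1) = pV 1 := by
        nth_rw 1 [← h3]
        exact dP.rho_inv_apply _ _
      have : (w⁻¹ * h⁻¹)⁻¹ * γ * (w⁻¹ * h⁻¹) = h * ((w * γ * w⁻¹) * h⁻¹) := by group
      rw [this, dP.rho_mul_apply, dP.rho_mul_apply, h5, h1, h3]
    · exact ⟨w⁻¹, fun h => absurd h hj, by rw [inv_inv]; exact h1⟩
  have h3 : u⁻¹ * γ * u ∈ dP.K fP := by
    have := Subgroup.Normal.conj_mem (inferInstance : (dP.K fP).Normal) γ hγ u⁻¹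
    rwa [inv_inv] at this
  obtain ⟨a, b, h4⟩ := cusp.1 j _ h3 h2
  refine ⟨u * sl k j * u⁻¹, mem_slopeSet.2 ⟨u, j, hu, Or.inl rfl⟩, ?_⟩
  have hcomm := cusp.2.2.1 j
  have h6 : Commute (sl k j) (tA j ^ a * tB j ^ b) := by
    rw [sl_eq]
    have e1 : Commute (tA j ^ mA j) (tA j ^ a) := (Commute.refl _).zpow_zpow _ _
    have e2 : Commute (tB j ^ lB k j) (tB j ^ b) := (Commute.refl _).zpow_zpow _ _
    have e3 : Commute (tA j ^ mA j) (tB j ^ b) := hcomm.zpow_zpow _ _
    have e4 : Commute (tB j ^ lB k j) (tA j ^ a) := hcomm.symm.zpow_zpow _ _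
    exact (e1.mul_right e3).mul_left (e4.mul_right e2)
  rw [← h4] at h6
  have h7 : γ = u * (u⁻¹ * γ * u) * u⁻¹ := by group
  rw [h7]
  exact (Commute.conj_iff u).2 h6

end

/-- module SLOPES -/
theorem specSlopes (tits : SpecTits) (unip : SpecUnip) (cusp : SpecCusp) (parab : SpecParab) :
    SpecSlopes := by
  have hinj := (tits _ dP).2.2
  have hlift : ∀ σ : dP.Γ fP, ∃ x ∈ dP.K fP, dP.rho x = (σ : Lin) := fun σ => σ.2
  have hmem : ∀ (k : ℤ) (σ : dP.Γ fP) (x : dP.W), dP.rho x = (σ : Lin) →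
      (σ ∈ slopes k ↔ x ∈ slopeSet k) := by
    intro k σ x hx
    constructor
    · rintro ⟨y, hy, h⟩
      have : x = y := hinj (by rw [hx, h])
      rwa [this]
    · intro h
      exact ⟨x, h, hx.symm⟩
  constructor
  · intro k
    refine ⟨?_, ?_, ?_, ?_, ?_, ?_⟩
    · intro σ hσ
      obtain ⟨x, -, hx⟩ := hlift σ
      rw [← hx]
      exact slope_parab cusp ((hmem k σ x hx).1 hσ)
    · intro σ hσ δ n h
      obtain ⟨x, -, hx⟩ := hlift σ
      obtain ⟨y, hyK, hy⟩ := hlift δ
      refine slope_primitive tits unip cusp ((hmem k σ x hx).1 hσ) hyK n (hinj ?_)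
      rw [map_pow, hy, hx, ← h]
      rfl
    · intro σ hσ
      obtain ⟨x, hxK, hx⟩ := hlift σ
      refine (hmem k σ⁻¹ x⁻¹ (by rw [map_inv, hx]; rfl)).2 ?_
      obtain ⟨w, j, hw, h⟩ := mem_slopeSet.1 ((hmem k σ x hx).1 hσ)
      refine mem_slopeSet.2 ⟨w, j, hw, ?_⟩
      rcases h with h | h
      · right; rw [h]
      · left; rw [h, inv_inv]
    · intro σ hσ g
      obtain ⟨x, hxK, hx⟩ := hlift σ
      obtain ⟨y, hyK, hy⟩ := hlift g
      refine (hmem k _ (y * x * y⁻¹) (by rw [map_mul, map_mul, map_inv, hx, hy]; rfl)).2 ?_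
      obtain ⟨w, j, hw, h⟩ := mem_slopeSet.1 ((hmem k σ x hx).1 hσ)
      refine mem_slopeSet.2 ⟨y * w, j, fun hj => mul_mem hyK (hw hj), ?_⟩
      rcases h with h | h
      · left; rw [h]; group
      · right; rw [h]; group
    · intro γ hγ
      obtain ⟨y, hyK, hy⟩ := hlift γ
      rw [← hy] at hγ
      obtain ⟨x, hx, hc⟩ := slope_exists tits unip cusp parab k hyK hγ
      refine ⟨⟨dP.rho x, x, slope_mem_K cusp hx, rfl⟩, ⟨x, hx, rfl⟩, ?_⟩
      apply Subtype.ext
      change dP.rho x * (γ : Lin) = (γ : Lin) * dP.rho x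
      rw [← hy, ← map_mul, ← map_mul, hc.eq]
    · intro σ hσ τ hτ h
      obtain ⟨x, -, hx⟩ := hlift σ
      obtain ⟨y, -, hy⟩ := hlift τ
      have hc : Commute x y := by
        apply hinj
        rw [map_mul, map_mul, hx, hy]
        exact congrArg Subtype.val h.eq
      rcases slope_unique tits unip cusp ((hmem k σ x hx).1 hσ) ((hmem k τ y hy).1 hτ) hc with e | e
      · left
        apply Subtype.ext
        rw [← hx, ← hy, e]
      · right
        apply Subtype.ext
        change (τ : Lin) = (σ : Lin)⁻¹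
        rw [← hx, ← hy, e, map_inv]
  · intro k k' hk
    have h1 : ∀ k, sl k 1 ∈ slopeSet k := fun k =>
      mem_slopeSet.2 ⟨1, 1, fun _ => one_mem _, Or.inl (by group)⟩
    have h2 : sl k 1 ∈ slopeSet k' := by
      have h3 : (⟨dP.rho (sl k 1), sl k 1, sl_mem_K cusp k 1, rfl⟩ : dP.Γ fP) ∈ slopes k :=
        ⟨_, h1 k, rfl⟩
      rw [hk] at h3
      exact (hmem k' _ (sl k 1) rfl).1 h3
    have hcomm := cusp.2.2.1 1
    have hc : Commute (sl k' 1) (sl k 1) := by
      rw [sl_eq, sl_eq]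
      have e1 : Commute (tA 1 ^ mA 1) (tA 1 ^ mA 1) := Commute.refl _
      have e2 : Commute (tB 1 ^ lB k' 1) (tB 1 ^ lB k 1) := (Commute.refl _).zpow_zpow _ _
      have e3 : Commute (tA 1 ^ mA 1) (tB 1 ^ lB k 1) := hcomm.zpow_zpow _ _
      have e4 : Commute (tB 1 ^ lB k' 1) (tA 1 ^ mA 1) := hcomm.symm.zpow_zpow _ _
      exact (e1.mul_right e3).mul_left (e4.mul_right e2)
    rcases slope_unique tits unip cusp (h1 k') h2 hc with e | e
    · rw [sl_eq, sl_eq] at e
      have := (cusp.2.2.2.1 1 _ _ _ _ e).2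
      simp only [lB, if_pos] at this
      omega
    · rw [sl_inv cusp, sl_eq] at e
      have := (cusp.2.2.2.1 1 _ _ _ _ e).1
      simp [mA] at this

end EqVol
end
end

section
set_option linter.all false

/-!
# TITS: the chamber of a right-angled datum
-/

noncomputable section

namespace EqVol

namespace Datum

variable {ι : Type} (d : Datum ι)

lemma e_mem_cone [Fintype ι] (i : ι) : d.InCone (d.e i) := by
  classical
  refine ⟨Pi.single i 1, ?_, ?_⟩
  · intro j
    by_cases h : j = i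
    · subst h; simp
    · simp [Pi.single_apply, h]
  · rw [Finset.sum_eq_single i]
    · simp
    · intro j _ hj; simp [Pi.single_apply, hj]
    · intro h; exact absurd (Finset.mem_univ i) h

lemma cone_add [Fintype ι] {u v : E4} (hu : d.InCone u) (hv : d.InCone v) : d.InCone (u + v) := by
  obtain ⟨a, ha, rfl⟩ := hu
  obtain ⟨b, hb, rfl⟩ := hv
  refine ⟨fun i => a i + b i, fun i => add_nonneg (ha i) (hb i), ?_⟩
  rw [← Finset.sum_add_distrib]
  exact Finset.sum_congr rfl fun i _ => by module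

lemma cone_smul [Fintype ι] {u : E4} (hu : d.InCone u) {t : ℝ} (ht : 0 ≤ t) :
    d.InCone (t • u) := by
  obtain ⟨a, ha, rfl⟩ := hu
  refine ⟨fun i => t * a i, fun i => mul_nonneg ht (ha i), ?_⟩
  rw [Finset.smul_sum]
  exact Finset.sum_congr rfl fun i _ => by module

lemma lor_cone [Fintype ι] {x u : E4} (hx : x ∈ d.C) (hu : d.InCone u) : lor x u ≤ 0 := by
  obtain ⟨a, ha, rfl⟩ := hu
  rw [lor_sum_right]
  apply Finset.sum_nonpos
  intro i _
  rw [lor_smul_right]
  exact mul_nonpos_of_nonneg_of_nonpos (ha i) (hx i)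

lemma mul_s_s (w : d.W) (j : ι) : w * d.s j * d.s j = w := by
  rw [mul_assoc, d.s_mul_self, mul_one]

lemma rho_e_self (w : d.W) (j : ι) : d.rho w (d.e j) = -d.rho (w * d.s j) (d.e j) := by
  rw [d.rho_mul_apply, d.rho_s_apply, d.norm, ← map_neg]
  congr 1
  module

lemma rho_e_other (w : d.W) (i j : ι) :
    d.rho w (d.e i) = d.rho (w * d.s j) (d.e i) -
      (2 * lor (d.e i) (d.e j)) • d.rho (w * d.s j) (d.e j) := by
  rw [← map_smul, ← map_sub]
  have h := d.rho_mul_apply (w * d.s j) (d.s j) (d.e i)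
  rw [d.mul_s_s] at h
  rw [h, d.rho_s_apply]

lemma tits_PQ [Fintype ι] (n : ℕ) : ∀ w : d.W, d.cs.length w = n →
    (∀ i, ¬ d.cs.IsRightDescent w i → d.InCone (d.rho w (d.e i))) ∧
    (∀ i j, lor (d.e i) (d.e j) ≤ -1 → ¬ d.cs.IsRightDescent w i → d.cs.IsRightDescent w j →
      d.InCone (d.rho w (d.e i) + d.rho w (d.e j))) := by
  induction n using Nat.strong_induction_on with
  | _ n IH =>
    intro w hw
    -- the descents
    have hdesc : ∀ j, d.cs.IsRightDescent w j → d.cs.length (w * d.s j) + 1 = d.cs.length w :=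
      fun j hj => d.cs.isRightDescent_iff.1 hj
    have hasc' : ∀ j, d.cs.IsRightDescent w j → ¬ d.cs.IsRightDescent (w * d.s j) j :=
      fun j hj => d.cs.isRightDescent_iff_not_isRightDescent_mul.1 hj
    have hQ : ∀ i j, lor (d.e i) (d.e j) ≤ -1 → ¬ d.cs.IsRightDescent w i →
        d.cs.IsRightDescent w j → d.InCone (d.rho w (d.e i) + d.rho w (d.e j)) := by
      intro i j hij hi hj
      have hl := hdesc j hj
      obtain ⟨P', Q'⟩ := IH (d.cs.length (w * d.s j)) (by omega) (w * d.s j) rfl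
      have hPj := P' j (hasc' j hj)
      have e1 : d.rho w (d.e i) + d.rho w (d.e j) = d.rho (w * d.s j) (d.e i) +
          (-(2 * lor (d.e i) (d.e j)) - 1) • d.rho (w * d.s j) (d.e j) := by
        rw [d.rho_e_self w j, d.rho_e_other w i j]; module
      rw [e1]
      by_cases hi' : d.cs.IsRightDescent (w * d.s j) i
      · have h2 := Q' j i (by rw [lor_comm]; exact hij) (hasc' j hj) hi'
        have e2 : d.rho (w * d.s j) (d.e i) +
            (-(2 * lor (d.e i) (d.e j)) - 1) • d.rho (w * d.s j) (d.e j) =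
            (d.rho (w * d.s j) (d.e j) + d.rho (w * d.s j) (d.e i)) +
            (-(2 * lor (d.e i) (d.e j)) - 2) • d.rho (w * d.s j) (d.e j) := by module
        rw [e2]
        exact d.cone_add h2 (d.cone_smul hPj (by linarith))
      · exact d.cone_add (P' i hi') (d.cone_smul hPj (by linarith))
    refine ⟨?_, hQ⟩
    intro i hi
    by_cases hw1 : w = 1
    · rw [hw1, d.rho_one_apply]; exact d.e_mem_cone i
    · obtain ⟨j, hj⟩ := d.cs.exists_rightDescent_of_ne_one hw1
      have hij : i ≠ j := by rintro rfl; exact hi hj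
      have hl := hdesc j hj
      obtain ⟨P', Q'⟩ := IH (d.cs.length (w * d.s j)) (by omega) (w * d.s j) rfl
      rcases d.far i j hij with h0 | h0
      · have e1 := d.rho_e_other w i j
        rw [h0, mul_zero, zero_smul, sub_zero] at e1
        rw [e1]
        apply P'
        intro hi'
        apply hi
        have h3 : d.cs.length (w * d.s j * d.s i) < d.cs.length (w * d.s j) := hi'
        have h4 : w * d.s i = w * d.s j * d.s i * d.s j := by
          rw [mul_assoc (w * d.s j), d.s_comm h0, ← mul_assoc, d.mul_s_s]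
        have h5 := d.cs.length_mul_le (w * d.s j * d.s i) (d.s j)
        have h6 : d.cs.length (d.s j) = 1 := d.cs.length_simple j
        change d.cs.length (w * d.s i) < d.cs.length w
        rw [h4]
        omega
      · have h2 := hQ i j h0 hi hj
        have h3 := P' j (hasc' j hj)
        have e1 : d.rho w (d.e i) = (d.rho w (d.e i) + d.rho w (d.e j)) +
            d.rho (w * d.s j) (d.e j) := by
          rw [d.rho_e_self w j]; module
        rw [e1]
        exact d.cone_add h2 h3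

lemma tits_stab [Fintype ι] (n : ℕ) : ∀ (w : d.W) (x : E4), d.cs.length w = n → x ∈ d.C →
    d.rho w x ∈ d.C →
    d.rho w x = x ∧ w ∈ Subgroup.closure (d.s '' {i | lor x (d.e i) = 0}) := by
  induction n with
  | zero =>
    intro w x hw hx hy
    rw [d.cs.length_eq_zero_iff] at hw
    subst hw
    exact ⟨d.rho_one_apply x, Subgroup.one_mem _⟩
  | succ n IH =>
    intro w x hw hx hy
    have hw1 : w ≠ 1 := by
      intro h
      rw [h, d.cs.length_one] at hw
      omega
    obtain ⟨i, hi⟩ := d.cs.exists_rightDescent_of_ne_one hw1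
    have hl : d.cs.length (w * d.s i) + 1 = d.cs.length w := d.cs.isRightDescent_iff.1 hi
    have hasc : ¬ d.cs.IsRightDescent (w * d.s i) i :=
      d.cs.isRightDescent_iff_not_isRightDescent_mul.1 hi
    have hcone := (d.tits_PQ _ (w * d.s i) rfl).1 i hasc
    have h1 := d.lor_cone hy hcone
    have h2 : lor x (d.e i) = -lor (d.rho w x) (d.rho (w * d.s i) (d.e i)) := by
      rw [← d.lor_rho w x (d.e i), d.rho_e_self w i, lor_neg_right]
    have h3 : lor x (d.e i) = 0 := le_antisymm (hx i) (by rw [h2]; linarith)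
    have h4 : d.rho (w * d.s i) x = d.rho w x := by
      rw [d.rho_mul_apply, d.rho_s_apply, h3]; simp
    obtain ⟨h5, h6⟩ := IH (w * d.s i) x (by omega) hx (by rw [h4]; exact hy)
    refine ⟨by rw [← h4]; exact h5, ?_⟩
    have h7 : d.s i ∈ Subgroup.closure (d.s '' {i | lor x (d.e i) = 0}) :=
      Subgroup.subset_closure ⟨i, h3, rfl⟩
    have := Subgroup.mul_mem _ h6 h7
    rwa [d.mul_s_s] at this

lemma tits_inj [Fintype ι] : Function.Injective d.rho := by
  rw [injective_iff_map_eq_one]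
  intro w hw
  have hb : d.base ∈ d.C := fun i => (d.base_neg i).le
  have hb2 : d.rho w d.base ∈ d.C := by
    rw [hw]; exact hb
  have h := (d.tits_stab _ w d.base rfl hb hb2).2
  have he : {i | lor d.base (d.e i) = 0} = ∅ := by
    ext i
    simp only [Set.mem_setOf_eq, Set.mem_empty_iff_false, iff_false]
    exact (d.base_neg i).ne
  rw [he, Set.image_empty, Subgroup.closure_empty, Subgroup.mem_bot] at h
  exact h

end Datum

theorem specTits : SpecTits := by
  intro ι _ d
  exact ⟨fun w i hi => (d.tits_PQ _ w rfl).1 i hi, fun w x hx hy => d.tits_stab _ w x rfl hx hy,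
    d.tits_inj⟩

end EqVol
end
end

section
set_option linter.all false

/-!
# Module VOL: a fundamental domain of finite volume
-/

noncomputable section

open MeasureTheory

namespace EqVol

namespace Vol

/-- the cone over a set -/
def cone (A : Set E4) : Set E4 := {y | ∃ t : ℝ, 0 < t ∧ t ≤ 1 ∧ ∃ x ∈ A, y = t • x}

lemma hvol_eq (A : Set E4) : hvol A = 4 * volume (cone A) := rfl

lemma null_plane {n : E4} (hn : lor n n = 1) : volume {y : E4 | lor y n = 0} = 0 := by
  let L : E4 →ₗ[ℝ] ℝ :=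
    { toFun := fun y => lor y n
      map_add' := fun x y => lor_add_left x y n
      map_smul' := fun c x => by rw [lor_smul_left]; rfl }
  have h : (LinearMap.ker L) ≠ ⊤ := by
    intro h
    have h1 : n ∈ LinearMap.ker L := by rw [h]; trivial
    have h2 : lor n n = 0 := h1
    rw [hn] at h2
    norm_num at h2
  exact Measure.addHaar_submodule volume (LinearMap.ker L) h

lemma hvol_null {κ : Type} [Countable κ] {n : κ → E4} (hn : ∀ k, lor (n k) (n k) = 1)
    {B : Set E4} (hB : ∀ y ∈ B, ∃ k, lor y (n k) = 0) : hvol B = 0 := by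
  rw [hvol_eq]
  have h : cone B ⊆ ⋃ k, {y : E4 | lor y (n k) = 0} := by
    rintro _ ⟨t, _, _, x, hx, rfl⟩
    obtain ⟨k, hk⟩ := hB x hx
    rw [Set.mem_iUnion]
    exact ⟨k, by show lor (t • x) (n k) = 0; rw [lor_smul_left, hk, mul_zero]⟩
  rw [measure_mono_null h (measure_iUnion_null fun k => null_plane (hn k)), mul_zero]

lemma cone_ne_top {B : Set E4} (h : hvol B ≠ ⊤) : volume (cone B) ≠ ⊤ := by
  intro h0
  apply h
  rw [hvol_eq, h0]
  exact ENNReal.mul_top (by norm_num)

lemma cone_image_ne_top (g : Lin) {B : Set E4} (h : volume (cone B) ≠ ⊤) :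
    volume (cone (g '' B)) ≠ ⊤ := by
  have h1 : cone (g '' B) = (g : E4 →ₗ[ℝ] E4) '' cone B := by
    ext y
    constructor
    · rintro ⟨t, h1, h2, _, ⟨x, hx, rfl⟩, rfl⟩
      exact ⟨t • x, ⟨t, h1, h2, x, hx, rfl⟩, by simp⟩
    · rintro ⟨_, ⟨t, h1, h2, x, hx, rfl⟩, rfl⟩
      exact ⟨t, h1, h2, g x, ⟨x, hx, rfl⟩, by simp⟩
  rw [h1, Measure.addHaar_image_linearMap]
  exact ENNReal.mul_ne_top ENNReal.ofReal_ne_top h

lemma hvol_iUnion_ne_top {κ : Type} [Fintype κ] {B : κ → Set E4}
    (h : ∀ k, volume (cone (B k)) ≠ ⊤) : hvol (⋃ k, B k) ≠ ⊤ := by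
  have h1 : cone (⋃ k, B k) ⊆ ⋃ k, cone (B k) := by
    rintro _ ⟨t, h1, h2, x, hx, rfl⟩
    obtain ⟨k, hk⟩ := Set.mem_iUnion.1 hx
    exact Set.mem_iUnion.2 ⟨k, t, h1, h2, x, hk, rfl⟩
  rw [hvol_eq]
  apply ENNReal.mul_ne_top (by norm_num)
  apply ne_top_of_le_ne_top _ ((measure_mono h1).trans (measure_iUnion_fintype_le volume _))
  exact ENNReal.sum_ne_top.2 (fun k _ => h k)

lemma continuous_lin (g : Lin) : Continuous g :=
  LinearMap.continuous_of_finiteDimensional (g : E4 →ₗ[ℝ] E4)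

lemma measurableSet_Hyp : MeasurableSet Hyp := by
  have h1 : IsClosed {x : E4 | lor x x = -1} := by
    apply isClosed_eq _ continuous_const
    unfold lor
    fun_prop
  have h2 : IsOpen {x : E4 | 0 < x 0} := isOpen_lt continuous_const (continuous_apply 0)
  exact h1.measurableSet.inter h2.measurableSet

lemma measurableSet_C {ι : Type} [Fintype ι] (d : Datum ι) : MeasurableSet d.C := by
  have h : IsClosed d.C := by
    have : d.C = ⋂ i, {x : E4 | lor x (d.e i) ≤ 0} := by
      ext x; simp [Datum.mem_C]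
    rw [this]
    apply isClosed_iInter
    intro i
    apply isClosed_le _ continuous_const
    unfold lor
    fun_prop
  exact h.measurableSet

end Vol

open Vol in
theorem specVol (tits : SpecTits) (cover : SpecCover) : SpecVol := by
  classical
  intro ι _ d f hfin
  obtain ⟨-, hstab, hinj⟩ := tits ι d
  -- representatives of the colours
  let κ : Type := Set.range (d.col f)
  haveI : Fintype κ := Fintype.ofFinite _
  let rc : κ → d.W := fun c => c.2.choose
  have hrc : ∀ c : κ, d.col f (rc c) = c.1 := fun c => c.2.choose_spec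
  let B : κ → Set E4 := fun c => d.rho (rc c) '' (d.C ∩ Hyp)
  have hA : hvol (⋃ c, B c) ≠ ⊤ :=
    hvol_iUnion_ne_top (fun c => cone_image_ne_top _ (cone_ne_top hfin))
  refine ⟨(hvol (⋃ c, B c)).toReal, ⋃ c, B c, ?_, ?_, ?_, ?_, (ENNReal.ofReal_toReal hA).symm⟩
  · apply Set.iUnion_subset
    rintro c _ ⟨x, hx, rfl⟩
    exact d.rho_mem_Hyp _ hx.2
  · apply MeasurableSet.iUnion
    intro c
    have h1 : B c = d.rho (rc c)⁻¹ ⁻¹' (d.C ∩ Hyp) := by
      ext y
      constructor
      · rintro ⟨x, hx, rfl⟩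
        show d.rho (rc c)⁻¹ (d.rho (rc c) x) ∈ (d.C ∩ Hyp)
        rw [d.rho_inv_apply]
        exact hx
      · intro hy
        exact ⟨_, hy, d.rho_apply_inv _ _⟩
    rw [h1]
    exact (continuous_lin _).measurable ((measurableSet_C d).inter measurableSet_Hyp)
  · intro x hx
    obtain ⟨w, hw⟩ := cover ι d x hx
    let c : κ := ⟨d.col f w⁻¹, ⟨w⁻¹, rfl⟩⟩
    have hc : d.col f (rc c) = d.col f w⁻¹ := hrc c
    refine ⟨d.rho (rc c * w), ⟨rc c * w, ?_, rfl⟩, ?_⟩
    · show d.col f (rc c * w) = 1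
      rw [map_mul, hc, ← map_mul, inv_mul_cancel, map_one]
    · rw [d.rho_mul_apply]
      exact Set.mem_iUnion.2 ⟨c, _, ⟨hw, d.rho_mem_Hyp _ hx⟩, rfl⟩
  · rintro g ⟨k, hk, rfl⟩ hg
    have hk' : d.col f k = 1 := hk
    apply hvol_null (κ := κ × ι) (n := fun q => d.rho (rc q.1) (d.e q.2))
    · intro q
      rw [d.lor_rho, d.norm]
    · rintro y ⟨hy1, hy2⟩
      obtain ⟨c, a, ha, rfl⟩ := Set.mem_iUnion.1 hy1
      obtain ⟨z, hz, hz2⟩ := hy2
      obtain ⟨c', b, hb, rfl⟩ := Set.mem_iUnion.1 hz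
      have h1 : d.rho (k * rc c') b = d.rho (rc c) a := by
        rw [d.rho_mul_apply]; exact hz2
      have h2 : d.rho ((k * rc c')⁻¹ * rc c) a = b := by
        rw [d.rho_mul_apply, ← h1, d.rho_inv_apply]
      obtain ⟨h3, h4⟩ := hstab ((k * rc c')⁻¹ * rc c) a ha.1 (by rw [h2]; exact hb.1)
      by_cases hex : ∃ i, lor a (d.e i) = 0
      · obtain ⟨i, hi⟩ := hex
        exact ⟨(c, i), by simp only; rw [d.lor_rho]; exact hi⟩
      · exfalso
        have h5 : {i | lor a (d.e i) = 0} = (∅ : Set ι) := by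
          ext i
          simp only [Set.mem_setOf_eq, Set.mem_empty_iff_false, iff_false]
          exact fun h => hex ⟨i, h⟩
        rw [h5, Set.image_empty, Subgroup.closure_empty, Subgroup.mem_bot] at h4
        have h6 : k * rc c' = rc c := by
          rw [inv_mul_eq_one] at h4
          exact h4
        have h7 : c' = c := by
          apply Subtype.ext
          rw [← hrc c', ← hrc c, ← h6, map_mul, hk', one_mul]
        rw [h7] at h6
        have h8 : k = 1 := mul_eq_right.1 h6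
        apply hg
        rw [h8, map_one]

end EqVol
end
end

section
set_option linter.all false

noncomputable section

namespace EqVol

theorem final : SpecMain :=
  main_of_specs (specFree specTits (specProper specTits) (specCover (specProper specTits)))
    (specVol specTits (specCover (specProper specTits)))
    (specCompact (specCover (specProper specTits))) specGood specPfin specDcomp
    (specSlopes specTits specUnip (specCusp specTits) (specParab specNull))
    (specQuot specTits specPi (specCusp specTits))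

end EqVol
end
end
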