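import Pool.Agent.Lib.MP_d283d5_gt.Basic

section
set_option linter.all false

/-!
# The two polyhedra

`dP`: the union of four regular ideal octahedra, in the upper half-space the region over the
box `[0,4] × [0,1]` outside the hemispheres of radius `1/2` centred at `(k, 1/2)`, `(k + 1/2, 0)` and
`(k + 1/2, 1)`.  `dD`: the right-angled dodecahedron.
-/

noncomputable section

open MeasureTheory

namespace EqVol

/-! ### the polyhedron `P` -/

/-- the Lorentz form on integer vectors -/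
def lorZ (x y : Fin 4 → ℤ) : ℤ := -(x 0 * y 0) + x 1 * y 1 + x 2 * y 2 + x 3 * y 3

/-- integer vectors as real vectors -/
def castE (x : Fin 4 → ℤ) : E4 := fun k => (x k : ℝ)

lemma lor_castE (x y : Fin 4 → ℤ) : lor (castE x) (castE y) = (lorZ x y : ℝ) := by
  simp only [lor, castE, lorZ]
  push_cast
  ring

/-- The 17 faces of `P`: 0 is `y ≥ 0`, 1 is `y ≤ 1`, `2 + k` (`k < 5`) is the hemisphere at
`(k, 1/2)`, 7 is `x ≥ 0`, 8 is `x ≤ 4`, `9 + k` and `13 + k` (`k < 4`) are the hemispheres at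
`(k + 1/2, 0)` and `(k + 1/2, 1)`. -/
def eP : Fin 17 → Fin 4 → ℤ :=
  ![![0, 0, -1, 0], ![1, 0, 1, 1],
    ![1, 0, 1, -1], ![2, 2, 1, 0], ![5, 4, 1, 3], ![10, 6, 1, 8], ![17, 8, 1, 15],
    ![0, -1, 0, 0], ![4, 1, 0, 4],
    ![1, 1, 0, -1], ![3, 3, 0, 1], ![7, 5, 0, 5], ![13, 7, 0, 11],
    ![2, 1, 2, 0], ![4, 3, 2, 2], ![8, 5, 2, 6], ![14, 7, 2, 12]]

lemma eP_norm : ∀ i, lorZ (eP i) (eP i) = 1 := by decide

lemma eP_far : ∀ i j, i ≠ j → lorZ (eP i) (eP j) = 0 ∨ lorZ (eP i) (eP j) ≤ -1 := by decide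

/-- the base point of `P`, multiplied by `8` -/
def baseP8 : Fin 4 → ℤ := ![25, 16, 4, 17]

lemma baseP8_neg : ∀ i, lorZ baseP8 (eP i) < 0 := by decide

/-- the data of `P` -/
def dP : Datum (Fin 17) where
  e i := castE (eP i)
  base := (1 / 8 : ℝ) • castE baseP8
  norm i := by rw [lor_castE, eP_norm]; norm_num
  far i j h := by
    rw [lor_castE]
    rcases eP_far i j h with h | h
    · left; exact_mod_cast h
    · right; exact_mod_cast h
  base_mem := by
    constructor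
    · rw [lor_smul_left, lor_smul_right, lor_castE]
      have : lorZ baseP8 baseP8 = -64 := by decide
      rw [this]; norm_num
    · simp [castE, baseP8]
  base_neg i := by
    rw [lor_smul_left, lor_castE]
    have : (lorZ baseP8 (eP i) : ℝ) < 0 := by exact_mod_cast baseP8_neg i
    linarith

lemma dP_lor (i j : Fin 17) : lor (dP.e i) (dP.e j) = (lorZ (eP i) (eP j) : ℝ) := lor_castE _ _

lemma dP_orth (i j : Fin 17) : lor (dP.e i) (dP.e j) = 0 ↔ lorZ (eP i) (eP j) = 0 := by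
  rw [dP_lor]; exact_mod_cast Iff.rfl

/-! The 15 ideal vertices: the vertex `j` lies on the four faces `va j`, `vc j`, `vb j`, `vd j`, the
first two being parallel and the last two being parallel. -/

def va : Fin 15 → Fin 17 := ![7, 0, 9, 10, 11, 12, 7, 1, 14, 15, 1, 9, 3, 4, 5]
def vc : Fin 15 → Fin 17 := ![8, 2, 10, 11, 12, 8, 13, 3, 15, 16, 6, 13, 4, 5, 6]
def vb : Fin 15 → Fin 17 := ![0, 7, 0, 0, 0, 0, 1, 13, 1, 1, 16, 2, 10, 11, 12]
def vd : Fin 15 → Fin 17 := ![1, 9, 3, 4, 5, 6, 2, 14, 4, 5, 8, 3, 14, 15, 16]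
/-- the exponents of the slopes -/
def vm : Fin 15 → ℕ := ![1, 1, 2, 2, 2, 2, 2, 2, 1, 1, 2, 1, 2, 2, 2]

/-- the null vector of an ideal vertex (integral) -/
def pZ (j : Fin 15) : Fin 4 → ℤ := fun k => eP (va j) k + eP (vc j) k

/-- the null vector of an ideal vertex -/
def pV (j : Fin 15) : E4 := dP.e (va j) + dP.e (vc j)

lemma pV_eq (j : Fin 15) : pV j = castE (pZ j) := by
  funext k
  simp only [pV, dP, castE, pZ, Pi.add_apply]
  push_cast
  rfl

lemma pV_null (j : Fin 15) : lor (pV j) (pV j) = 0 := by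
  rw [pV_eq, lor_castE]
  have : ∀ j, lorZ (pZ j) (pZ j) = 0 := by decide
  rw [this]; norm_num

lemma pV_pos (j : Fin 15) : 0 < pV j 0 := by
  rw [pV_eq]
  have : ∀ j, 0 < pZ j 0 := by decide
  exact Int.cast_pos.2 (this j)

lemma pV_mem_C (j : Fin 15) : pV j ∈ dP.C := by
  intro i
  change lor (pV j) (castE (eP i)) ≤ 0
  rw [pV_eq, lor_castE]
  have : ∀ j i, lorZ (pZ j) (eP i) ≤ 0 := by decide
  exact_mod_cast this j i

/-- the faces through an ideal vertex -/
lemma pV_orth (j : Fin 15) (i : Fin 17) :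
    lor (pV j) (dP.e i) = 0 ↔ i = va j ∨ i = vc j ∨ i = vb j ∨ i = vd j := by
  change lor (pV j) (castE (eP i)) = 0 ↔ _
  rw [pV_eq, lor_castE]
  have : ∀ j i, lorZ (pZ j) (eP i) = 0 ↔ i = va j ∨ i = vc j ∨ i = vb j ∨ i = vd j := by decide
  rw [← this]
  exact_mod_cast Iff.rfl

lemma va_vc (j : Fin 15) : lor (dP.e (va j)) (dP.e (vc j)) = -1 := by
  rw [dP_lor]
  have : ∀ j, lorZ (eP (va j)) (eP (vc j)) = -1 := by decide
  rw [this]; norm_num

lemma vb_vd (j : Fin 15) : lor (dP.e (vb j)) (dP.e (vd j)) = -1 := by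
  rw [dP_lor]
  have : ∀ j, lorZ (eP (vb j)) (eP (vd j)) = -1 := by decide
  rw [this]; norm_num

lemma va_vb (j : Fin 15) : lor (dP.e (va j)) (dP.e (vb j)) = 0 := by
  rw [dP_orth]
  revert j; decide

lemma va_vd (j : Fin 15) : lor (dP.e (va j)) (dP.e (vd j)) = 0 := by
  rw [dP_orth]
  revert j; decide

lemma vc_vb (j : Fin 15) : lor (dP.e (vc j)) (dP.e (vb j)) = 0 := by
  rw [dP_orth]
  revert j; decide

lemma vc_vd (j : Fin 15) : lor (dP.e (vc j)) (dP.e (vd j)) = 0 := by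
  rw [dP_orth]
  revert j; decide

/-- the translation `s_a s_c` at an ideal vertex -/
def tA (j : Fin 15) : dP.W := dP.s (va j) * dP.s (vc j)

/-- the translation `s_b s_d` at an ideal vertex -/
def tB (j : Fin 15) : dP.W := dP.s (vb j) * dP.s (vd j)

/-- the slope at an ideal vertex -/
def rel (j : Fin 15) : dP.W := tA j ^ vm j

/-! ### the dodecahedron `D` -/

/-- the golden ratio -/
abbrev gr : ℝ := Real.goldenRatio

lemma gr_sq : gr ^ 2 = gr + 1 := Real.goldenRatio_sq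

lemma gr_pos : 0 < gr := Real.goldenRatio_pos

lemma one_lt_gr : 1 < gr := Real.one_lt_goldenRatio

/-- `(a, b)` stands for `a + b φ` -/
def castG (x : ℤ × ℤ) : ℝ := x.1 + x.2 * gr

/-- the product in `ℤ[φ]` -/
def mulG (x y : ℤ × ℤ) : ℤ × ℤ := (x.1 * y.1 + x.2 * y.2, x.1 * y.2 + x.2 * y.1 + x.2 * y.2)

lemma castG_mulG (x y : ℤ × ℤ) : castG (mulG x y) = castG x * castG y := by
  simp only [castG, mulG]
  push_cast
  linear_combination (-(x.2 * y.2 : ℝ)) * gr_sq

lemma castG_add (x y : ℤ × ℤ) : castG (x + y) = castG x + castG y := by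
  simp only [castG, Prod.fst_add, Prod.snd_add]
  push_cast
  ring

/-- the 12 directions of the faces of the dodecahedron (the vertices of an icosahedron) -/
def uZ : Fin 12 → Fin 3 → ℤ × ℤ :=
  ![![(0, 0), (1, 0), (0, 1)], ![(0, 0), (1, 0), (0, -1)], ![(0, 1), (0, 0), (-1, 0)],
    ![(1, 0), (0, -1), (0, 0)], ![(-1, 0), (0, -1), (0, 0)], ![(0, -1), (0, 0), (-1, 0)],
    ![(-1, 0), (0, 1), (0, 0)], ![(1, 0), (0, 1), (0, 0)], ![(0, 1), (0, 0), (1, 0)],
    ![(0, 0), (-1, 0), (0, 1)], ![(0, -1), (0, 0), (1, 0)], ![(0, 0), (-1, 0), (0, -1)]]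

/-- the scalar products of the directions -/
def dotZ (i j : Fin 12) : ℤ × ℤ :=
  mulG (uZ i 0) (uZ j 0) + mulG (uZ i 1) (uZ j 1) + mulG (uZ i 2) (uZ j 2)

lemma dotZ_self : ∀ i, dotZ i i = (2, 1) := by decide

lemma dotZ_far : ∀ i j, i ≠ j → dotZ i j = (0, 1) ∨ dotZ i j = (0, -1) ∨ dotZ i j = (-2, -1) := by
  decide

/-- the 12 faces of the right-angled dodecahedron -/
def eD (i : Fin 12) : E4 :=
  ![√gr / √2, castG (uZ i 0) / √2, castG (uZ i 1) / √2, castG (uZ i 2) / √2]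

lemma lor_eD (i j : Fin 12) : lor (eD i) (eD j) = (castG (dotZ i j) - gr) / 2 := by
  have h2 : √(2:ℝ) * √2 = 2 := Real.mul_self_sqrt (by norm_num)
  have hg : √gr * √gr = gr := Real.mul_self_sqrt gr_pos.le
  simp only [lor, eD, dotZ, castG_add, castG_mulG, Matrix.cons_val_zero, Matrix.cons_val_one,
    Matrix.cons_val]
  generalize gr = g at hg ⊢
  simp only [div_mul_div_comm, h2, hg]
  ring

/-- the data of `D` -/
def dD : Datum (Fin 12) where
  e := eD
  base := ![1, 0, 0, 0]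
  norm i := by
    rw [lor_eD, dotZ_self]
    simp only [castG]
    push_cast
    ring
  far i j h := by
    rw [lor_eD]
    have := one_lt_gr
    rcases dotZ_far i j h with h | h | h <;> rw [h] <;> simp only [castG] <;> push_cast
    · left; ring
    · right; linarith
    · right; linarith
  base_mem := by
    constructor
    · simp [lor]
    · simp
  base_neg i := by
    have h1 : 0 < √gr := Real.sqrt_pos.2 gr_pos
    have : lor ![1, 0, 0, 0] (eD i) = -(√gr / √2) := by simp [lor, eD]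
    rw [this, neg_lt_zero]
    positivity

lemma dD_orth (i j : Fin 12) : lor (dD.e i) (dD.e j) = 0 ↔ dotZ i j = (0, 1) := by
  constructor
  · intro h
    by_contra hc
    have hij : i ≠ j := dD.ne_of_orth h
    change lor (eD i) (eD j) = 0 at h
    rw [lor_eD] at h
    have h1 := one_lt_gr
    rcases dotZ_far i j hij with h2 | h2 | h2
    · exact hc h2
    · rw [h2] at h
      simp only [castG] at h
      push_cast at h
      linarith
    · rw [h2] at h
      simp only [castG] at h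
      push_cast at h
      linarith
  · intro h
    change lor (eD i) (eD j) = 0
    rw [lor_eD, h]
    simp only [castG]
    push_cast
    ring

/-! ### the map from `P` to `D` -/

/-- the map on the faces -/
def piI : Fin 17 → Fin 12 := ![0, 1, 0, 2, 3, 4, 5, 6, 6, 7, 8, 9, 10, 7, 11, 11, 11]

lemma piI_orth (i j : Fin 17) (h : lor (dP.e i) (dP.e j) = 0) :
    lor (dD.e (piI i)) (dD.e (piI j)) = 0 := by
  rw [dP_orth] at h
  rw [dD_orth]
  revert i j
  decide

/-- the homomorphism from the group of `P` to the group of `D` -/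
def fill : dP.W →* dD.W :=
  dP.hom (fun i => dD.s (piI i)) (fun i => dD.s_mul_self _)
    (fun i j h => dD.s_comm (piI_orth i j h))

lemma fill_s (i : Fin 17) : fill (dP.s i) = dD.s (piI i) := dP.hom_s _ _ _ i

/-- the colouring of the faces of `D` -/
def fD : Fin 12 → Fin 3 → ZMod 2 :=
  ![![1, 0, 0], ![1, 0, 0], ![0, 1, 0], ![1, 0, 0], ![0, 1, 0], ![0, 0, 1], ![0, 1, 0],
    ![0, 0, 1], ![1, 1, 1], ![0, 0, 1], ![1, 1, 1], ![1, 1, 1]]

/-- the colouring of the faces of `P` -/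
def fP (i : Fin 17) : Fin 3 → ZMod 2 := fD (piI i)

lemma col_fill (w : dP.W) : dD.col fD (fill w) = dP.col fP w := by
  induction w using dP.induct with
  | one => rw [map_one, map_one, map_one]
  | mul w i ih => rw [map_mul, map_mul, map_mul, ih, fill_s, Datum.col_s, Datum.col_s]; rfl

end EqVol
end
end

section
set_option linter.all false

/-!
# Lorentz geometry
-/

noncomputable section

open MeasureTheory

namespace EqVol

/-- future timelike against future causal -/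
lemma lor_neg_of_future {x y : E4} (hx : lor x x < 0) (hx0 : 0 < x 0) (hy : lor y y ≤ 0)
    (hy0 : 0 < y 0) : lor x y < 0 := by
  simp only [lor] at hx hy ⊢
  have h1 : (x 1 * y 1 + x 2 * y 2 + x 3 * y 3) ^ 2 ≤
      (x 1 ^ 2 + x 2 ^ 2 + x 3 ^ 2) * (y 1 ^ 2 + y 2 ^ 2 + y 3 ^ 2) := by
    nlinarith [sq_nonneg (x 1 * y 2 - x 2 * y 1), sq_nonneg (x 1 * y 3 - x 3 * y 1),
      sq_nonneg (x 2 * y 3 - x 3 * y 2)]
  have h2 : (x 1 ^ 2 + x 2 ^ 2 + x 3 ^ 2) * (y 1 ^ 2 + y 2 ^ 2 + y 3 ^ 2) ≤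
      (x 1 ^ 2 + x 2 ^ 2 + x 3 ^ 2) * y 0 ^ 2 :=
    mul_le_mul_of_nonneg_left (by nlinarith) (by positivity)
  have h3 : (x 1 ^ 2 + x 2 ^ 2 + x 3 ^ 2) * y 0 ^ 2 < x 0 ^ 2 * y 0 ^ 2 :=
    mul_lt_mul_of_pos_right (by nlinarith) (by positivity)
  have h4 : (x 1 * y 1 + x 2 * y 2 + x 3 * y 3) ^ 2 < (x 0 * y 0) ^ 2 := by
    rw [mul_pow]; linarith
  have h5 := lt_of_pow_lt_pow_left₀ 2 (by positivity : 0 ≤ x 0 * y 0) h4
  linarith

lemma Hyp.neg {x y : E4} (hx : x ∈ Hyp) (hy : lor y y ≤ 0) (hy0 : 0 < y 0) : lor x y < 0 :=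
  lor_neg_of_future (by rw [hx.1]; norm_num) hx.2 hy hy0

/-- a causal vector orthogonal to a timelike vector vanishes -/
lemma eq_zero_of_orth {x y : E4} (hx : lor x x < 0) (h : lor x y = 0) (hy : lor y y ≤ 0) :
    y = 0 := by
  simp only [lor] at hx hy h
  have h1 : (x 1 * y 1 + x 2 * y 2 + x 3 * y 3) ^ 2 ≤
      (x 1 ^ 2 + x 2 ^ 2 + x 3 ^ 2) * (y 1 ^ 2 + y 2 ^ 2 + y 3 ^ 2) := by
    nlinarith [sq_nonneg (x 1 * y 2 - x 2 * y 1), sq_nonneg (x 1 * y 3 - x 3 * y 1),
      sq_nonneg (x 2 * y 3 - x 3 * y 2)]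
  have h2 : (x 1 ^ 2 + x 2 ^ 2 + x 3 ^ 2) * (y 1 ^ 2 + y 2 ^ 2 + y 3 ^ 2) ≤
      (x 1 ^ 2 + x 2 ^ 2 + x 3 ^ 2) * y 0 ^ 2 :=
    mul_le_mul_of_nonneg_left (by nlinarith) (by positivity)
  have h3 : x 1 * y 1 + x 2 * y 2 + x 3 * y 3 = x 0 * y 0 := by linarith
  rw [h3] at h1
  have h4 : (x 0 ^ 2 - (x 1 ^ 2 + x 2 ^ 2 + x 3 ^ 2)) * y 0 ^ 2 ≤ 0 := by nlinarith
  have h5 : 0 < x 0 ^ 2 - (x 1 ^ 2 + x 2 ^ 2 + x 3 ^ 2) := by nlinarith
  have h6 : y 0 ^ 2 ≤ 0 := by
    by_contra hc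
    push Not at hc
    have := mul_pos h5 hc
    linarith
  have h7 : y 0 = 0 := by
    have := le_antisymm h6 (sq_nonneg _)
    exact pow_eq_zero_iff (two_ne_zero) |>.1 this
  rw [h7] at hy
  have e1 : y 1 = 0 := by nlinarith [sq_nonneg (y 1), sq_nonneg (y 2), sq_nonneg (y 3)]
  have e2 : y 2 = 0 := by nlinarith [sq_nonneg (y 1), sq_nonneg (y 2), sq_nonneg (y 3)]
  have e3 : y 3 = 0 := by nlinarith [sq_nonneg (y 1), sq_nonneg (y 2), sq_nonneg (y 3)]
  funext i
  fin_cases i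
  · exact h7
  · exact e1
  · exact e2
  · exact e3

/-- a nonzero causal vector has nonzero time coordinate -/
lemma time_ne_zero {y : E4} (hy : lor y y ≤ 0) (h : y ≠ 0) : y 0 ≠ 0 := by
  intro h0
  apply h
  have hx : lor (![1, 0, 0, 0] : E4) ![1, 0, 0, 0] < 0 := by simp [lor]
  refine eq_zero_of_orth hx ?_ hy
  simp [lor, h0]

/-- isometries that preserve hyperbolic space preserve the future causal cone -/
lemma future_of_isometry {g : Lin} (h1 : ∀ x y : E4, lor (g x) (g y) = lor x y)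
    (h2 : ∀ x ∈ Hyp, g x ∈ Hyp) {y : E4} (hy : lor y y ≤ 0) (hy0 : 0 < y 0) : 0 < g y 0 := by
  have hb : (![1, 0, 0, 0] : E4) ∈ Hyp := ⟨by simp [lor], by simp⟩
  have h3 := Hyp.neg hb hy hy0
  rw [← h1] at h3
  have hy' : lor (g y) (g y) ≤ 0 := by rw [h1]; exact hy
  have hne : g y ≠ 0 := by
    intro h
    rw [h] at h3
    simp at h3
  rcases lt_trichotomy (g y 0) 0 with h | h | h
  · exfalso
    have h4 := Hyp.neg (h2 _ hb) (y := -(g y)) (by rw [lor_neg_left, lor_neg_right, neg_neg]; exact hy')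
      (by simpa using h)
    rw [lor_neg_right] at h4
    linarith
  · exact absurd h (time_ne_zero hy' hne)
  · exact h

lemma refl_mem_Hyp (v : E4) (hv : lor v v = 1) {x : E4} (hx : x ∈ Hyp) : refl v hv x ∈ Hyp := by
  have h1 : lor (refl v hv x) (refl v hv x) = -1 := by rw [lor_refl]; exact hx.1
  refine ⟨h1, ?_⟩
  have h2 : lor x (refl v hv x) < 0 := by
    rw [refl_apply, lor_sub_right, lor_smul_right, hx.1]
    nlinarith [sq_nonneg (lor x v)]
  have hne : refl v hv x ≠ 0 := by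
    intro h
    rw [h] at h2
    simp at h2
  rcases lt_trichotomy (refl v hv x 0) 0 with h | h | h
  · exfalso
    have h4 := Hyp.neg hx (y := -(refl v hv x))
      (by rw [lor_neg_left, lor_neg_right, neg_neg, h1]; norm_num) (by simpa using h)
    rw [lor_neg_right] at h4
    linarith
  · exact absurd h (time_ne_zero (by rw [h1]; norm_num) hne)
  · exact h

namespace Datum

variable {ι : Type} (d : Datum ι)

lemma rho_mem_Hyp (w : d.W) {x : E4} (hx : x ∈ Hyp) : d.rho w x ∈ Hyp := by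
  induction w using d.induct generalizing x with
  | one => rw [d.rho_one_apply]; exact hx
  | mul w i ih =>
    rw [d.rho_mul_apply, d.rho_s]
    exact ih (refl_mem_Hyp _ _ hx)

lemma rho_future (w : d.W) {y : E4} (hy : lor y y ≤ 0) (hy0 : 0 < y 0) : 0 < d.rho w y 0 :=
  future_of_isometry (d.lor_rho w) (fun _ hx => d.rho_mem_Hyp w hx) hy hy0

end Datum

end EqVol
end
end
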