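import Pool.Agent.Lib.MP_d283d5_gt.Lor

set_option linter.all false

/-!
# Specifications of the modules
-/

noncomputable section

open MeasureTheory

namespace EqVol

/-! ### generic modules -/

/-- TITS -/
def SpecTits : Prop := ∀ (ι : Type) [Fintype ι] (d : Datum ι),
  (∀ (w : d.W) (i : ι), ¬ d.cs.IsRightDescent w i → d.InCone (d.rho w (d.e i))) ∧
  (∀ (w : d.W) (x : E4), x ∈ d.C → d.rho w x ∈ d.C →
    d.rho w x = x ∧ w ∈ Subgroup.closure (d.s '' {i | lor x (d.e i) = 0})) ∧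
  Function.Injective d.rho

/-- PROPER: the action on hyperbolic space is properly discontinuous (may use TITS) -/
def SpecProper : Prop := ∀ (ι : Type) [Fintype ι] (d : Datum ι),
  ∀ x ∈ Hyp, ∀ R : ℝ, {w : d.W | (d.rho w x) 0 ≤ R}.Finite

/-- COVER: every point can be moved into the chamber (may use PROPER) -/
def SpecCover : Prop := ∀ (ι : Type) [Fintype ι] (d : Datum ι),
  ∀ x ∈ Hyp, ∃ w : d.W, d.rho w x ∈ d.C

/-- FREE: the kernel of a good colouring is torsion-free (may use TITS, PROPER, COVER) -/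
def SpecFree : Prop := ∀ (ι : Type) [Fintype ι] (d : Datum ι) (f : ι → Fin 3 → ZMod 2),
  d.Good f → IsHyperbolicGroup (d.Γ f)

/-- VOL: finite volume (may use TITS, COVER) -/
def SpecVol : Prop := ∀ (ι : Type) [Fintype ι] (d : Datum ι) (f : ι → Fin 3 → ZMod 2),
  hvol (d.C ∩ Hyp) ≠ ⊤ → ∃ v : ℝ, HasVolume (d.Γ f) v

/-- COMPACT: a bounded chamber (may use COVER) -/
def SpecCompact : Prop := ∀ (ι : Type) [Fintype ι] (d : Datum ι) (f : ι → Fin 3 → ZMod 2) (R : ℝ),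
  (∀ x ∈ d.C ∩ Hyp, x 0 ≤ R) → hvol (d.C ∩ Hyp) ≠ ⊤ ∧ IsCocompact (d.Γ f)

/-- UNIP: facts about parabolic isometries -/
def SpecUnip : Prop :=
  (∀ (g : Lin), (∀ x y, lor (g x) (g y) = lor x y) → IsParabolic g →
    ∀ p q : E4, lor p p = 0 → 0 < p 0 → lor q q = 0 → 0 < q 0 → g p = p → g q = q →
      ∃ t : ℝ, 0 < t ∧ q = t • p) ∧
  (∀ (g : Lin), (∀ x y, lor (g x) (g y) = lor x y) → IsParabolic g → ∀ x ∈ Hyp, g x ≠ x)

/-! ### the group theory of the example -/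

/-- PI: the kernel of `fill` is the normal closure of the relators, the map is onto, and the
second translation at the vertex `1` has its square in the normal closure of the others -/
def SpecPi : Prop :=
  Function.Surjective fill ∧ fill.ker = Subgroup.normalClosure (Set.range rel) ∧
    tB 1 ^ 2 ∈ Subgroup.normalClosure (rel '' {j | j ≠ 1})

/-- GOOD: the colourings are good -/
def SpecGood : Prop := dP.Good fP ∧ dD.Good fD

/-- CUSP: the stabilisers of the ideal vertices (may use TITS, UNIP) -/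
def SpecCusp : Prop :=
  (∀ (j : Fin 15) (g : dP.W), g ∈ dP.K fP → dP.rho g (pV j) = pV j →
    ∃ k l : ℤ, g = tA j ^ k * tB j ^ l) ∧
  (∀ (j : Fin 15) (k l : ℤ), dP.rho (tA j ^ k * tB j ^ l) (pV j) = pV j ∧
    (¬ (k = 0 ∧ l = 0) → IsParabolic (dP.rho (tA j ^ k * tB j ^ l)))) ∧
  (∀ (j : Fin 15), Commute (tA j) (tB j)) ∧
  (∀ (j : Fin 15) (k l k' l' : ℤ), tA j ^ k * tB j ^ l = tA j ^ k' * tB j ^ l' →
    k = k' ∧ l = l') ∧
  (∀ (j : Fin 15) (g : dP.W), dP.rho g (pV j) = pV j →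
    g * rel j * g⁻¹ = rel j ∨ g * rel j * g⁻¹ = (rel j)⁻¹) ∧
  (∀ g : dP.W, ∃ h : dP.W, dP.rho h (pV 1) = pV 1 ∧ g * h⁻¹ ∈ dP.K fP) ∧
  (∀ (j : Fin 15), rel j ∈ dP.K fP) ∧ (∀ k : ℤ, tA 1 * tB 1 ^ (2 * k) ∈ dP.K fP) ∧
  (∀ (j : Fin 15) (k : ℤ), tA j ^ k ∈ dP.K fP → ∃ m : ℤ, tA j ^ k = rel j ^ m)

/-- NULL: the ideal points of the chamber of `P` -/
def SpecNull : Prop :=
  ∀ x : E4, lor x x = 0 → 0 < x 0 → x ∈ dP.C → ∃ j : Fin 15, ∃ t : ℝ, 0 < t ∧ x = t • pV j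

/-- PARAB: the parabolic elements of the group of `P` (may use TITS, NULL, UNIP) -/
def SpecParab : Prop :=
  ∀ γ : dP.W, IsParabolic (dP.rho γ) → ∃ (w : dP.W) (j : Fin 15),
    dP.rho (w * γ * w⁻¹) (pV j) = pV j

/-- PFIN: finite volume of the chamber of `P` -/
def SpecPfin : Prop := hvol (dP.C ∩ Hyp) ≠ ⊤

/-- DCOMP: the chamber of `D` is bounded -/
def SpecDcomp : Prop := ∃ R : ℝ, ∀ x ∈ dD.C ∩ Hyp, x 0 ≤ R

/-! ### the slopes -/

/-- the slopes in the group of `P`: all conjugates of the relators at the vertices `j ≠ 1`, and the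
conjugates under the subgroup of `tA 1 * tB 1 ^ (2 k)` -/
def slopeSet (k : ℤ) : Set dP.W :=
  {x | (∃ (w : dP.W) (j : Fin 15), j ≠ 1 ∧ (x = w * rel j * w⁻¹ ∨ x = (w * rel j * w⁻¹)⁻¹)) ∨
    (∃ g ∈ dP.K fP, x = g * (tA 1 * tB 1 ^ (2 * k)) * g⁻¹ ∨
      x = (g * (tA 1 * tB 1 ^ (2 * k)) * g⁻¹)⁻¹)}

/-- the slopes in the group of isometries -/
def slopes (k : ℤ) : Set (dP.Γ fP) := {σ | ∃ x ∈ slopeSet k, (σ : Lin) = dP.rho x}

/-- SLOPES: the sets `slopes k` are systems of slopes (may use TITS, UNIP, CUSP, PARAB) -/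
def SpecSlopes : Prop :=
  (∀ k : ℤ, IsSlopeSystem (dP.Γ fP) (slopes k)) ∧ Function.Injective slopes

/-- QUOT: the fillings (may use TITS, PI, CUSP) -/
def SpecQuot : Prop :=
  ∀ k : ℤ, Nonempty ((dP.Γ fP ⧸ Subgroup.normalClosure (slopes k)) ≃* dD.Γ fD)

/-- the main theorem -/
def SpecMain : Prop :=
  ∃ Γ : Subgroup Lin, IsHyperbolicGroup Γ ∧ (∃ V : ℝ, HasVolume Γ V) ∧
    ∃ v : ℝ, {S : Set Γ | IsSlopeSystem Γ S ∧ FillingHasVolume Γ S v}.Infinite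

/-- the assembly -/
theorem main_of_specs (h2 : SpecFree) (h3 : SpecVol) (h4 : SpecCompact) (h5 : SpecGood)
    (h6 : SpecPfin) (h7 : SpecDcomp) (h8 : SpecSlopes) (h9 : SpecQuot) : SpecMain := by
  obtain ⟨R, hR⟩ := h7
  obtain ⟨hfin, hco⟩ := h4 _ dD fD R hR
  obtain ⟨v, hv⟩ := h3 _ dD fD hfin
  refine ⟨dP.Γ fP, h2 _ dP fP h5.1, h3 _ dP fP h6, v, ?_⟩
  have hsub : Set.range slopes ⊆
      {S : Set (dP.Γ fP) | IsSlopeSystem (dP.Γ fP) S ∧ FillingHasVolume (dP.Γ fP) S v} := by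
    rintro _ ⟨k, rfl⟩
    exact ⟨h8.1 k, dD.Γ fD, h2 _ dD fD h5.2, hco, hv, h9 k⟩
  exact (Set.infinite_range_of_injective h8.2).mono hsub

end EqVol
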